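import Pool.Agent.Q293.SD.Stm

/-!
# Project SD (helper293), job ANA: the choice of the scale (by helper224)
-/

set_option autoImplicit false
set_option linter.all false

namespace Pool.Agent.Q293.SD.AnaJ

open Pool.Agent.Q293.SD Finset

/-- the logarithm against a power -/
theorem log_le_pow {τ ε : ℝ} (hτ : 1 ≤ τ) (hε : 0 < ε) : Real.log τ ≤ τ ^ ε / ε :=
  Real.log_le_rpow_div (by linarith) hε

theorem ell_mono {C d : ℝ} (hd : 2 < d) {x y : ℝ} (hx : 1 ≤ x) (hxy : x ≤ y) :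
    ell C d x ≤ ell C d y := by
  unfold ell
  have := Real.log_le_log (by linarith) hxy
  nlinarith

theorem ell_nonneg {C d : ℝ} (hC : 1 ≤ C) (hd : 2 < d) {x : ℝ} (hx : 1 ≤ x) :
    0 ≤ ell C d x := by
  unfold ell
  have h1 := Real.log_nonneg hC
  have h2 := Real.log_nonneg hx
  positivity

theorem ell_le {C d ε : ℝ} (hC : 1 ≤ C) (hd : 2 < d) (hε : 0 < ε) {τ : ℝ} (hτ : 1 ≤ τ) :
    ell C d (3 * τ) ≤ (2 * Real.log C + d * Real.log 3 + d / ε) * τ ^ ε := by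
  unfold ell
  rw [Real.log_mul (by norm_num) (by linarith)]
  have h1 := Real.log_nonneg hC
  have h2 := Real.log_nonneg (show (1 : ℝ) ≤ 3 by norm_num)
  have h3 := log_le_pow hτ hε
  have h4 : 1 ≤ τ ^ ε := Real.one_le_rpow hτ hε.le
  have h5 : d * Real.log τ ≤ d / ε * τ ^ ε := by
    have := mul_le_mul_of_nonneg_left h3 (show 0 ≤ d by linarith)
    refine this.trans (le_of_eq ?_)
    ring
  have h6 : (2 * Real.log C + d * Real.log 3) ≤ (2 * Real.log C + d * Real.log 3) * τ ^ ε :=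
    le_mul_of_one_le_right (by positivity) h4
  nlinarith

/-- **JOB ANA** -/
theorem main : S_ANA := by
  intro c C d θ M hc hC hd hθ hθ1 hM
  have hM3 : (3 : ℝ) ≤ M := by exact_mod_cast hM
  have hM0 : (0 : ℝ) < M := by linarith
  have hlM : 0 < Real.log M := Real.log_pos (by linarith)
  obtain ⟨lam, hlam⟩ : ∃ lam : ℝ, lam = -Real.log θ / Real.log M := ⟨_, rfl⟩
  have hlam0 : 0 < lam := by
    rw [hlam]
    exact div_pos (by linarith [Real.log_neg hθ hθ1]) hlM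
  have hθM : (M : ℝ) ^ (-lam) = θ := by
    rw [Real.rpow_def_of_pos hM0, hlam]
    have : Real.log (M : ℝ) * -(-Real.log θ / Real.log M) = Real.log θ := by
      field_simp
    rw [this, Real.exp_log hθ]
  obtain ⟨β, hβ⟩ : ∃ β : ℝ, β = 1 / (2 * d + 6) := ⟨_, rfl⟩
  have hβ0 : 0 < β := by rw [hβ]; positivity
  have hβ1 : β ≤ 1 / 10 := by
    rw [hβ]
    exact one_div_le_one_div_of_le (by norm_num) (by linarith)
  obtain ⟨δ', hδ'⟩ : ∃ δ' : ℝ, δ' = min (β * lam) (1 / 4) := ⟨_, rfl⟩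
  have hδ0 : 0 < δ' := by rw [hδ']; exact lt_min (by positivity) (by norm_num)
  have hδ1 : δ' ≤ β * lam := by rw [hδ']; exact min_le_left _ _
  have hδ2 : δ' ≤ 1 / 4 := by rw [hδ']; exact min_le_right _ _
  obtain ⟨A, hA⟩ : ∃ A : ℝ, A = 2 * Real.log C + d * Real.log 3 + d / (δ' / 4) := ⟨_, rfl⟩
  have hA0 : 0 < A := by
    rw [hA]
    have h1 := Real.log_nonneg hC
    have h2 := Real.log_nonneg (show (1 : ℝ) ≤ 3 by norm_num)
    positivity
  obtain ⟨K1, hK1⟩ : ∃ K1 : ℝ, K1 = 8 * A * C * (12 * C / (c * θ) + 4 * C * A) := ⟨_, rfl⟩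
  have hK10 : 0 < K1 := by rw [hK1]; positivity
  refine ⟨1 / 2 - 3 * δ' / 8, 2 + √K1, by linarith, ?_⟩
  intro t ht
  obtain ⟨τ, hτ⟩ : ∃ τ : ℝ, τ = (t : ℝ) := ⟨_, rfl⟩
  rw [← hτ]
  have hτ1 : 1 ≤ τ := by rw [hτ]; exact_mod_cast ht
  have hτ0 : 0 < τ := by linarith
  obtain ⟨k, hk1, hk2⟩ := exists_nat_pow_near (Real.one_le_rpow hτ1 hβ0.le) (show (1 : ℝ) < M by linarith)
  refine ⟨k, ?_⟩
  obtain ⟨s, hs⟩ : ∃ s : ℝ, s = (M : ℝ) ^ k := ⟨_, rfl⟩
  have hs0 : 0 < s := by rw [hs]; positivity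
  have hs1 : 1 ≤ s := by rw [hs]; exact one_le_pow₀ (by linarith)
  rw [← hs] at hk1 ⊢
  have h2k : (2 : ℝ) ^ k ≤ s := by rw [hs]; exact pow_le_pow_left₀ (by norm_num) (by linarith) k
  have h4k : (4 : ℝ) ^ k ≤ s ^ 2 := by
    have : (4 : ℝ) ^ k = (2 ^ k) ^ 2 := by
      rw [← pow_mul, mul_comm, pow_mul]; norm_num
    rw [this]
    exact pow_le_pow_left₀ (by positivity) h2k 2
  have hθk : θ ^ k ≤ θ⁻¹ * τ ^ (-(β * lam)) := by
    have h1 : θ ^ (k + 1) = ((M : ℝ) ^ (k + 1)) ^ (-lam) := by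
      rw [← hθM, ← Real.rpow_natCast, ← Real.rpow_natCast, ← Real.rpow_mul hM0.le,
        ← Real.rpow_mul hM0.le]
      congr 1
      ring
    have h2 : ((M : ℝ) ^ (k + 1)) ^ (-lam) ≤ (τ ^ β) ^ (-lam) :=
      Real.rpow_le_rpow_of_nonpos (Real.rpow_pos_of_pos hτ0 _) hk2.le (by linarith)
    rw [← h1, ← Real.rpow_mul hτ0.le] at h2
    have h3 : β * -lam = -(β * lam) := by ring
    rw [h3] at h2
    have h4 : θ ^ k = θ⁻¹ * θ ^ (k + 1) := by
      rw [pow_succ]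
      field_simp
    rw [h4]
    exact mul_le_mul_of_nonneg_left h2 (by positivity)
  have hθk' : θ ^ k ≤ θ⁻¹ * τ ^ (-δ') := by
    refine hθk.trans (mul_le_mul_of_nonneg_left ?_ (by positivity))
    exact Real.rpow_le_rpow_of_exponent_le hτ1 (by linarith)
  have hsτ : s ≤ τ := hk1.trans (by
    calc τ ^ β ≤ τ ^ (1 : ℝ) := Real.rpow_le_rpow_of_exponent_le hτ1 (by linarith)
      _ = τ := Real.rpow_one τ)
  have hsd : s ^ (3 : ℕ) * s ^ d ≤ τ ^ (1 / 2 : ℝ) := by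
    have h1 : s ^ (3 : ℕ) * s ^ d = s ^ (3 + d) := by
      rw [Real.rpow_add hs0]
      congr 1
      rw [← Real.rpow_natCast]
      norm_num
    rw [h1]
    have h2 : s ^ (3 + d) ≤ (τ ^ β) ^ (3 + d) := Real.rpow_le_rpow hs0.le hk1 (by linarith)
    refine h2.trans (le_of_eq ?_)
    rw [← Real.rpow_mul hτ0.le]
    congr 1
    rw [hβ]
    field_simp
    ring
  have hε : 0 < δ' / 4 := by linarith
  have hell1 : ell C d (3 * τ) ≤ A * τ ^ (δ' / 4) := by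
    rw [hA]
    exact ell_le hC hd hε hτ1
  have hell2 : ell C d τ ≤ A * τ ^ (δ' / 4) :=
    (ell_mono hd hτ1 (by linarith)).trans hell1
  have hell3 : ell C d (τ + 1 + s) ≤ A * τ ^ (δ' / 4) :=
    (ell_mono hd (by linarith) (by linarith)).trans hell1
  have hell0 : 0 ≤ ell C d τ := ell_nonneg hC hd hτ1
  have hell4 : 0 ≤ ell C d (τ + 1 + s) := ell_nonneg hC hd (by linarith)
  have hsd0 : 0 < s ^ d := Real.rpow_pos_of_pos hs0 _
  -- the two terms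
  have E1 : 4 * (C * θ ^ k * s ^ d) / (c * s ^ d) * (τ + 1 + s) ≤ 12 * C / (c * θ) * τ ^ (1 - δ') := by
    have e1 : 4 * (C * θ ^ k * s ^ d) / (c * s ^ d) = 4 * C / c * θ ^ k := by
      field_simp
    rw [e1]
    have e2 : τ ^ (1 - δ') = τ * τ ^ (-δ') := by
      rw [sub_eq_add_neg, Real.rpow_add hτ0, Real.rpow_one]
    rw [e2]
    calc 4 * C / c * θ ^ k * (τ + 1 + s) ≤ 4 * C / c * (θ⁻¹ * τ ^ (-δ')) * (3 * τ) :=
          mul_le_mul (mul_le_mul_of_nonneg_left hθk' (by positivity)) (by linarith) (by positivity)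
            (by positivity)
      _ = 12 * C / (c * θ) * (τ * τ ^ (-δ')) := by field_simp; ring
  have E2 : 4 * 4 ^ k * s * (C * s ^ d) * ell C d (τ + 1 + s) ≤
      4 * C * A * (τ ^ (1 / 2 : ℝ) * τ ^ (δ' / 4)) := by
    have e1 : 4 * 4 ^ k * s * (C * s ^ d) ≤ 4 * C * τ ^ (1 / 2 : ℝ) := by
      calc 4 * 4 ^ k * s * (C * s ^ d) ≤ 4 * s ^ 2 * s * (C * s ^ d) := by gcongr
        _ = 4 * C * (s ^ (3 : ℕ) * s ^ d) := by ring
        _ ≤ 4 * C * τ ^ (1 / 2 : ℝ) := mul_le_mul_of_nonneg_left hsd (by positivity)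
    calc 4 * 4 ^ k * s * (C * s ^ d) * ell C d (τ + 1 + s) ≤
          4 * C * τ ^ (1 / 2 : ℝ) * (A * τ ^ (δ' / 4)) :=
          mul_le_mul e1 hell3 hell4 (by positivity)
      _ = 4 * C * A * (τ ^ (1 / 2 : ℝ) * τ ^ (δ' / 4)) := by ring
  have hin : 8 * ell C d τ *
      (C * (4 * (C * θ ^ k * s ^ d) / (c * s ^ d) * (τ + 1 + s) +
        4 * 4 ^ k * s * (C * s ^ d) * ell C d (τ + 1 + s))) ≤ K1 * τ ^ (1 - 3 * δ' / 4) := by
    have f1 : τ ^ (δ' / 4) * τ ^ (1 - δ') ≤ τ ^ (1 - 3 * δ' / 4) := by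
      rw [← Real.rpow_add hτ0]
      exact Real.rpow_le_rpow_of_exponent_le hτ1 (by linarith)
    have f2 : τ ^ (δ' / 4) * (τ ^ (1 / 2 : ℝ) * τ ^ (δ' / 4)) ≤ τ ^ (1 - 3 * δ' / 4) := by
      rw [← Real.rpow_add hτ0, ← Real.rpow_add hτ0]
      exact Real.rpow_le_rpow_of_exponent_le hτ1 (by linarith)
    have h0 : 0 ≤ 4 * (C * θ ^ k * s ^ d) / (c * s ^ d) * (τ + 1 + s) := by positivity
    have h0' : 0 ≤ 4 * 4 ^ k * s * (C * s ^ d) * ell C d (τ + 1 + s) :=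
      mul_nonneg (by positivity) hell4
    calc 8 * ell C d τ *
      (C * (4 * (C * θ ^ k * s ^ d) / (c * s ^ d) * (τ + 1 + s) +
        4 * 4 ^ k * s * (C * s ^ d) * ell C d (τ + 1 + s))) ≤
          8 * (A * τ ^ (δ' / 4)) * (C * (12 * C / (c * θ) * τ ^ (1 - δ') +
            4 * C * A * (τ ^ (1 / 2 : ℝ) * τ ^ (δ' / 4)))) := by
          refine mul_le_mul (mul_le_mul_of_nonneg_left hell2 (by norm_num)) ?_ ?_ (by positivity)
          · exact mul_le_mul_of_nonneg_left (add_le_add E1 E2) (by linarith)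
          · exact mul_nonneg (by linarith) (add_nonneg h0 h0')
      _ = 8 * A * C * (12 * C / (c * θ) * (τ ^ (δ' / 4) * τ ^ (1 - δ')) +
            4 * C * A * (τ ^ (δ' / 4) * (τ ^ (1 / 2 : ℝ) * τ ^ (δ' / 4)))) := by ring
      _ ≤ 8 * A * C * (12 * C / (c * θ) * τ ^ (1 - 3 * δ' / 4) +
            4 * C * A * τ ^ (1 - 3 * δ' / 4)) := by
          apply mul_le_mul_of_nonneg_left _ (by positivity)
          exact add_le_add (mul_le_mul_of_nonneg_left f1 (by positivity))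
            (mul_le_mul_of_nonneg_left f2 (by positivity))
      _ = K1 * τ ^ (1 - 3 * δ' / 4) := by rw [hK1]; ring
  have hsq := Real.sqrt_le_sqrt hin
  rw [Real.sqrt_mul hK10.le] at hsq
  have hsq2 : √(τ ^ (1 - 3 * δ' / 4)) = τ ^ (1 / 2 - 3 * δ' / 8) := by
    rw [Real.sqrt_eq_rpow, ← Real.rpow_mul hτ0.le]
    congr 1
    ring
  rw [hsq2] at hsq
  have hsα : s ≤ τ ^ (1 / 2 - 3 * δ' / 8) :=
    hk1.trans (Real.rpow_le_rpow_of_exponent_le hτ1 (by linarith))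
  calc (2 : ℝ) ^ k + s + √(8 * ell C d τ *
      (C * (4 * (C * θ ^ k * s ^ d) / (c * s ^ d) * (τ + 1 + s) +
        4 * 4 ^ k * s * (C * s ^ d) * ell C d (τ + 1 + s)))) ≤
        τ ^ (1 / 2 - 3 * δ' / 8) + τ ^ (1 / 2 - 3 * δ' / 8) + √K1 * τ ^ (1 / 2 - 3 * δ' / 8) :=
        add_le_add (add_le_add (h2k.trans hsα) hsα) hsq
    _ = (2 + √K1) * τ ^ (1 / 2 - 3 * δ' / 8) := by ring

end Pool.Agent.Q293.SD.AnaJ
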