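import Pool.Agent.Q293.SD.Stm

set_option autoImplicit false

namespace Pool.Agent.Q293.SD.CmpJ

open Pool.Agent.Q293.SD
open Finset

/-- A shortest path as a sequence. -/
theorem seq {V : Type} (G : SimpleGraph V) (hc : G.Connected) (y z : V) :
    ∃ x : ℕ → V, x 0 = y ∧ x (G.dist y z) = z ∧ (∀ i < G.dist y z, G.Adj (x i) (x (i + 1))) ∧
      ∀ i ≤ G.dist y z, G.dist y (x i) = i := by
  obtain ⟨p, hp⟩ := hc.exists_walk_length_eq_dist y z
  refine ⟨p.getVert, ?_, ?_, ?_, ?_⟩
  · simp
  · rw [← hp]
    simp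
  · intro i hi
    apply p.adj_getVert_succ
    omega
  · intro i hi
    have h1 : G.dist y (p.getVert i) ≤ i := by
      have := SimpleGraph.dist_le (p.take i)
      rw [SimpleGraph.Walk.take_length] at this
      omega
    have h2 : G.dist (p.getVert i) z ≤ p.length - i := by
      have := SimpleGraph.dist_le (p.drop i)
      rw [SimpleGraph.Walk.drop_length] at this
      omega
    have h3 : G.dist y z ≤ G.dist y (p.getVert i) + G.dist (p.getVert i) z := hc.dist_triangle
    omega

/-- The telescoping estimate. -/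
theorem tele (u : ℕ → ℝ) (j : ℕ) :
    u 0 ^ 2 ≤ 2 * u j ^ 2 + 2 * j * ∑ i ∈ range j, (u i - u (i + 1)) ^ 2 := by
  have h1 : ∑ i ∈ range j, (u i - u (i + 1)) = u 0 - u j := by
    rw [Finset.sum_range_sub']
  have h2 : (∑ i ∈ range j, (u i - u (i + 1))) ^ 2 ≤
      (range j).card * ∑ i ∈ range j, (u i - u (i + 1)) ^ 2 := sq_sum_le_card_mul_sum_sq
  rw [h1, Finset.card_range] at h2
  nlinarith [sq_nonneg (u 0 - 2 * u j)]

theorem main : S_CMP := by
  intro hL V G _ c C d hG o y z s t hd hI
  classical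
  have hdeg : ∀ x, (0 : ℝ) < G.degree x := fun x => by exact_mod_cast hG.deg0 x
  have dn0 : ∀ k x, 0 ≤ dn G o k x := fun k x =>
    div_nonneg ((hL V G c C d hG o k).1 x) (hdeg x).le
  obtain ⟨x, hx0, hxj, hadj, hdist⟩ := seq G hG.conn y z
  obtain ⟨j, hj⟩ : ∃ j, j = G.dist y z := ⟨_, rfl⟩
  rw [← hj] at hxj hadj hdist hd
  have h1 : ∀ k, dn G o k y ≤ 2 * dn G o (k + j) z +
      2 * j * ∑ i ∈ range j, (√(dn G o (k + i) (x i)) - √(dn G o (k + i + 1) (x (i + 1)))) ^ 2 := by
    intro k
    have := tele (fun i => √(dn G o (k + i) (x i))) j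
    simp only [add_zero, hx0, hxj] at this
    rw [Real.sq_sqrt (dn0 _ _), Real.sq_sqrt (dn0 _ _)] at this
    exact this
  have h2 : occ G o t y ≤ 2 * ∑ k ∈ range t, dn G o (k + j) z + 2 * j * ∑ k ∈ range t,
      ∑ i ∈ range j, (√(dn G o (k + i) (x i)) - √(dn G o (k + i + 1) (x (i + 1)))) ^ 2 := by
    unfold occ
    rw [Finset.mul_sum, Finset.mul_sum, ← Finset.sum_add_distrib]
    exact Finset.sum_le_sum fun k _ => h1 k
  have h3 : ∑ k ∈ range t, dn G o (k + j) z ≤ occ G o (t + s) z := by
    unfold occ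
    rw [← Finset.sum_image (f := fun k => dn G o k z) (g := fun k => k + j) (s := range t)]
    · apply Finset.sum_le_sum_of_subset_of_nonneg
      · intro m hm
        rw [Finset.mem_image] at hm
        obtain ⟨k, hk, rfl⟩ := hm
        rw [Finset.mem_range] at hk ⊢
        omega
      · intro m _ _
        exact dn0 m z
    · intro a _ b _ h
      simpa using h
  have h4 : ∑ k ∈ range t, ∑ i ∈ range j,
      (√(dn G o (k + i) (x i)) - √(dn G o (k + i + 1) (x (i + 1)))) ^ 2 ≤
      ∑ m ∈ range (t + s), ∑ a ∈ bal G y s, hel G o m a := by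
    rw [Finset.sum_comm]
    have h5 : ∀ i ∈ range j, ∑ k ∈ range t,
        (√(dn G o (k + i) (x i)) - √(dn G o (k + i + 1) (x (i + 1)))) ^ 2 ≤
        ∑ m ∈ range (t + s), hel G o m (x i) := by
      intro i hi
      rw [Finset.mem_range] at hi
      have h6 : ∀ k, (√(dn G o (k + i) (x i)) - √(dn G o (k + i + 1) (x (i + 1)))) ^ 2 ≤
          hel G o (k + i) (x i) := by
        intro k
        unfold hel
        exact Finset.single_le_sum
          (f := fun b => (√(dn G o (k + i) (x i)) - √(dn G o (k + i + 1) b)) ^ 2)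
          (fun b _ => sq_nonneg _) ((SimpleGraph.mem_neighborFinset G _ _).mpr (hadj i hi))
      refine (Finset.sum_le_sum fun k _ => h6 k).trans ?_
      rw [← Finset.sum_image (f := fun k => hel G o k (x i)) (g := fun k => k + i) (s := range t)]
      · apply Finset.sum_le_sum_of_subset_of_nonneg
        · intro m hm
          rw [Finset.mem_image] at hm
          obtain ⟨k, hk, rfl⟩ := hm
          rw [Finset.mem_range] at hk ⊢
          omega
        · intro m _ _
          unfold hel
          exact Finset.sum_nonneg fun _ _ => sq_nonneg _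
      · intro a _ b _ h
        simpa using h
    refine (Finset.sum_le_sum h5).trans ?_
    rw [Finset.sum_comm]
    apply Finset.sum_le_sum
    intro m _
    rw [← Finset.sum_image (f := fun a => hel G o m a) (g := x) (s := range j)]
    · apply Finset.sum_le_sum_of_subset_of_nonneg
      · intro a ha
        rw [Finset.mem_image] at ha
        obtain ⟨i, hi, rfl⟩ := ha
        rw [Finset.mem_range] at hi
        rw [hG.mem, hdist i hi.le]
        omega
      · intro a _ _
        unfold hel
        exact Finset.sum_nonneg fun _ _ => sq_nonneg _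
    · intro a ha b hb h
      simp only [Finset.coe_range, Set.mem_Iio] at ha hb
      have h7 := hdist a ha.le
      have h8 := hdist b hb.le
      rw [h] at h7
      omega
  have hjs : (j : ℝ) ≤ s := by exact_mod_cast hd
  have hI0 : 0 ≤ ∑ k ∈ range t, ∑ i ∈ range j,
      (√(dn G o (k + i) (x i)) - √(dn G o (k + i + 1) (x (i + 1)))) ^ 2 :=
    Finset.sum_nonneg fun _ _ => Finset.sum_nonneg fun _ _ => sq_nonneg _
  have h9 : (j : ℝ) * ∑ k ∈ range t, ∑ i ∈ range j,
      (√(dn G o (k + i) (x i)) - √(dn G o (k + i + 1) (x (i + 1)))) ^ 2 ≤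
      s * ∑ m ∈ range (t + s), ∑ a ∈ bal G y s, hel G o m a :=
    mul_le_mul hjs h4 hI0 (by positivity)
  nlinarith [h2, h3, h9, hI]

end Pool.Agent.Q293.SD.CmpJ
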