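import Pool.Agent.Q293.SD.Stm

/-!
Job SD-CNT: the number of the points of a separated set in a ball.
-/

set_option autoImplicit false

namespace Pool.Agent.Q293.SD.CntJ

open Pool.Agent.Q293.SD Finset

theorem main : S_CNT := by
  classical
  intro c C d hc hC hd
  refine ⟨C + C / c * 6 ^ d, ?_, ?_⟩
  · have : 0 ≤ C / c * (6 : ℝ) ^ d := by positivity
    linarith
  intro V G _ hG r Y hr hsep x R hR F hF
  have hC0 : 0 ≤ C := by linarith
  have hrpos : (0 : ℝ) < r := by exact_mod_cast hr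
  have hR1 : 1 ≤ R := hr.trans hR
  have hRpos : (0 : ℝ) < R := by exact_mod_cast hR1
  have hRr : 0 < (R : ℝ) / r := by positivity
  have hRrd : 0 ≤ ((R : ℝ) / r) ^ d := by positivity
  have hCc : 0 ≤ C / c * (6 : ℝ) ^ d := by positivity
  rcases Nat.lt_or_ge r 2 with hr2 | hr2
  · have hr1 : r = 1 := by omega
    subst hr1
    have hsub : F ⊆ bal G x R := by
      intro y hy
      rw [hG.mem]
      exact (hF y hy).2
    have h1 : (F.card : ℝ) ≤ C * (R : ℝ) ^ d :=
      (Nat.cast_le.2 (Finset.card_le_card hsub)).trans (hG.up x R hR1)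
    have h2 : ((R : ℝ) / (1 : ℕ)) ^ d = (R : ℝ) ^ d := by simp
    rw [h2] at hRrd ⊢
    nlinarith [mul_nonneg hCc hRrd]
  · -- disjoint balls
    have hdisj : ∀ y ∈ F, ∀ y' ∈ F, y ≠ y' →
        Disjoint (bal G y (r / 2)) (bal G y' (r / 2)) := by
      intro y hy y' hy' hne
      rw [Finset.disjoint_left]
      intro u hu hu'
      rw [hG.mem] at hu hu'
      have h1 := hsep y (hF y hy).1 y' (hF y' hy').1 hne
      have h2 := hG.conn.dist_triangle (u := y) (v := u) (w := y')
      rw [SimpleGraph.dist_comm (u := u) (v := y')] at h2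
      omega
    have hsub : F.biUnion (fun y => bal G y (r / 2)) ⊆ bal G x (2 * R) := by
      intro u hu
      rw [Finset.mem_biUnion] at hu
      obtain ⟨y, hy, hu⟩ := hu
      rw [hG.mem] at hu ⊢
      have h1 := (hF y hy).2
      have h2 := hG.conn.dist_triangle (u := x) (v := y) (w := u)
      omega
    have hcard := Finset.card_le_card hsub
    rw [Finset.card_biUnion hdisj] at hcard
    have hup := hG.up x (2 * R) (by omega)
    have h3 : (r : ℝ) / 3 ≤ ((r / 2 : ℕ) : ℝ) := by
      rw [div_le_iff₀ (by norm_num)]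
      have : r ≤ r / 2 * 3 := by omega
      exact_mod_cast this
    have hlow : ∀ y ∈ F, c * ((r : ℝ) / 3) ^ d ≤ ((bal G y (r / 2)).card : ℝ) := by
      intro y _
      refine le_trans ?_ (hG.low y (r / 2) (by omega))
      apply mul_le_mul_of_nonneg_left _ hc.le
      exact Real.rpow_le_rpow (by positivity) h3 (by linarith)
    have hsum : (F.card : ℝ) * (c * ((r : ℝ) / 3) ^ d) ≤ C * ((2 * R : ℕ) : ℝ) ^ d := by
      calc (F.card : ℝ) * (c * ((r : ℝ) / 3) ^ d) = ∑ _y ∈ F, c * ((r : ℝ) / 3) ^ d := by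
            rw [Finset.sum_const, nsmul_eq_mul]
        _ ≤ ∑ y ∈ F, ((bal G y (r / 2)).card : ℝ) := Finset.sum_le_sum hlow
        _ = ((∑ y ∈ F, (bal G y (r / 2)).card : ℕ) : ℝ) := by push_cast; rfl
        _ ≤ ((bal G x (2 * R)).card : ℝ) := Nat.cast_le.2 hcard
        _ ≤ C * ((2 * R : ℕ) : ℝ) ^ d := hup
    have hr3 : 0 < ((r : ℝ) / 3) ^ d := by positivity
    have hmain : (F.card : ℝ) ≤ C / c * 6 ^ d * ((R : ℝ) / r) ^ d := by
      have h4 : C / c * 6 ^ d * ((R : ℝ) / r) ^ d * (c * ((r : ℝ) / 3) ^ d) =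
          C * ((2 * R : ℕ) : ℝ) ^ d := by
        have h5 : ((2 * R : ℕ) : ℝ) = 6 * ((R : ℝ) / r) * ((r : ℝ) / 3) := by
          push_cast
          field_simp
          ring
        rw [h5, Real.mul_rpow (by positivity) (by positivity),
          Real.mul_rpow (by positivity) (by positivity)]
        field_simp
      have hpos : 0 < c * ((r : ℝ) / 3) ^ d := by positivity
      rw [← h4] at hsum
      exact le_of_mul_le_mul_right hsum hpos
    calc (F.card : ℝ) ≤ C / c * 6 ^ d * ((R : ℝ) / r) ^ d := hmain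
      _ ≤ (C + C / c * 6 ^ d) * ((R : ℝ) / r) ^ d := by
          apply mul_le_mul_of_nonneg_right _ hRrd
          linarith

end Pool.Agent.Q293.SD.CntJ
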