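import Pool.Agent.Q293.SD.Stm

/-!
Job SD-CRO: crossing the sphere of radius `3 M r`.
-/

set_option autoImplicit false

namespace Pool.Agent.Q293.SD.CroJ

open Pool.Agent.Q293.SD Finset

/-- Discrete intermediate value theorem along a walk. -/
theorem ivt {V : Type} (G : SimpleGraph V) (hG : G.Connected) (y : V) (N : ℕ) :
    ∀ (u v : V) (p : G.Walk u v), G.dist y u ≤ N → N ≤ G.dist y v →
      ∃ w ∈ p.support, G.dist y w = N := by
  intro u v p
  induction p with
  | nil =>
    intro h1 h2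
    exact ⟨_, by simp, le_antisymm h1 h2⟩
  | @cons u w v h p ih =>
    intro h1 h2
    rcases Nat.lt_or_ge (G.dist y u) N with hlt | hge
    · have h3 := hG.dist_triangle (u := y) (v := u) (w := w)
      have h4 : G.dist u w = 1 := SimpleGraph.dist_eq_one_iff_adj.2 h
      obtain ⟨x, hx, hxN⟩ := ih (by omega) h2
      exact ⟨x, by rw [SimpleGraph.Walk.support_cons]; exact List.mem_cons_of_mem _ hx, hxN⟩
    · exact ⟨u, by simp, le_antisymm h1 hge⟩

theorem main : S_CRO := by
  intro hQLI V G hG r M Y a hr hM hVor y v P hyv hP h1 h2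
  obtain ⟨x1, hx1, u1, hu1, -, p1, q1, hpq1, hp1, hq1⟩ := h1
  obtain ⟨x2, hx2, u2, hu2, -, q2, p2, hpq2, hq2, hp2⟩ := h2
  have hMr : 3 * r ≤ M * r := Nat.mul_le_mul_right _ hM
  -- vertices with the same label are close
  have hsame : ∀ s t, a s = a t → G.dist s t ≤ 2 * r := by
    intro s t hst
    have h3 := hG.dist_triangle (u := s) (v := a s) (w := t)
    have h4 := hVor.near s
    have h5 := hVor.near t
    rw [← hst, SimpleGraph.dist_comm] at h5
    omega
  have e1 : G.dist y q1 ≤ 3 * (M * r) := by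
    have h3 := hG.dist_triangle (u := y) (v := u1) (w := p1)
    have h4 := hG.dist_triangle (u := y) (v := p1) (w := q1)
    have h5 := hsame u1 p1 hp1.symm
    have h6 : G.dist p1 q1 = 1 := SimpleGraph.dist_eq_one_iff_adj.2 hpq1
    omega
  have e2 : 3 * (M * r) ≤ G.dist y q2 := by
    have h3 := hG.dist_triangle (u := v) (v := u2) (w := p2)
    have h4 := hG.dist_triangle (u := v) (v := p2) (w := q2)
    have h5 := hsame u2 p2 hp2.symm
    have h6 : G.dist q2 p2 = 1 := SimpleGraph.dist_eq_one_iff_adj.2 hpq2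
    rw [SimpleGraph.dist_comm] at h6
    have h7 := hG.dist_triangle (u := y) (v := q2) (w := v)
    rw [SimpleGraph.dist_comm (u := q2) (v := v)] at h7
    omega
  obtain ⟨p, hp⟩ := hP.2 x1 (Finset.mem_coe.2 hx1) x2 (Finset.mem_coe.2 hx2)
  obtain ⟨q, hq⟩ := hQLI V G a hVor.cell _ _ p q1 q2 hq1 hq2
  obtain ⟨w, hw, hwN⟩ := ivt G hG y (3 * (M * r)) q1 q2 q e1 e2
  exact ⟨w, Finset.mem_coe.1 (hp _ (hq w hw)), hwN⟩

end Pool.Agent.Q293.SD.CroJ
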