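import Pool.Agent.Q293.SD.Stm

/-!
# Project SD, job CUT: the cut bound
-/

set_option autoImplicit false

namespace Pool.Agent.Q293.SD.CutJ

open Finset Pool.Agent.Q293.SD

/-- A shortest walk stays in the ball around its end point. -/
theorem geo_in {V : Type} (G : SimpleGraph V) (hG : G.Connected) (u y : V) :
    ∃ p : G.Walk u y, ∀ x ∈ p.support, G.dist y x ≤ G.dist y u := by
  classical
  obtain ⟨p, hp⟩ := hG.exists_walk_length_eq_dist u y
  refine ⟨p, fun x hx => ?_⟩
  have h1 : G.dist x y ≤ (p.dropUntil x hx).length := SimpleGraph.dist_le _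
  have h2 : (p.dropUntil x hx).length ≤ p.length := SimpleGraph.Walk.length_dropUntil_le_length _ _
  rw [SimpleGraph.dist_comm, SimpleGraph.dist_comm (u := y) (v := u)]
  omega

/-- Any two points of a ball are joined in it. -/
theorem ball_conn {V : Type} (G : SimpleGraph V) (hG : G.Connected) (y : V) (s : ℕ) (u v : V)
    (hu : G.dist y u ≤ s) (hv : G.dist y v ≤ s) :
    ∃ p : G.Walk u v, ∀ x ∈ p.support, G.dist y x ≤ s := by
  obtain ⟨p, hp⟩ := geo_in G hG u y
  obtain ⟨q, hq⟩ := geo_in G hG v y
  refine ⟨p.append q.reverse, fun x hx => ?_⟩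
  rw [SimpleGraph.Walk.mem_support_append_iff] at hx
  rcases hx with hx | hx
  · exact (hp x hx).trans hu
  · rw [SimpleGraph.Walk.support_reverse, List.mem_reverse] at hx
    exact (hq x hx).trans hv

/-- Vertices with equal labels are near. -/
theorem same {V : Type} {G : SimpleGraph V} (hG : G.Connected) {r : ℕ} {Y : Set V} {a : V → V}
    (hV : Vor G r Y a) {u v : V} (h : a u = a v) : G.dist u v ≤ 2 * r := by
  have h1 := hV.near u
  have h2 := hV.near v
  rw [h] at h1
  have h3 := hG.dist_triangle (u := u) (v := a v) (w := v)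
  rw [SimpleGraph.dist_comm] at h2
  omega

theorem main : S_CUT := by
  intro hIND hQLI hCNT hMEN hHUB hLIF hCRO hGEO hVOR hQWK
  intro c C d h hc hC hd hh
  obtain ⟨K, hK1, hK⟩ := hCNT c C d hc hC hd
  obtain ⟨Z, hZ1, hZ⟩ := hGEO hCNT c C d hc hC hd
  set N : ℕ := ⌈K * (4 : ℝ) ^ d⌉₊ with hN
  refine ⟨N * (2 * h * Z + h + 1), ?_⟩
  intro V G _ hGr hK3 r M Y a hr hM hVor y v hyv1 hyv2
  classical
  have hG := hGr.conn
  set s : ℕ := M * r with hs
  have hrs : 3 * r ≤ s := Nat.mul_le_mul_right r hM
  set A : Finset V := (bal G y s).image a with hA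
  set B : Finset V := (bal G v s).image a with hB
  set F : Finset V := (bal G y (10 * s)).image a with hF
  have tri : ∀ x y z : V, G.dist x z ≤ G.dist x y + G.dist y z := fun x y z =>
    hG.dist_triangle
  have com : ∀ x y : V, G.dist x y = G.dist y x := fun x y => SimpleGraph.dist_comm
  -- A and B
  have hAB : Disjoint A B := by
    rw [Finset.disjoint_left]
    intro x hx hx'
    rw [hA, Finset.mem_image] at hx
    rw [hB, Finset.mem_image] at hx'
    obtain ⟨u, hu, rfl⟩ := hx
    obtain ⟨u', hu', he⟩ := hx'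
    rw [hGr.mem] at hu hu'
    have h1 := same hG hVor he
    have h2 := tri y u v
    have h3 := tri u u' v
    have h4 := com u u'
    have h5 := com v u'
    omega
  have hABn : ∀ x ∈ A, ∀ x' ∈ B, ¬ (quo G a).Adj x x' := by
    intro x hx x' hx' hadj
    rw [hA, Finset.mem_image] at hx
    rw [hB, Finset.mem_image] at hx'
    obtain ⟨u, hu, rfl⟩ := hx
    obtain ⟨u', hu', rfl⟩ := hx'
    rw [hGr.mem] at hu hu'
    obtain ⟨-, p, q, hpq, hp, hq⟩ := hadj
    have h1 := same hG hVor hp
    have h2 := same hG hVor hq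
    have h3 : G.dist p q ≤ 1 := by
      rw [SimpleGraph.dist_eq_one_iff_adj.2 hpq]
    have h4 := tri y u v
    have h5 := tri u p v
    have h6 := tri p q v
    have h7 := tri q u' v
    have h8 := com u p
    have h9 := com v u'
    omega
  have img_conn : ∀ (w : V), Cn (quo G a) (((bal G w s).image a : Finset V) : Set V) := by
    intro w
    refine ⟨⟨a w, ?_⟩, ?_⟩
    · simp only [Finset.coe_image, Set.mem_image, Finset.mem_coe]
      exact ⟨w, by rw [hGr.mem, SimpleGraph.dist_self]; omega, rfl⟩
    · intro x hx x' hx'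
      simp only [Finset.coe_image, Set.mem_image, Finset.mem_coe] at hx hx'
      obtain ⟨u, hu, rfl⟩ := hx
      obtain ⟨u', hu', rfl⟩ := hx'
      rw [hGr.mem] at hu hu'
      obtain ⟨p, hp⟩ := ball_conn G hG w s u u' hu hu'
      obtain ⟨q, hq⟩ := hQWK V G a u u' p
      refine ⟨q, fun x hx => ?_⟩
      obtain ⟨z, hz, rfl⟩ := hq x hx
      simp only [Finset.coe_image, Set.mem_image, Finset.mem_coe]
      exact ⟨z, by rw [hGr.mem]; exact hp z hz, rfl⟩
  set n0 : ℕ := h * (2 * (Z * M) + 1) + 1 with hn0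
  rcases hMEN V (quo G a) F A B (N * n0) hAB hABn with ⟨S, hS1, hS2⟩ | ⟨P, hPF, hPA, hPB, hPc,
    hPa, hPb, hPd⟩
  · refine ⟨S, hS1.trans ?_, ?_⟩
    · have h1 : n0 ≤ (2 * h * Z + h + 1) * M := by
        rw [hn0]
        nlinarith
      calc N * n0 ≤ N * ((2 * h * Z + h + 1) * M) := Nat.mul_le_mul_left _ h1
        _ = N * (2 * h * Z + h + 1) * M := by ring
    · intro x x' p hx hx' hp
      obtain ⟨q, hq⟩ := hQWK V G a x x' p
      obtain ⟨w, hw1, hw2⟩ := hS2 (a x) (a x') q
        (by rw [hA]; exact Finset.mem_image_of_mem a (by rw [hGr.mem]; exact hx))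
        (by rw [hB]; exact Finset.mem_image_of_mem a (by rw [hGr.mem]; exact hx'))
        (by
          intro w hw
          obtain ⟨z, hz, rfl⟩ := hq w hw
          rw [hF]
          exact Finset.mem_image_of_mem a (by rw [hGr.mem]; exact hp z hz))
      obtain ⟨z, hz, rfl⟩ := hq w hw1
      exact ⟨z, hz, hw2⟩
  · exfalso
    obtain ⟨Y', a', hVor'⟩ := hVOR V G hG s
    have hx : ∀ i, ∃ u, a u ∈ P i ∧ G.dist y u = 3 * s := by
      intro i
      apply hCRO hQLI V G hG r M Y a hr hM hVor y v (P i) hyv1 (hPc i)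
      · obtain ⟨x, hx, w, hw, hadj⟩ := hPa i
        rw [hA, Finset.mem_image] at hw
        obtain ⟨u, hu, rfl⟩ := hw
        rw [hGr.mem] at hu
        exact ⟨x, hx, u, hu, hadj⟩
      · obtain ⟨x, hx, w, hw, hadj⟩ := hPb i
        rw [hB, Finset.mem_image] at hw
        obtain ⟨u, hu, rfl⟩ := hw
        rw [hGr.mem] at hu
        exact ⟨x, hx, u, hu, hadj⟩
    choose xx hxP hxd using hx
    have hs1 : 1 ≤ s := by omega
    -- the net points
    set T : Finset V := (Finset.univ : Finset (Fin (N * n0 + 1))).image (fun i => a' (xx i))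
      with hT
    have hTc : T.card ≤ N := by
      have h1 := hK V G hGr s Y' hs1 hVor'.sep y (4 * s) (by omega) T (by
        intro z hz
        rw [hT, Finset.mem_image] at hz
        obtain ⟨i, -, rfl⟩ := hz
        refine ⟨hVor'.inY _, ?_⟩
        have h1 := hVor'.near (xx i)
        have h2 := tri y (xx i) (a' (xx i))
        have h3 := hxd i
        omega)
      have h2 : (((4 * s : ℕ) : ℝ) / (s : ℝ)) = 4 := by
        have : (s : ℝ) ≠ 0 := by positivity
        push_cast
        field_simp
      rw [h2] at h1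
      have h3 : (T.card : ℝ) ≤ (N : ℝ) := h1.trans (Nat.le_ceil _)
      exact_mod_cast h3
    obtain ⟨z, hzT, hz⟩ := Finset.exists_lt_card_fiber_of_mul_lt_card_of_maps_to
      (s := (Finset.univ : Finset (Fin (N * n0 + 1)))) (t := T) (f := fun i => a' (xx i))
      (n := n0) (fun i hi => Finset.mem_image_of_mem _ hi)
      (by
        rw [Finset.card_univ, Fintype.card_fin]
        have := Nat.mul_le_mul_right n0 hTc
        omega)
    refine hK3 (hLIF hQLI V G c C d hGr r Y a hVor h hh ?_)
    refine hHUB hIND V (quo G a) A B (Fin (N * n0 + 1)) _ P (a z) (Z * M) h hh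
      (img_conn y) (img_conn v) hAB
      (fun i _ => ⟨hPc i, hPA i, hPB i, hPa i, hPb i⟩) (fun i _ j _ hij => hPd i j hij) ?_
      (le_of_lt hz)
    intro i hi
    rw [Finset.mem_filter] at hi
    have hi2 : a' (xx i) = z := hi.2
    have hzx : G.dist z (xx i) ≤ s := by
      rw [← hi2, com]
      exact hVor'.near (xx i)
    obtain ⟨p, hp, T', hT'1, hT'2⟩ := hZ V G hGr r M Y a hr (by omega) hVor z (xx i) hzx
    obtain ⟨q, hq⟩ := hQWK V G a z (xx i) p
    refine ⟨a (xx i), hxP i, q, ?_, T', hT'1, ?_⟩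
    · intro w hw
      obtain ⟨u, hu, rfl⟩ := hq w hw
      have h1 := hp u hu
      have h2 := hxd i
      have h3 := tri y u (xx i)
      have h3' := tri y (xx i) u
      have h4 := com u (xx i)
      constructor
      · intro hw'
        rw [hA, Finset.mem_image] at hw'
        obtain ⟨u', hu', he⟩ := hw'
        rw [hGr.mem] at hu'
        have h5 := same hG hVor he
        have h6 := tri y u' u
        omega
      · intro hw'
        rw [hB, Finset.mem_image] at hw'
        obtain ⟨u', hu', he⟩ := hw'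
        rw [hGr.mem] at hu'
        have h5 := same hG hVor he
        have h6 := tri y u v
        have h7 := tri u u' v
        have h8 := com u u'
        have h9 := com v u'
        omega
    · intro w hw
      obtain ⟨u, hu, rfl⟩ := hq w hw
      exact hT'2 u hu

end Pool.Agent.Q293.SD.CutJ
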