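import Pool.Agent.Q293.SD.Stm

set_option autoImplicit false

namespace Pool.Agent.Q293.SD.DisJ

open Pool.Agent.Q293.SD
open Finset

open Classical in
/-- The adjacent pairs in `S`. -/
noncomputable def prs {V : Type} (G : SimpleGraph V) (S : Finset V) : Finset (V × V) :=
  (S ×ˢ S).filter fun p => G.Adj p.1 p.2

theorem prs_sum {V : Type} (G : SimpleGraph V) [G.LocallyFinite] (S : Finset V)
    (F : V → V → ℝ) (hF : ∀ y x, G.Adj y x → x ∉ S → F y x = 0) :
    ∑ p ∈ prs G S, F p.1 p.2 = ∑ y ∈ S, ∑ x ∈ G.neighborFinset y, F y x := by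
  classical
  unfold prs
  rw [Finset.sum_filter, Finset.sum_product]
  apply Finset.sum_congr rfl
  intro y _
  simp only
  rw [← Finset.sum_filter]
  apply Finset.sum_congr_of_eq_on_inter
  · intro x hx hx2
    rw [Finset.mem_filter] at hx
    exact absurd ((SimpleGraph.mem_neighborFinset G y x).mpr hx.2) hx2
  · intro x hx hx2
    rw [SimpleGraph.mem_neighborFinset] at hx
    apply hF y x hx
    intro h
    apply hx2
    rw [Finset.mem_filter]
    exact ⟨h, hx⟩
  · intro x _ _
    rfl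

theorem prs_symm {V : Type} (G : SimpleGraph V) (S : Finset V) (F : V → V → ℝ) :
    ∑ p ∈ prs G S, F p.2 p.1 = ∑ p ∈ prs G S, F p.1 p.2 := by
  classical
  have hm : ∀ p ∈ prs G S, ((p.2, p.1) : V × V) ∈ prs G S := by
    intro p hp
    unfold prs at hp ⊢
    rw [Finset.mem_filter, Finset.mem_product] at hp ⊢
    exact ⟨⟨hp.1.2, hp.1.1⟩, hp.2.symm⟩
  exact Finset.sum_bij' (fun p _ => (p.2, p.1)) (fun p _ => (p.2, p.1)) hm hm
    (fun _ _ => rfl) (fun _ _ => rfl) (fun _ _ => rfl)

theorem dn_supp (hL : S_LAW) {V : Type} (G : SimpleGraph V) [G.LocallyFinite] {c C d : ℝ}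
    (hG : Gr G c C d) (o : V) (k : ℕ) (y : V) (h : dn G o k y ≠ 0) : G.dist o y ≤ k := by
  apply (hL V G c C d hG o k).2.1 y
  intro h2
  apply h
  unfold dn
  rw [h2, zero_div]

theorem exA (hL : S_LAW) {V : Type} (G : SimpleGraph V) [G.LocallyFinite] {c C d : ℝ}
    (hG : Gr G c C d) (o : V) (k : ℕ) (S : Finset V) (hS : ∀ x, G.dist o x ≤ k + 1 → x ∈ S)
    (g : V → ℝ) : ex G o (k + 1) g = ∑ p ∈ prs G S, dn G o k p.1 * g p.2 := by
  classical
  rw [(hL V G c C d hG o k).2.2.2.2 S g (by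
    intro x hx
    rw [hG.mem] at hx
    exact hS x (by omega))]
  rw [prs_sum G S (fun y x => dn G o k y * g x)]
  · simp_rw [Finset.mul_sum]
  · intro y x hyx hx
    by_contra h
    have h1 : dn G o k y ≠ 0 := by
      intro h2
      apply h
      simp only [h2, zero_mul]
    have h2 := dn_supp hL G hG o k y h1
    have h3 : G.dist o x ≤ G.dist o y + G.dist y x := hG.conn.dist_triangle
    have h4 : G.dist y x = 1 := SimpleGraph.dist_eq_one_iff_adj.mpr hyx
    exact hx (hS x (by omega))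

theorem exC (hL : S_LAW) {V : Type} (G : SimpleGraph V) [G.LocallyFinite] {c C d : ℝ}
    (hG : Gr G c C d) (o : V) (k : ℕ) (S : Finset V) (hS : ∀ x, G.dist o x ≤ k + 1 → x ∈ S)
    (g : V → ℝ) : ex G o k g = ∑ p ∈ prs G S, dn G o k p.1 * g p.1 := by
  classical
  have hdeg : ∀ x, (0 : ℝ) < G.degree x := fun x => by exact_mod_cast hG.deg0 x
  rw [(hL V G c C d hG o k).2.2.2.1 S g (by
    intro x hx
    rw [hG.mem] at hx
    exact hS x (by omega))]
  rw [prs_sum G S (fun y _ => dn G o k y * g y)]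
  · apply Finset.sum_congr rfl
    intro y _
    rw [Finset.sum_const, SimpleGraph.card_neighborFinset_eq_degree, nsmul_eq_mul, ← mul_assoc]
    congr 1
    unfold dn
    have := hdeg y
    field_simp
  · intro y x hyx hx
    by_contra h
    have h1 : dn G o k y ≠ 0 := by
      intro h2
      apply h
      simp only [h2, zero_mul]
    have h2 := dn_supp hL G hG o k y h1
    have h3 : G.dist o x ≤ G.dist o y + G.dist y x := hG.conn.dist_triangle
    have h4 : G.dist y x = 1 := SimpleGraph.dist_eq_one_iff_adj.mpr hyx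
    exact hx (hS x (by omega))

theorem par (g : ℕ → ℝ) (hg : ∀ k, 0 ≤ g k) (r n : ℕ) :
    ∑ j ∈ range n, (g (r + 2 * j) + 2 * g (r + 2 * j + 1) + g (r + 2 * j + 2)) + g (r + 2 * n) ≤
      2 * ∑ k ∈ range (r + 2 * n + 1), g k := by
  induction n with
  | zero =>
    simp only [Finset.range_zero, Finset.sum_empty, mul_zero, add_zero, zero_add]
    rw [Finset.sum_range_succ]
    have : 0 ≤ ∑ k ∈ range r, g k := Finset.sum_nonneg fun _ _ => hg _
    have := hg r
    linarith
  | succ n ih =>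
    rw [Finset.sum_range_succ]
    have e : r + 2 * (n + 1) + 1 = (r + 2 * n + 1) + 1 + 1 := by ring
    rw [e, Finset.sum_range_succ, Finset.sum_range_succ]
    have e2 : r + 2 * (n + 1) = r + 2 * n + 2 := by ring
    have e3 : r + 2 * n + 1 + 1 = r + 2 * n + 2 := by ring
    rw [e2, e3]
    linarith

theorem par2 (g : ℕ → ℝ) (hg : ∀ k, 0 ≤ g k) (r n : ℕ) :
    ∑ j ∈ range n, g (r + 2 * j) ≤ ∑ k ∈ range (r + 2 * n), g k := by
  induction n with
  | zero =>
    simp only [Finset.range_zero, Finset.sum_empty]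
    exact Finset.sum_nonneg fun _ _ => hg _
  | succ n ih =>
    rw [Finset.sum_range_succ]
    have e : r + 2 * (n + 1) = (r + 2 * n) + 1 + 1 := by ring
    rw [e, Finset.sum_range_succ, Finset.sum_range_succ]
    have := hg (r + 2 * n + 1)
    linarith

theorem main : S_DIS := by
  intro hL hE hT V G _ c C d hG o f W hW hfW t
  classical
  have hdeg : ∀ x, (0 : ℝ) < G.degree x := fun x => by exact_mod_cast hG.deg0 x
  have dn0 : ∀ k x, 0 ≤ dn G o k x := fun k x =>
    div_nonneg ((hL V G c C d hG o k).1 x) (hdeg x).le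
  obtain ⟨S, hS⟩ : ∃ S, S = bal G o (t + 2) := ⟨_, rfl⟩
  have hS1 : ∀ k, k ≤ t + 2 → ∀ x, G.dist o x ≤ k → x ∈ S := by
    intro k hk x hx
    rw [hS, hG.mem]
    omega
  have exW : ∀ k, 0 ≤ ex G o k W := by
    intro k
    rw [(hL V G c C d hG o k).2.2.2.1 (bal G o k) W (Finset.Subset.refl _)]
    exact Finset.sum_nonneg fun x _ => mul_nonneg ((hL V G c C d hG o k).1 x) (hW x)
  have hel0 : ∀ k, 0 ≤ ∑ a ∈ S, hel G o k a := by
    intro k
    apply Finset.sum_nonneg
    intro a _
    unfold hel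
    exact Finset.sum_nonneg fun _ _ => sq_nonneg _
  have step : ∀ k, k + 2 ≤ t → (ex G o (k + 2) f - ex G o k f) ^ 2 ≤
      (∑ a ∈ S, hel G o k a) * (2 * (ex G o k W + 2 * ex G o (k + 1) W + ex G o (k + 2) W)) := by
    intro k hk
    have hA : ∀ g, ex G o (k + 2) g = ∑ p ∈ prs G S, dn G o (k + 1) p.2 * g p.1 := by
      intro g
      rw [exA hL G hG o (k + 1) S (hS1 (k + 1 + 1) (by omega)) g,
        ← prs_symm G S (fun y x => dn G o (k + 1) y * g x)]
    have hB : ∀ g, ex G o (k + 1) g = ∑ p ∈ prs G S, dn G o k p.1 * g p.2 :=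
      fun g => exA hL G hG o k S (hS1 (k + 1) (by omega)) g
    have hC : ∀ g, ex G o (k + 1) g = ∑ p ∈ prs G S, dn G o (k + 1) p.2 * g p.2 := by
      intro g
      rw [exC hL G hG o (k + 1) S (hS1 (k + 1 + 1) (by omega)) g,
        ← prs_symm G S (fun y _ => dn G o (k + 1) y * g y)]
    have hD : ∀ g, ex G o k g = ∑ p ∈ prs G S, dn G o k p.1 * g p.1 :=
      fun g => exC hL G hG o k S (hS1 (k + 1) (by omega)) g
    have e1 : ex G o (k + 2) f - ex G o k f =
        ∑ p ∈ prs G S, (dn G o (k + 1) p.2 - dn G o k p.1) * (f p.1 - f p.2) := by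
      have : ∑ p ∈ prs G S, (dn G o (k + 1) p.2 - dn G o k p.1) * (f p.1 - f p.2) =
          ∑ p ∈ prs G S, dn G o (k + 1) p.2 * f p.1 - ∑ p ∈ prs G S, dn G o (k + 1) p.2 * f p.2 -
          (∑ p ∈ prs G S, dn G o k p.1 * f p.1 - ∑ p ∈ prs G S, dn G o k p.1 * f p.2) := by
        rw [← Finset.sum_sub_distrib, ← Finset.sum_sub_distrib, ← Finset.sum_sub_distrib]
        apply Finset.sum_congr rfl
        intro p _
        ring
      rw [this, ← hA, ← hB, ← hC, ← hD]
      ring
    rw [e1]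
    have e2 : (∑ p ∈ prs G S, (dn G o (k + 1) p.2 - dn G o k p.1) * (f p.1 - f p.2)) ^ 2 ≤
        (∑ p ∈ prs G S, (√(dn G o k p.1) - √(dn G o (k + 1) p.2)) ^ 2) *
        ∑ p ∈ prs G S, (√(dn G o k p.1) + √(dn G o (k + 1) p.2)) ^ 2 * (f p.1 - f p.2) ^ 2 := by
      apply Finset.sum_sq_le_sum_mul_sum_of_sq_le_mul
      · intro p _
        exact sq_nonneg _
      · intro p _
        positivity
      · intro p _
        apply le_of_eq
        have h1 := Real.sq_sqrt (dn0 k p.1)
        have h2 := Real.sq_sqrt (dn0 (k + 1) p.2)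
        have h3 : dn G o (k + 1) p.2 - dn G o k p.1 =
            -((√(dn G o k p.1) - √(dn G o (k + 1) p.2)) *
              (√(dn G o k p.1) + √(dn G o (k + 1) p.2))) := by
          nlinarith [h1, h2]
        rw [h3]
        ring
    refine e2.trans ?_
    have e3 : ∑ p ∈ prs G S, (√(dn G o k p.1) - √(dn G o (k + 1) p.2)) ^ 2 ≤
        ∑ a ∈ S, hel G o k a := by
      unfold prs
      rw [Finset.sum_filter, Finset.sum_product]
      apply Finset.sum_le_sum
      intro y _
      simp only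
      rw [← Finset.sum_filter]
      unfold hel
      apply Finset.sum_le_sum_of_subset_of_nonneg
      · intro x hx
        rw [Finset.mem_filter] at hx
        rw [SimpleGraph.mem_neighborFinset]
        exact hx.2
      · intro x _ _
        exact sq_nonneg _
    have e4 : ∑ p ∈ prs G S, (√(dn G o k p.1) + √(dn G o (k + 1) p.2)) ^ 2 * (f p.1 - f p.2) ^ 2 ≤
        2 * (ex G o k W + 2 * ex G o (k + 1) W + ex G o (k + 2) W) := by
      have : 2 * (ex G o k W + 2 * ex G o (k + 1) W + ex G o (k + 2) W) =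
          ∑ p ∈ prs G S, 2 * (dn G o k p.1 * W p.1 + dn G o k p.1 * W p.2 +
            (dn G o (k + 1) p.2 * W p.1 + dn G o (k + 1) p.2 * W p.2)) := by
        rw [← Finset.mul_sum, Finset.sum_add_distrib, Finset.sum_add_distrib,
          Finset.sum_add_distrib, ← hA, ← hB, ← hC, ← hD]
        ring
      rw [this]
      apply Finset.sum_le_sum
      intro p hp
      unfold prs at hp
      rw [Finset.mem_filter] at hp
      have h1 := Real.sq_sqrt (dn0 k p.1)
      have h2 := Real.sq_sqrt (dn0 (k + 1) p.2)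
      have h3 : (√(dn G o k p.1) + √(dn G o (k + 1) p.2)) ^ 2 ≤
          2 * (dn G o k p.1 + dn G o (k + 1) p.2) := by
        nlinarith [sq_nonneg (√(dn G o k p.1) - √(dn G o (k + 1) p.2))]
      have h4 := hfW p.1 p.2 hp.2
      have h5 : (√(dn G o k p.1) + √(dn G o (k + 1) p.2)) ^ 2 * (f p.1 - f p.2) ^ 2 ≤
          2 * (dn G o k p.1 + dn G o (k + 1) p.2) * (W p.1 + W p.2) :=
        mul_le_mul h3 h4 (sq_nonneg _) (by have := dn0 k p.1; have := dn0 (k + 1) p.2; linarith)
      linarith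
    exact mul_le_mul e3 e4 (Finset.sum_nonneg fun p _ => by positivity) (hel0 k)
  obtain ⟨r, n, hr, hn⟩ : ∃ r n, r = t % 2 ∧ n = t / 2 := ⟨_, _, rfl, rfl⟩
  have htn : t = r + 2 * n := by omega
  have tel : ∑ j ∈ range n, (ex G o (r + 2 * j + 2) f - ex G o (r + 2 * j) f) =
      ex G o t f - ex G o r f := by
    have := Finset.sum_range_sub (fun j => ex G o (r + 2 * j) f) n
    simp only [mul_zero, add_zero] at this
    rw [htn, ← this]
    apply Finset.sum_congr rfl
    intro j _
    have : r + 2 * (j + 1) = r + 2 * j + 2 := by ring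
    rw [this]
  have cs : (∑ j ∈ range n, (ex G o (r + 2 * j + 2) f - ex G o (r + 2 * j) f)) ^ 2 ≤
      (∑ j ∈ range n, ∑ a ∈ S, hel G o (r + 2 * j) a) *
      ∑ j ∈ range n, (2 * (ex G o (r + 2 * j) W + 2 * ex G o (r + 2 * j + 1) W +
        ex G o (r + 2 * j + 2) W)) := by
    apply Finset.sum_sq_le_sum_mul_sum_of_sq_le_mul
    · intro j _
      exact hel0 _
    · intro j _
      have := exW (r + 2 * j)
      have := exW (r + 2 * j + 1)
      have := exW (r + 2 * j + 2)
      positivity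
    · intro j hj
      rw [Finset.mem_range] at hj
      exact step (r + 2 * j) (by omega)
  have b1 : ∑ j ∈ range n, ∑ a ∈ S, hel G o (r + 2 * j) a ≤ ent G o t := by
    refine (par2 (fun k => ∑ a ∈ S, hel G o k a) hel0 r n).trans ?_
    rw [← htn]
    exact hT hL hE V G c C d hG o t S
  have b2 : ∑ j ∈ range n, (2 * (ex G o (r + 2 * j) W + 2 * ex G o (r + 2 * j + 1) W +
        ex G o (r + 2 * j + 2) W)) ≤ 4 * ∑ k ∈ range (t + 1), ex G o k W := by
    have := par (fun k => ex G o k W) exW r n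
    rw [← htn] at this
    rw [← Finset.mul_sum]
    have := exW t
    linarith
  have b3 : 0 ≤ ∑ k ∈ range (t + 1), ex G o k W := Finset.sum_nonneg fun k _ => exW k
  have b4 : 0 ≤ ∑ j ∈ range n, ∑ a ∈ S, hel G o (r + 2 * j) a :=
    Finset.sum_nonneg fun j _ => hel0 _
  have b5 : 0 ≤ ∑ j ∈ range n, (2 * (ex G o (r + 2 * j) W + 2 * ex G o (r + 2 * j + 1) W +
        ex G o (r + 2 * j + 2) W)) := by
    apply Finset.sum_nonneg
    intro j _
    have := exW (r + 2 * j)
    have := exW (r + 2 * j + 1)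
    have := exW (r + 2 * j + 2)
    positivity
  have fin : (ex G o t f - ex G o r f) ^ 2 ≤ 8 * ent G o t * ∑ k ∈ range (t + 1), ex G o k W := by
    rw [← tel]
    refine cs.trans ?_
    refine (mul_le_mul b1 b2 b5 (b4.trans b1)).trans ?_
    have : 0 ≤ ent G o t * ∑ k ∈ range (t + 1), ex G o k W := mul_nonneg (b4.trans b1) b3
    linarith
  have := Real.le_sqrt_of_sq_le fin
  rw [← hr]
  linarith

end Pool.Agent.Q293.SD.DisJ
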