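import Pool.Agent.Q293.SD.Stm

set_option autoImplicit false

namespace Pool.Agent.Q293.SD.EnaJ

open Pool.Agent.Q293.SD
open Finset

theorem scal (a b : ℝ) (ha : 0 ≤ a) (hb : 0 ≤ b) (hab : b = 0 → a = 0) :
    a - b + (√a - √b) ^ 2 ≤ a * Real.log a - a * Real.log b := by
  rcases ha.eq_or_lt with h | h
  · subst h
    simp only [Real.sqrt_zero, zero_sub, zero_mul, sub_zero]
    rw [neg_sq, Real.sq_sqrt hb]
    linarith
  · have hb' : 0 < b := by
      rcases hb.eq_or_lt with h' | h'
      · exact absurd (hab h'.symm) h.ne'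
      · exact h'
    obtain ⟨x, hx, hxa⟩ : ∃ x, 0 < x ∧ √a = x := ⟨√a, Real.sqrt_pos.mpr h, rfl⟩
    obtain ⟨y, hy, hyb⟩ : ∃ y, 0 < y ∧ √b = y := ⟨√b, Real.sqrt_pos.mpr hb', rfl⟩
    have h1 : a = x ^ 2 := by rw [← hxa, Real.sq_sqrt ha]
    have h2 : b = y ^ 2 := by rw [← hyb, Real.sq_sqrt hb]
    rw [hxa, hyb, h1, h2, Real.log_pow, Real.log_pow]
    have h3 : Real.log (y / x) ≤ y / x - 1 := Real.log_le_sub_one_of_pos (by positivity)
    rw [Real.log_div hy.ne' hx.ne'] at h3
    have h4 : x ^ 2 * (Real.log y - Real.log x) ≤ x ^ 2 * (y / x - 1) :=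
      mul_le_mul_of_nonneg_left h3 (by positivity)
    have h5 : x ^ 2 * (y / x - 1) = x * y - x ^ 2 := by field_simp
    push_cast
    nlinarith [h4, h5]

theorem exch {V : Type} (G : SimpleGraph V) [G.LocallyFinite] (S T : Finset V) (g : V → ℝ)
    (hg : ∀ x, 0 ≤ g x) (hT : ∀ x, g x ≠ 0 → x ∈ T) :
    ∑ y ∈ S, ∑ x ∈ G.neighborFinset y, g x ≤ ∑ x ∈ T, (G.degree x : ℝ) * g x := by
  classical
  have h1 : ∀ y, ∑ x ∈ G.neighborFinset y, g x = ∑ x ∈ T, if G.Adj y x then g x else 0 := by
    intro y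
    rw [← Finset.sum_filter]
    apply Finset.sum_congr_of_eq_on_inter
    · intro x hx hx2
      by_contra h
      apply hx2
      rw [Finset.mem_filter]
      exact ⟨hT x h, (SimpleGraph.mem_neighborFinset G y x).mp hx⟩
    · intro x hx hx2
      rw [Finset.mem_filter] at hx
      exact absurd ((SimpleGraph.mem_neighborFinset G y x).mpr hx.2) hx2
    · intro x _ _
      rfl
  simp_rw [h1]
  rw [Finset.sum_comm]
  apply Finset.sum_le_sum
  intro x _
  rw [← Finset.sum_filter, Finset.sum_const, nsmul_eq_mul]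
  apply mul_le_mul_of_nonneg_right _ (hg x)
  rw [← SimpleGraph.card_neighborFinset_eq_degree]
  exact_mod_cast Finset.card_le_card (by
    intro y hy
    rw [Finset.mem_filter] at hy
    rw [SimpleGraph.mem_neighborFinset]
    exact hy.2.symm)

theorem hel_nonneg {V : Type} (G : SimpleGraph V) [G.LocallyFinite] (o : V) (k : ℕ) (a : V) :
    0 ≤ hel G o k a := by
  unfold hel
  exact Finset.sum_nonneg fun _ _ => sq_nonneg _

theorem main : S_ENA := by
  intro hL V G _ c C d hG o k S
  classical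
  obtain ⟨l1, l2, l3, l4, l5⟩ := hL V G c C d hG o k
  obtain ⟨m1, m2, m3, m4, m5⟩ := hL V G c C d hG o (k + 1)
  have hdeg : ∀ x, (0 : ℝ) < G.degree x := fun x => by exact_mod_cast hG.deg0 x
  have dn0 : ∀ j, (∀ x, 0 ≤ law G o j x) → ∀ x, 0 ≤ dn G o j x := fun j hj x =>
    div_nonneg (hj x) (hdeg x).le
  obtain ⟨B, hB⟩ : ∃ B : Finset V, B = S ∪ bal G o k ∪ bal G o (k + 1) := ⟨_, rfl⟩
  have hB1 : S ⊆ B := by
    rw [hB, Finset.union_assoc]
    exact Finset.subset_union_left
  have hB2 : bal G o k ⊆ B := by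
    rw [hB]
    exact (Finset.subset_union_right).trans Finset.subset_union_left
  have hB3 : bal G o (k + 1) ⊆ B := by
    rw [hB]
    exact Finset.subset_union_right
  have hS : ∑ a ∈ S, hel G o k a ≤ ∑ a ∈ B, hel G o k a :=
    Finset.sum_le_sum_of_subset_of_nonneg hB1 fun a _ _ => hel_nonneg G o k a
  refine hS.trans ?_
  rw [l4 B _ hB2, l5 B _ hB2]
  have e1 : ∀ y, law G o k y * Real.log (dn G o k y) =
      ∑ x ∈ G.neighborFinset y, dn G o k y * Real.log (dn G o k y) := by
    intro y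
    rw [Finset.sum_const, SimpleGraph.card_neighborFinset_eq_degree, nsmul_eq_mul, ← mul_assoc]
    congr 1
    unfold dn
    have := hdeg y
    field_simp
  have e2 : ∀ y, dn G o k y * ∑ x ∈ G.neighborFinset y, Real.log (dn G o (k + 1) x) =
      ∑ x ∈ G.neighborFinset y, dn G o k y * Real.log (dn G o (k + 1) x) := by
    intro y
    rw [Finset.mul_sum]
  simp_rw [e1, e2]
  rw [← Finset.sum_sub_distrib]
  simp_rw [← Finset.sum_sub_distrib]
  have key : ∀ y, ∑ x ∈ G.neighborFinset y, (dn G o k y - dn G o (k + 1) x) + hel G o k y ≤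
      ∑ x ∈ G.neighborFinset y, (dn G o k y * Real.log (dn G o k y) -
        dn G o k y * Real.log (dn G o (k + 1) x)) := by
    intro y
    unfold hel
    rw [← Finset.sum_add_distrib]
    apply Finset.sum_le_sum
    intro x hx
    apply scal _ _ (dn0 k l1 y) (dn0 (k + 1) m1 x)
    intro h
    rw [SimpleGraph.mem_neighborFinset] at hx
    have h1 : law G o (k + 1) x = 0 := by
      unfold dn at h
      rcases div_eq_zero_iff.mp h with h | h
      · exact h
      · exact absurd h (hdeg x).ne'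
    have h2 : law G o (k + 1) x = ∑ y ∈ G.neighborFinset x, dn G o k y := by
      simp only [law, dn]
    rw [h2, Finset.sum_eq_zero_iff_of_nonneg (fun i _ => dn0 k l1 i)] at h1
    exact h1 y ((SimpleGraph.mem_neighborFinset G x y).mpr hx.symm)
  have s1 : ∑ y ∈ B, ∑ x ∈ G.neighborFinset y, dn G o k y = 1 := by
    rw [← l3 B hB2]
    apply Finset.sum_congr rfl
    intro y _
    rw [Finset.sum_const, SimpleGraph.card_neighborFinset_eq_degree, nsmul_eq_mul]
    unfold dn
    have := hdeg y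
    field_simp
  have s2 : ∑ y ∈ B, ∑ x ∈ G.neighborFinset y, dn G o (k + 1) x ≤ 1 := by
    refine (exch G B B (dn G o (k + 1)) (dn0 (k + 1) m1) ?_).trans ?_
    · intro x hx
      apply hB3
      rw [hG.mem]
      apply m2
      intro h
      apply hx
      unfold dn
      rw [h, zero_div]
    · rw [← m3 B hB3]
      apply le_of_eq
      apply Finset.sum_congr rfl
      intro x _
      unfold dn
      have := hdeg x
      field_simp
  have s3 : ∑ y ∈ B, (∑ x ∈ G.neighborFinset y, (dn G o k y - dn G o (k + 1) x) + hel G o k y) ≤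
      ∑ y ∈ B, ∑ x ∈ G.neighborFinset y, (dn G o k y * Real.log (dn G o k y) -
        dn G o k y * Real.log (dn G o (k + 1) x)) := Finset.sum_le_sum fun y _ => key y
  refine le_trans ?_ s3
  rw [Finset.sum_add_distrib]
  simp_rw [Finset.sum_sub_distrib]
  rw [s1]
  linarith

end Pool.Agent.Q293.SD.EnaJ
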