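import Pool.Agent.Q293.SD.Stm

/-!
Job SD-ENG: the energy step.
-/

set_option autoImplicit false

namespace Pool.Agent.Q293.SD.EngJ

open Pool.Agent.Q293.SD Finset

theorem sumBU {α β : Type} [DecidableEq α] [DecidableEq β] (g : β → ℝ) (hg : ∀ b, 0 ≤ g b)
    (F : Finset α) (t : α → Finset β) :
    ∑ y ∈ F.biUnion t, g y ≤ ∑ z ∈ F, ∑ y ∈ t z, g y := by
  induction F using Finset.induction_on with
  | empty => simp
  | insert a F ha ih =>
    rw [Finset.biUnion_insert, Finset.sum_insert ha]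
    have h1 := Finset.sum_union_inter (s₁ := t a) (s₂ := F.biUnion t) (f := g)
    have h2 : 0 ≤ ∑ y ∈ t a ∩ F.biUnion t, g y := Finset.sum_nonneg (fun b _ => hg b)
    linarith

theorem main : S_ENG := by
  classical
  intro V G _ c C d hG w r Z M X η U hr hM hη hη1 hU hw hen hfew x R hR
  have hd := hG.d2
  have hrpos : (0 : ℝ) < r := by exact_mod_cast hr
  have hMpos : (0 : ℝ) < M := by exact_mod_cast hM
  have hrR : r ≤ R := le_trans (Nat.le_mul_of_pos_left r hM) hR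
  have hRpos : (0 : ℝ) < R := by exact_mod_cast (hr.trans hrR)
  obtain ⟨F, hFc, hF⟩ := hfew x R hR
  -- pointwise bound
  have hpt : ∀ y, nw G w X r η y ^ 2 ≤ (1 - η) ^ 2 * w y ^ 2 +
      3 * (if ∃ q ∈ X, G.dist q y ≤ 2 * r then w y ^ 2 else 0) := by
    intro y
    unfold nw
    have hw2 : 0 ≤ w y ^ 2 := sq_nonneg _
    split_ifs with h
    · have : (w y * (1 - η + 1)) ^ 2 = (1 - η) ^ 2 * w y ^ 2 + (3 - 2 * η) * w y ^ 2 := by ring
      rw [this]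
      nlinarith [mul_nonneg hη hw2]
    · have : (w y * (1 - η + 0)) ^ 2 = (1 - η) ^ 2 * w y ^ 2 := by ring
      rw [this]
      linarith
  have h1 : ∑ y ∈ bal G x R, nw G w X r η y ^ 2 ≤ (1 - η) ^ 2 * ∑ y ∈ bal G x R, w y ^ 2 +
      3 * ∑ y ∈ bal G x R, (if ∃ q ∈ X, G.dist q y ≤ 2 * r then w y ^ 2 else 0) := by
    rw [Finset.mul_sum, Finset.mul_sum, ← Finset.sum_add_distrib]
    exact Finset.sum_le_sum (fun y _ => hpt y)
  -- the collar
  have h2 : ∑ y ∈ bal G x R, (if ∃ q ∈ X, G.dist q y ≤ 2 * r then w y ^ 2 else 0) ≤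
      ∑ z ∈ F, ∑ y ∈ bal G z (3 * r), w y ^ 2 := by
    rw [← Finset.sum_filter]
    have hsub : (bal G x R).filter (fun y => ∃ q ∈ X, G.dist q y ≤ 2 * r) ⊆
        F.biUnion (fun z => bal G z (3 * r)) := by
      intro y hy
      rw [Finset.mem_filter, hG.mem] at hy
      obtain ⟨z, hz, hzy⟩ := hF y hy.1 hy.2
      rw [Finset.mem_biUnion]
      exact ⟨z, hz, (hG.mem _ _ _).2 hzy⟩
    calc ∑ y ∈ (bal G x R).filter (fun y => ∃ q ∈ X, G.dist q y ≤ 2 * r), w y ^ 2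
        ≤ ∑ y ∈ F.biUnion (fun z => bal G z (3 * r)), w y ^ 2 :=
          Finset.sum_le_sum_of_subset_of_nonneg hsub (fun _ _ _ => sq_nonneg _)
      _ ≤ ∑ z ∈ F, ∑ y ∈ bal G z (3 * r), w y ^ 2 :=
          sumBU _ (fun _ => sq_nonneg _) F _
  have h3 : ∑ z ∈ F, ∑ y ∈ bal G z (3 * r), w y ^ 2 ≤
      (F.card : ℝ) * (U * (3 * (r : ℝ)) ^ d) := by
    calc ∑ z ∈ F, ∑ y ∈ bal G z (3 * r), w y ^ 2 ≤ ∑ _z ∈ F, U * (3 * (r : ℝ)) ^ d := by
          apply Finset.sum_le_sum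
          intro z _
          have := hen z (3 * r) (by omega)
          push_cast at this
          exact this
      _ = (F.card : ℝ) * (U * (3 * (r : ℝ)) ^ d) := by
          rw [Finset.sum_const, nsmul_eq_mul]
  have h4 : (F.card : ℝ) * (U * (3 * (r : ℝ)) ^ d) ≤
      U * (Z * M * (3 / (M : ℝ)) ^ d) * (R : ℝ) ^ d := by
    have hUr : 0 ≤ U * (3 * (r : ℝ)) ^ d := by positivity
    calc (F.card : ℝ) * (U * (3 * (r : ℝ)) ^ d)
        ≤ (Z * M * ((R : ℝ) / (M * r)) ^ d) * (U * (3 * (r : ℝ)) ^ d) :=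
          mul_le_mul_of_nonneg_right hFc hUr
      _ = U * (Z * M) * ((((R : ℝ) / (M * r))) ^ d * (3 * (r : ℝ)) ^ d) := by ring
      _ = U * (Z * M) * ((3 / (M : ℝ)) ^ d * (R : ℝ) ^ d) := by
          rw [← Real.mul_rpow (by positivity) (by positivity),
            ← Real.mul_rpow (by positivity) (by positivity)]
          congr 2
          field_simp
      _ = U * (Z * M * (3 / (M : ℝ)) ^ d) * (R : ℝ) ^ d := by ring
  have h5 := hen x R hrR
  have h6 : (1 - η) ^ 2 * ∑ y ∈ bal G x R, w y ^ 2 ≤ (1 - η) ^ 2 * (U * (R : ℝ) ^ d) :=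
    mul_le_mul_of_nonneg_left h5 (sq_nonneg _)
  calc ∑ y ∈ bal G x R, nw G w X r η y ^ 2 ≤ _ := h1
    _ ≤ (1 - η) ^ 2 * (U * (R : ℝ) ^ d) +
        3 * (U * (Z * M * (3 / (M : ℝ)) ^ d) * (R : ℝ) ^ d) := by linarith
    _ = U * ((1 - η) ^ 2 + 3 * (Z * M * (3 / (M : ℝ)) ^ d)) * (R : ℝ) ^ d := by ring

end Pool.Agent.Q293.SD.EngJ
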