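import Pool.Agent.Q293.SD.Stm

set_option autoImplicit false

namespace Pool.Agent.Q293.SD.EntJ

open Pool.Agent.Q293.SD
open Finset

theorem jens (p D m : ℝ) (hp : 0 ≤ p) (hD : 0 < D) (hm : 0 < m) :
    -(p * Real.log (p / D)) ≤ D / m - p + p * Real.log m := by
  rcases hp.eq_or_lt with h | h
  · subst h
    simp only [zero_mul, neg_zero, sub_zero, add_zero]
    positivity
  · have h3 : Real.log (D / (p * m)) ≤ D / (p * m) - 1 := Real.log_le_sub_one_of_pos (by positivity)
    rw [Real.log_div hD.ne' (by positivity), Real.log_mul h.ne' hm.ne'] at h3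
    rw [Real.log_div h.ne' hD.ne']
    have h4 : p * (Real.log D - (Real.log p + Real.log m)) ≤ p * (D / (p * m) - 1) :=
      mul_le_mul_of_nonneg_left h3 h.le
    have h5 : p * (D / (p * m) - 1) = D / m - p := by field_simp
    nlinarith [h4, h5]

theorem hel_nonneg {V : Type} (G : SimpleGraph V) [G.LocallyFinite] (o : V) (k : ℕ) (a : V) :
    0 ≤ hel G o k a := by
  unfold hel
  exact Finset.sum_nonneg fun _ _ => sq_nonneg _

theorem main : S_ENT := by
  intro hL hE V G _ c C d hG o T S
  classical
  have hdeg : ∀ x, (0 : ℝ) < G.degree x := fun x => by exact_mod_cast hG.deg0 x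
  have h1 : ∀ n : ℕ, ∑ k ∈ range n, ∑ a ∈ S, hel G o k a ≤
      ex G o 0 (fun x => Real.log (dn G o 0 x)) - ex G o n (fun x => Real.log (dn G o n x)) := by
    intro n
    induction n with
    | zero => simp
    | succ n ih =>
      rw [Finset.sum_range_succ]
      have := hE hL V G c C d hG o n S
      linarith
  refine (h1 T).trans ?_
  obtain ⟨l1, l2, l3, l4, l5⟩ := hL V G c C d hG o 0
  obtain ⟨m1, m2, m3, m4, m5⟩ := hL V G c C d hG o T
  have h2 : ex G o 0 (fun x => Real.log (dn G o 0 x)) ≤ 0 := by
    rw [l4 (bal G o 0) _ (Finset.Subset.refl _)]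
    apply Finset.sum_nonpos
    intro x hx
    rw [hG.mem] at hx
    have : x = o := by
      have h3 : G.dist o x = 0 := by omega
      exact ((hG.conn.dist_eq_zero_iff).mp h3).symm
    subst this
    have h4 : law G x 0 x = 1 := by
      simp [law]
    unfold dn
    rw [h4, one_mul]
    apply Real.log_nonpos
    · have := hdeg x
      positivity
    · rw [div_le_one (hdeg x)]
      exact_mod_cast hG.deg0 x
  have hne : (bal G o T).Nonempty := ⟨o, (hG.mem o T o).mpr (by simp)⟩
  have hm : 0 < ∑ x ∈ bal G o T, (G.degree x : ℝ) := Finset.sum_pos (fun x _ => hdeg x) hne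
  have h3 : -ex G o T (fun x => Real.log (dn G o T x)) ≤ ent G o T := by
    rw [m4 (bal G o T) _ (Finset.Subset.refl _), ← Finset.sum_neg_distrib]
    unfold ent dn
    refine (Finset.sum_le_sum fun x _ => jens (law G o T x) (G.degree x)
      (∑ x ∈ bal G o T, (G.degree x : ℝ)) (m1 x) (hdeg x) hm).trans ?_
    rw [Finset.sum_add_distrib, Finset.sum_sub_distrib, ← Finset.sum_div, ← Finset.sum_mul,
      m3 (bal G o T) (Finset.Subset.refl _), div_self hm.ne']
    linarith
  linarith

end Pool.Agent.Q293.SD.EntJ
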