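import Pool.Agent.Q293.SD.Stm

/-!
# Project SD (helper293), job FIN: the walk is subdiffusive (by helper224)
-/

set_option autoImplicit false
set_option linter.all false

namespace Pool.Agent.Q293.SD.FinJ

open Pool.Agent.Q293.SD Finset

variable {V : Type} {G : SimpleGraph V} [G.LocallyFinite] {c C d : ℝ}

theorem mono (hL : S_LAW) (hG : Gr G c C d) (o : V) (k : ℕ) {g g' : V → ℝ} {b : ℝ}
    (h : ∀ x, G.dist o x ≤ k → g x ≤ g' x + b) : ex G o k g ≤ ex G o k g' + b := by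
  obtain ⟨h1, h2, h3, h4, h5⟩ := hL V G c C d hG o k
  rw [h4 (bal G o k) g (Subset.refl _), h4 (bal G o k) g' (Subset.refl _)]
  have e : b = ∑ x ∈ bal G o k, law G o k x * b := by
    rw [← sum_mul, h3 _ (Subset.refl _), one_mul]
  calc ∑ x ∈ bal G o k, law G o k x * g x ≤ ∑ x ∈ bal G o k, (law G o k x * g' x + law G o k x * b) := by
        refine sum_le_sum fun x hx => ?_
        rw [← mul_add]
        exact mul_le_mul_of_nonneg_left (h x ((hG.mem o k x).1 hx)) (h1 x)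
    _ = ∑ x ∈ bal G o k, law G o k x * g' x + b := by
        rw [sum_add_distrib, ← e]

theorem ex_zero (o : V) (k : ℕ) : ex G o k (fun _ => (0 : ℝ)) = 0 := by
  unfold ex
  simp

theorem ent_le (hG : Gr G c C d) (o : V) (T : ℕ) (hT : 1 ≤ T) : ent G o T ≤ ell C d T := by
  unfold ent ell
  have hT0 : (0 : ℝ) < T := by exact_mod_cast hT
  have hC0 : 0 < C := by linarith [hG.C1]
  have hpos : 0 < ∑ x ∈ bal G o T, (G.degree x : ℝ) := by
    have ho : o ∈ bal G o T := (hG.mem o T o).2 (by rw [SimpleGraph.dist_self]; exact Nat.zero_le _)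
    refine lt_of_lt_of_le ?_ (single_le_sum (f := fun x => (G.degree x : ℝ))
      (fun x _ => Nat.cast_nonneg _) ho)
    exact_mod_cast hG.deg0 o
  have hle : ∑ x ∈ bal G o T, (G.degree x : ℝ) ≤ C * (C * (T : ℝ) ^ d) := by
    calc ∑ x ∈ bal G o T, (G.degree x : ℝ) ≤ ∑ x ∈ bal G o T, C := sum_le_sum fun x _ => hG.degC x
      _ = C * (bal G o T).card := by rw [sum_const, nsmul_eq_mul, mul_comm]
      _ ≤ C * (C * (T : ℝ) ^ d) := mul_le_mul_of_nonneg_left (hG.up o T hT) hC0.le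
  refine (Real.log_le_log hpos hle).trans (le_of_eq ?_)
  rw [Real.log_mul hC0.ne' (by positivity), Real.log_mul hC0.ne' (by positivity),
    Real.log_rpow hT0]
  ring

theorem ent_nonneg (hG : Gr G c C d) (o : V) (T : ℕ) : 0 ≤ ent G o T := by
  unfold ent
  apply Real.log_nonneg
  have ho : o ∈ bal G o T := (hG.mem o T o).2 (by rw [SimpleGraph.dist_self]; exact Nat.zero_le _)
  refine le_trans ?_ (single_le_sum (f := fun x => (G.degree x : ℝ))
    (fun x _ => Nat.cast_nonneg _) ho)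
  exact_mod_cast hG.deg0 o

/-- **JOB FIN** -/
theorem main : S_FIN := by
  intro hLAW hOCC hDIS hWDF hANA c C d θ M hc hC hd hθ hθ1 hM
  obtain ⟨α, K, hα, hK⟩ := hANA c C d θ M hc hC hd hθ hθ1 hM
  refine ⟨α, K, hα, ?_⟩
  intro V G _ hG hWF o t ht
  obtain ⟨k, hk⟩ := hK t ht
  refine le_trans ?_ hk
  obtain ⟨w, w0, w1, w2, w3⟩ := hWF k
  obtain ⟨f, f0, f1, f2⟩ := hWDF V G hG.conn w ((M : ℝ) ^ k) o w0 w2
  have hr : 1 ≤ M ^ k := Nat.one_le_pow _ _ (by omega)
  have hcast : ((M ^ k : ℕ) : ℝ) = (M : ℝ) ^ k := by push_cast; rfl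
  obtain ⟨s, hs⟩ : ∃ s : ℕ, s = M ^ k := ⟨_, rfl⟩
  have hsr : (s : ℝ) = (M : ℝ) ^ k := by rw [hs]; exact hcast
  rw [← hs] at hr w3
  rw [← hsr] at w2 f1 ⊢
  have hs0 : (0 : ℝ) < s := by exact_mod_cast hr
  obtain ⟨W, hW⟩ : ∃ W : V → ℝ, W = fun v => w v ^ 2 := ⟨_, rfl⟩
  have hW0 : ∀ x, 0 ≤ W x := fun x => by rw [hW]; positivity
  have hW1 : ∀ x, W x ≤ 4 ^ k := fun x => by
    rw [hW]
    have : (4 : ℝ) ^ k = (2 ^ k) ^ 2 := by
      rw [← pow_mul, mul_comm, pow_mul]; norm_num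
    rw [this]
    exact pow_le_pow_left₀ (w0 x) (w1 x) 2
  have hWf : ∀ a b, G.Adj a b → (f a - f b) ^ 2 ≤ W a + W b := by
    intro a b hab
    have h1 := f2 a b hab
    have h2 := f2 b a hab.symm
    have ha := w0 a
    have hb := w0 b
    rw [hW]
    show (f a - f b) ^ 2 ≤ w a ^ 2 + w b ^ 2
    rcases le_total (f a) (f b) with h | h
    · have : (f a - f b) ^ 2 ≤ w a ^ 2 := by
        rw [← neg_sub, neg_sq]
        exact pow_le_pow_left₀ (by linarith) (by linarith) 2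
      nlinarith
    · have : (f a - f b) ^ 2 ≤ w b ^ 2 := pow_le_pow_left₀ (by linarith) (by linarith) 2
      nlinarith
  -- displacement
  have h1 := hDIS V G c C d hG o f W hW0 hWf t
  have h2 : ex G o t (fun x => (G.dist o x : ℝ)) ≤ ex G o t f + s :=
    mono hLAW hG o t fun x _ => by linarith [f1 x]
  have h2k : (0 : ℝ) < 2 ^ k := by positivity
  have h3 : ex G o (t % 2) f ≤ 2 ^ k := by
    have h4 : ex G o (t % 2) f ≤ ex G o (t % 2) (fun _ => (0 : ℝ)) + 2 ^ k := by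
      refine mono hLAW hG o (t % 2) fun x hx => ?_
      rw [zero_add]
      have h5 : G.dist o x ≤ 1 := hx.trans (by omega)
      rcases Nat.le_one_iff_eq_zero_or_eq_one.1 h5 with h6 | h6
      · have h7 : o = x := (hG.conn.dist_eq_zero_iff).1 h6
        rw [← h7]
        linarith
      · have h7 : G.Adj o x := SimpleGraph.dist_eq_one_iff_adj.1 h6
        have h8 := f2 o x h7
        have h9 := w1 o
        linarith
    rw [ex_zero, zero_add] at h4
    exact h4
  -- occupation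
  have h4 := hOCC V G c C d hG o s (t + 1) W (4 ^ k) (C * θ ^ k * (s : ℝ) ^ d) hr hW0 hW1
    (fun z => by rw [hW]; exact w3 z s le_rfl)
  have hent1 := ent_le hG o t ht
  have hent2 := ent_le hG o (t + 1 + s) (by omega)
  have hent0 := ent_nonneg hG o t
  push_cast at h4 hent2
  have hS0 : 0 ≤ ∑ k' ∈ range (t + 1), ex G o k' W := by
    refine sum_nonneg fun k' _ => ?_
    unfold ex
    exact tsum_nonneg fun x => mul_nonneg ((hLAW V G c C d hG o k').1 x) (hW0 x)
  have hsd : 0 < (s : ℝ) ^ d := Real.rpow_pos_of_pos hs0 _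
  have hC0 : 0 < C := by linarith
  have h5 : ∑ k' ∈ range (t + 1), ex G o k' W ≤
      C * (4 * (C * θ ^ k * (s : ℝ) ^ d) / (c * (s : ℝ) ^ d) * (t + 1 + s) +
        4 * 4 ^ k * s * (C * (s : ℝ) ^ d) * ell C d (t + 1 + s)) := by
    refine h4.trans (mul_le_mul_of_nonneg_left ?_ hC0.le)
    exact add_le_add le_rfl (mul_le_mul_of_nonneg_left hent2 (by positivity))
  have h6 : √(8 * ent G o t * ∑ k' ∈ range (t + 1), ex G o k' W) ≤
      √(8 * ell C d t * (C * (4 * (C * θ ^ k * (s : ℝ) ^ d) / (c * (s : ℝ) ^ d) * (t + 1 + s) +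
        4 * 4 ^ k * s * (C * (s : ℝ) ^ d) * ell C d (t + 1 + s)))) := by
    apply Real.sqrt_le_sqrt
    exact mul_le_mul (mul_le_mul_of_nonneg_left hent1 (by norm_num)) h5 hS0 (by
      have := hent0.trans hent1
      positivity)
  linarith

end Pool.Agent.Q293.SD.FinJ
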