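import Pool.Agent.Q293.SD.Stm

/-!
Job SD-GEO: a geodesic of length at most `M r` meets at most `Z M` cells.
-/

set_option autoImplicit false

namespace Pool.Agent.Q293.SD.GeoJ

open Pool.Agent.Q293.SD Finset

theorem distGV {V : Type} (G : SimpleGraph V) (hG : G.Connected) {z x : V} (p : G.Walk z x)
    (j n : ℕ) : G.dist (p.getVert j) (p.getVert (j + n)) ≤ n := by
  induction n with
  | zero => simp
  | succ n ih =>
    have h1 := hG.dist_triangle (u := p.getVert j) (v := p.getVert (j + n))
      (w := p.getVert (j + (n + 1)))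
    have h2 : G.dist (p.getVert (j + n)) (p.getVert (j + (n + 1))) ≤ 1 := by
      rcases Nat.lt_or_ge (j + n) p.length with h | h
      · exact (SimpleGraph.dist_eq_one_iff_adj.2 (p.adj_getVert_succ h)).le
      · rw [p.getVert_of_length_le h, p.getVert_of_length_le (by omega),
          SimpleGraph.dist_self]
        omega
    omega

theorem main : S_GEO := by
  classical
  intro hCNT c C d hc hC hd
  obtain ⟨K, hK1, hK⟩ := hCNT c C d hc hC hd
  refine ⟨2 * ⌈K * 2 ^ d⌉₊ + 1, by omega, ?_⟩
  intro V G _ hG r M Y a hr hM hVor z x hzx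
  obtain ⟨p, hp⟩ := hG.conn.exists_walk_length_eq_dist z x
  have hrpos : (0 : ℝ) < r := by exact_mod_cast hr
  refine ⟨p, ?_, (Finset.range (M + 1)).biUnion
    (fun k => (bal G (p.getVert (k * r)) r).image a), ?_, ?_⟩
  · intro u hu
    rw [SimpleGraph.Walk.mem_support_iff_exists_getVert] at hu
    obtain ⟨n, rfl, hn⟩ := hu
    have h1 := distGV G hG.conn p n (p.length - n)
    rw [Nat.add_sub_cancel' hn, p.getVert_length] at h1
    rw [SimpleGraph.dist_comm]
    omega
  · have h1 : ∀ k ∈ Finset.range (M + 1),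
        ((bal G (p.getVert (k * r)) r).image a).card ≤ ⌈K * 2 ^ d⌉₊ := by
      intro k _
      have h2 := hK V G hG r Y hr hVor.sep (p.getVert (k * r)) (2 * r) (by omega)
        ((bal G (p.getVert (k * r)) r).image a) (by
          intro y hy
          rw [Finset.mem_image] at hy
          obtain ⟨u, hu, rfl⟩ := hy
          rw [hG.mem] at hu
          refine ⟨hVor.inY u, ?_⟩
          have h3 := hG.conn.dist_triangle (u := p.getVert (k * r)) (v := u) (w := a u)
          have h4 := hVor.near u
          omega)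
      have h5 : ((2 * r : ℕ) : ℝ) / r = 2 := by
        push_cast
        field_simp
      rw [h5] at h2
      exact Nat.cast_le.1 (h2.trans (Nat.le_ceil _))
    calc ((Finset.range (M + 1)).biUnion
          (fun k => (bal G (p.getVert (k * r)) r).image a)).card
        ≤ (Finset.range (M + 1)).card * ⌈K * 2 ^ d⌉₊ := Finset.card_biUnion_le_card_mul _ _ _ h1
      _ = (M + 1) * ⌈K * 2 ^ d⌉₊ := by rw [Finset.card_range]
      _ ≤ (2 * M) * ⌈K * 2 ^ d⌉₊ := Nat.mul_le_mul_right _ (by omega)
      _ = 2 * ⌈K * 2 ^ d⌉₊ * M := by ring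
      _ ≤ (2 * ⌈K * 2 ^ d⌉₊ + 1) * M := Nat.mul_le_mul_right _ (by omega)
  · intro u hu
    rw [SimpleGraph.Walk.mem_support_iff_exists_getVert] at hu
    obtain ⟨n, rfl, hn⟩ := hu
    rw [Finset.mem_biUnion]
    have hnM : n ≤ M * r := by omega
    refine ⟨n / r, ?_, ?_⟩
    · rw [Finset.mem_range]
      have : n / r ≤ M := by
        calc n / r ≤ M * r / r := Nat.div_le_div_right hnM
          _ = M := Nat.mul_div_cancel _ hr
      omega
    · apply Finset.mem_image_of_mem
      rw [hG.mem]
      have h1 := distGV G hG.conn p (n / r * r) (n % r)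
      have h2 : n / r * r + n % r = n := Nat.div_add_mod' n r
      rw [h2] at h1
      have h3 := Nat.mod_lt n hr
      omega

end Pool.Agent.Q293.SD.GeoJ
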