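import Pool.Agent.Q293.SD.Stm

/-!
# Project SD, job HUB: a hub gives a model of the complete bipartite graph
-/

set_option autoImplicit false

namespace Pool.Agent.Q293.SD.HubJ

open Finset Pool.Agent.Q293.SD

/-- The initial piece of a walk before it meets `P`. -/
theorem before {V : Type} (Q : SimpleGraph V) (P : Finset V) :
    ∀ {z y : V} (p : Q.Walk z y), z ∉ P → y ∈ P →
    ∃ (w : V) (q : Q.Walk z w), (∀ u ∈ q.support, u ∈ p.support) ∧
      (∀ u ∈ q.support, u ∉ P) ∧ ∃ b ∈ P, Q.Adj w b := by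
  intro z y p
  induction p with
  | nil => intro h1 h2; exact absurd h2 h1
  | @cons a b c hab p ih =>
    intro h1 h2
    by_cases hb : b ∈ P
    · refine ⟨a, SimpleGraph.Walk.nil, fun u hu => ?_, fun u hu => ?_, b, hb, hab⟩
      · rw [SimpleGraph.Walk.support_nil, List.mem_singleton] at hu
        rw [hu, SimpleGraph.Walk.support_cons]
        exact List.mem_cons_self
      · rw [SimpleGraph.Walk.support_nil, List.mem_singleton] at hu
        rw [hu]; exact h1
    · obtain ⟨w, q, hq1, hq2, hq3⟩ := ih hb h2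
      refine ⟨w, SimpleGraph.Walk.cons hab q, fun u hu => ?_, fun u hu => ?_, hq3⟩
      · rw [SimpleGraph.Walk.support_cons, List.mem_cons] at hu ⊢
        rcases hu with rfl | hu
        · exact Or.inl rfl
        · exact Or.inr (hq1 u hu)
      · rw [SimpleGraph.Walk.support_cons, List.mem_cons] at hu
        rcases hu with rfl | hu
        · exact h1
        · exact hq2 u hu

theorem main : S_HUB := by
  intro hIND V Q I U ι J P z m h hh hI hU hIU hP hPd hW hJ
  classical
  -- the walks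
  have hW' : ∀ i, ∃ y, ∃ p : Q.Walk z y, ∃ T : Finset V, i ∈ J → (y ∈ P i ∧
      (∀ x ∈ p.support, x ∉ I ∧ x ∉ U) ∧ T.card ≤ m ∧ ∀ x ∈ p.support, x ∈ T) := by
    intro i
    by_cases hi : i ∈ J
    · obtain ⟨y, hy, p, hp, T, hT1, hT2⟩ := hW i hi
      exact ⟨y, p, T, fun _ => ⟨hy, hp, hT1, hT2⟩⟩
    · exact ⟨z, SimpleGraph.Walk.nil, ∅, fun h => absurd h hi⟩
  choose y p T hT using hW'
  -- remove the set which contains the hub
  set J' : Finset ι := J.filter (fun i => z ∉ P i) with hJ'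
  have hJ'c : h * (2 * m + 1) ≤ J'.card := by
    have h1 : (J.filter (fun i => z ∈ P i)).card ≤ 1 := by
      rw [Finset.card_le_one]
      intro i hi j hj
      rw [Finset.mem_filter] at hi hj
      by_contra hij
      exact (Finset.disjoint_left.1 (hPd i hi.1 j hj.1 hij)) hi.2 hj.2
    have h2 := Finset.card_filter_add_card_filter_not (s := J) (fun i => z ∈ P i)
    rw [hJ']
    omega
  have hsub : ∀ i ∈ J', i ∈ J ∧ z ∉ P i := fun i hi => by
    rw [hJ', Finset.mem_filter] at hi; exact hi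
  obtain ⟨H, hHJ, hHc, hH⟩ := hIND ι J' (fun j i => ∃ x ∈ (p j).support, x ∈ P i) m h (by
    intro j hj S hS hR
    obtain ⟨-, -, hT1, hT2⟩ := hT j (hsub j hj).1
    refine le_trans ?_ hT1
    have hR' : ∀ i, ∃ x, i ∈ S → (x ∈ (p j).support ∧ x ∈ P i) := by
      intro i
      by_cases hi : i ∈ S
      · obtain ⟨-, x, hx1, hx2⟩ := hR i hi
        exact ⟨x, fun _ => ⟨hx1, hx2⟩⟩
      · exact ⟨z, fun h => absurd h hi⟩
    choose x hx using hR'
    refine Finset.card_le_card_of_injOn x (fun i hi => hT2 _ (hx i hi).1) ?_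
    intro i hi i' hi' he
    by_contra hne
    have h1 := (hx i hi).2
    have h2 := (hx i' hi').2
    rw [← he] at h2
    exact (Finset.disjoint_left.1 (hPd i (hsub i (hS hi)).1 i' (hsub i' (hS hi')).1 hne)) h1 h2)
    hJ'c
  -- the initial pieces
  have hpre : ∀ i, ∃ w, ∃ q : Q.Walk z w, i ∈ H → ((∀ u ∈ q.support, u ∈ (p i).support) ∧
      (∀ u ∈ q.support, u ∉ P i) ∧ ∃ b ∈ P i, Q.Adj w b) := by
    intro i
    by_cases hi : i ∈ H
    · obtain ⟨w, q, h1, h2, h3⟩ := before Q (P i) (p i) (hsub i (hHJ hi)).2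
        (hT i (hsub i (hHJ hi)).1).1
      exact ⟨w, q, fun _ => ⟨h1, h2, h3⟩⟩
    · exact ⟨z, SimpleGraph.Walk.nil, fun h => absurd h hi⟩
  choose w q hq using hpre
  set W : Finset V := H.biUnion (fun i => (q i).support.toFinset) with hWdef
  have memW : ∀ x, x ∈ W ↔ ∃ i ∈ H, x ∈ (q i).support := by
    intro x
    rw [hWdef, Finset.mem_biUnion]
    simp only [List.mem_toFinset]
  have hHne : H.Nonempty := by
    rw [← Finset.card_pos, hHc]; exact hh
  have hWz : ∀ x ∈ W, ∃ r : Q.Walk x z, ∀ u ∈ r.support, u ∈ W := by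
    intro x hx
    obtain ⟨i, hi, hxi⟩ := (memW x).1 hx
    refine ⟨((q i).takeUntil x hxi).reverse, fun u hu => ?_⟩
    rw [SimpleGraph.Walk.support_reverse, List.mem_reverse] at hu
    exact (memW u).2 ⟨i, hi, SimpleGraph.Walk.support_takeUntil_subset_support _ _ hu⟩
  have hWc : Cn Q (W : Set V) := by
    refine ⟨?_, ?_⟩
    · obtain ⟨i, hi⟩ := hHne
      exact ⟨z, by rw [Finset.mem_coe, memW]; exact ⟨i, hi, SimpleGraph.Walk.start_mem_support _⟩⟩
    · intro x hx x' hx'
      obtain ⟨r, hr⟩ := hWz x hx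
      obtain ⟨r', hr'⟩ := hWz x' hx'
      refine ⟨r.append r'.reverse, fun u hu => ?_⟩
      rw [SimpleGraph.Walk.mem_support_append_iff] at hu
      rcases hu with hu | hu
      · exact hr u hu
      · rw [SimpleGraph.Walk.support_reverse, List.mem_reverse] at hu
        exact hr' u hu
  have hWI : Disjoint I W := by
    rw [Finset.disjoint_right]
    intro x hx
    obtain ⟨i, hi, hxi⟩ := (memW x).1 hx
    exact ((hT i (hsub i (hHJ hi)).1).2.1 x ((hq i hi).1 x hxi)).1
  have hWU : Disjoint U W := by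
    rw [Finset.disjoint_right]
    intro x hx
    obtain ⟨i, hi, hxi⟩ := (memW x).1 hx
    exact ((hT i (hsub i (hHJ hi)).1).2.1 x ((hq i hi).1 x hxi)).2
  have hWP : ∀ j ∈ H, Disjoint W (P j) := by
    intro j hj
    rw [Finset.disjoint_left]
    intro x hx hxj
    obtain ⟨i, hi, hxi⟩ := (memW x).1 hx
    by_cases hij : i = j
    · subst hij
      exact (hq i hi).2.1 x hxi hxj
    · exact hH j hj i hi (Ne.symm hij) ⟨x, (hq i hi).1 x hxi, hxj⟩
  let e : Fin h ≃ H := (H.equivFinOfCardEq hHc).symm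
  refine ⟨![I, U, W], fun j => P (e j), ?_, ?_, ?_, ?_, ?_, ?_⟩
  · intro i
    fin_cases i
    · exact hI
    · exact hU
    · exact hWc
  · intro j
    exact (hP _ (hsub _ (hHJ (e j).2)).1).1
  · intro i j hij
    fin_cases i <;> fin_cases j <;> first | exact absurd rfl hij | skip
    · exact hIU
    · exact hWI
    · exact hIU.symm
    · exact hWU
    · exact hWI.symm
    · exact hWU.symm
  · intro i j hij
    refine hPd _ (hsub _ (hHJ (e i).2)).1 _ (hsub _ (hHJ (e j).2)).1 ?_
    intro h1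
    exact hij (e.injective (Subtype.ext h1))
  · intro i j
    obtain ⟨-, h1, h2, -, -⟩ := hP _ (hsub _ (hHJ (e j).2)).1
    fin_cases i
    · exact h1.symm
    · exact h2.symm
    · exact hWP _ (e j).2
  · intro i j
    obtain ⟨-, -, -, ⟨x, hx, a, ha, hax⟩, ⟨x', hx', b, hb, hxb⟩⟩ :=
      hP _ (hsub _ (hHJ (e j).2)).1
    fin_cases i
    · exact ⟨a, ha, x, hx, hax⟩
    · exact ⟨b, hb, x', hx', hxb.symm⟩
    · obtain ⟨-, -, b', hb', hwb⟩ := hq (e j) (e j).2
      exact ⟨w (e j), (memW _).2 ⟨_, (e j).2, SimpleGraph.Walk.end_mem_support _⟩, b', hb', hwb⟩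

end Pool.Agent.Q293.SD.HubJ
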