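import Pool.Agent.Q293.SD.Stm

/-!
Job SD-IND: greedy independent sets in digraphs of small out-degree.
-/

set_option autoImplicit false

namespace Pool.Agent.Q293.SD.IndJ

open Pool.Agent.Q293.SD Finset

theorem main : S_IND := by
  classical
  intro ι J R m h
  induction h generalizing J with
  | zero =>
    intro _ _
    exact ⟨∅, by simp, by simp, by simp⟩
  | succ h ih =>
    intro hout hcard
    have hJpos : 0 < J.card := by
      have : 0 < (h + 1) * (2 * m + 1) := by positivity
      omega
    -- some vertex has small in-degree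
    have hin : ∃ i ∈ J, (J.filter (fun j => i ≠ j ∧ R j i)).card ≤ m := by
      by_contra hcon
      push Not at hcon
      have h1 : ∑ j ∈ J, (J.filter (fun i => i ≠ j ∧ R j i)).card ≤ J.card * m := by
        calc ∑ j ∈ J, (J.filter (fun i => i ≠ j ∧ R j i)).card ≤ ∑ _j ∈ J, m := by
              apply Finset.sum_le_sum
              intro j hj
              apply hout j hj _ (Finset.filter_subset _ _)
              intro i hi
              exact (Finset.mem_filter.1 hi).2
          _ = J.card * m := by rw [Finset.sum_const, smul_eq_mul]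
      have h2 : J.card * (m + 1) ≤ ∑ i ∈ J, (J.filter (fun j => i ≠ j ∧ R j i)).card := by
        calc J.card * (m + 1) = ∑ _i ∈ J, (m + 1) := by rw [Finset.sum_const, smul_eq_mul]
          _ ≤ ∑ i ∈ J, (J.filter (fun j => i ≠ j ∧ R j i)).card :=
              Finset.sum_le_sum (fun i hi => hcon i hi)
      have h3 : ∑ j ∈ J, (J.filter (fun i => i ≠ j ∧ R j i)).card =
          ∑ i ∈ J, (J.filter (fun j => i ≠ j ∧ R j i)).card :=
        Finset.sum_card_bipartiteAbove_eq_sum_card_bipartiteBelow (fun j i => i ≠ j ∧ R j i)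
      have h4 : J.card * (m + 1) ≤ J.card * m := h2.trans (h3 ▸ h1)
      have := Nat.le_of_mul_le_mul_left h4 hJpos
      omega
    obtain ⟨i₀, hi₀, hi₀c⟩ := hin
    have hout₀ : (J.filter (fun i => i ≠ i₀ ∧ R i₀ i)).card ≤ m :=
      hout i₀ hi₀ _ (Finset.filter_subset _ _) (fun i hi => (Finset.mem_filter.1 hi).2)
    set D : Finset ι := insert i₀ (J.filter (fun j => i₀ ≠ j ∧ R j i₀) ∪
      J.filter (fun i => i ≠ i₀ ∧ R i₀ i)) with hD
    have hDc : D.card ≤ 2 * m + 1 := by
      have h1 : D.card ≤ (J.filter (fun j => i₀ ≠ j ∧ R j i₀) ∪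
        J.filter (fun i => i ≠ i₀ ∧ R i₀ i)).card + 1 := Finset.card_insert_le _ _
      have h2 := Finset.card_union_le (J.filter (fun j => i₀ ≠ j ∧ R j i₀))
        (J.filter (fun i => i ≠ i₀ ∧ R i₀ i))
      omega
    obtain ⟨H, hHJ, hHc, hH⟩ := ih (J \ D) (by
      intro j hj T hT hTR
      exact hout j (Finset.mem_sdiff.1 hj).1 T (hT.trans Finset.sdiff_subset) hTR) (by
      have h1 := Finset.le_card_sdiff D J
      have h2 : (h + 1) * (2 * m + 1) = h * (2 * m + 1) + (2 * m + 1) := by ring
      omega)
    have hi₀D : i₀ ∈ D := Finset.mem_insert_self _ _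
    have hi₀H : i₀ ∉ H := fun hh => (Finset.mem_sdiff.1 (hHJ hh)).2 hi₀D
    have hHJ' : ∀ j ∈ H, j ∈ J ∧ j ∉ D := fun j hj => Finset.mem_sdiff.1 (hHJ hj)
    refine ⟨insert i₀ H, ?_, ?_, ?_⟩
    · intro j hj
      rcases Finset.mem_insert.1 hj with hj | hj
      · rw [hj]; exact hi₀
      · exact (hHJ' j hj).1
    · rw [Finset.card_insert_of_notMem hi₀H, hHc]
    · intro i hi j hj hij hR
      rcases Finset.mem_insert.1 hi with hi1 | hi1
      · rcases Finset.mem_insert.1 hj with hj1 | hj1
        · exact hij (hi1.trans hj1.symm)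
        · apply (hHJ' j hj1).2
          rw [hD]
          apply Finset.mem_insert_of_mem
          apply Finset.mem_union_left
          rw [Finset.mem_filter]
          rw [hi1] at hij hR
          exact ⟨(hHJ' j hj1).1, hij, hR⟩
      · rcases Finset.mem_insert.1 hj with hj1 | hj1
        · apply (hHJ' i hi1).2
          rw [hD]
          apply Finset.mem_insert_of_mem
          apply Finset.mem_union_right
          rw [Finset.mem_filter]
          rw [hj1] at hij hR
          exact ⟨(hHJ' i hi1).1, hij, hR⟩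
        · exact hH i hi1 j hj1 hij hR

end Pool.Agent.Q293.SD.IndJ
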