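import Pool.Agent.Q293.SD.Stm

set_option autoImplicit false

namespace Pool.Agent.Q293.SD.LawJ

open Pool.Agent.Q293.SD
open Finset

theorem law_zero {V : Type} (G : SimpleGraph V) [G.LocallyFinite] (o x : V) [Decidable (x = o)] :
    law G o 0 x = if x = o then 1 else 0 := by
  simp only [law]
  congr

theorem law_succ {V : Type} (G : SimpleGraph V) [G.LocallyFinite] (o : V) (t : ℕ) (x : V) :
    law G o (t + 1) x = ∑ y ∈ G.neighborFinset x, dn G o t y := by
  simp only [law, dn]

theorem law_nonneg {V : Type} (G : SimpleGraph V) [G.LocallyFinite] (o : V) :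
    ∀ (k : ℕ) (x : V), 0 ≤ law G o k x := by
  intro k
  induction k with
  | zero =>
    intro x
    classical
    rw [law_zero]
    split_ifs <;> norm_num
  | succ k ih =>
    intro x
    rw [law_succ]
    apply Finset.sum_nonneg
    intro y _
    unfold dn
    exact div_nonneg (ih y) (by positivity)

theorem dn_nonneg {V : Type} (G : SimpleGraph V) [G.LocallyFinite] (o : V) (k : ℕ) (x : V) :
    0 ≤ dn G o k x := div_nonneg (law_nonneg G o k x) (by positivity)

theorem law_supp {V : Type} (G : SimpleGraph V) [G.LocallyFinite] (hc : G.Connected) (o : V) :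
    ∀ (k : ℕ) (x : V), law G o k x ≠ 0 → G.dist o x ≤ k := by
  intro k
  induction k with
  | zero =>
    intro x hx
    classical
    rw [law_zero] at hx
    have : x = o := by
      by_contra h
      rw [if_neg h] at hx
      exact hx rfl
    subst this
    simp
  | succ k ih =>
    intro x hx
    rw [law_succ] at hx
    obtain ⟨y, hy, hy2⟩ := Finset.exists_ne_zero_of_sum_ne_zero hx
    rw [SimpleGraph.mem_neighborFinset] at hy
    have h1 : law G o k y ≠ 0 := by
      intro h
      apply hy2
      unfold dn
      rw [h, zero_div]
    have h2 := ih y h1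
    have h3 : G.dist o x ≤ G.dist o y + G.dist y x := hc.dist_triangle
    have h4 : G.dist y x = 1 := SimpleGraph.dist_eq_one_iff_adj.mpr hy.symm
    omega

theorem ex_eq {V : Type} (G : SimpleGraph V) [G.LocallyFinite] {c C d : ℝ} (hG : Gr G c C d)
    (o : V) (k : ℕ) (S : Finset V) (g : V → ℝ) (hS : bal G o k ⊆ S) :
    ex G o k g = ∑ x ∈ S, law G o k x * g x := by
  unfold ex
  apply tsum_eq_sum
  intro x hx
  have h1 : law G o k x = 0 := by
    by_contra h
    exact hx (hS ((hG.mem o k x).mpr (law_supp G hG.conn o k x h)))
  rw [h1, zero_mul]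

theorem ex_succ {V : Type} (G : SimpleGraph V) [G.LocallyFinite] {c C d : ℝ} (hG : Gr G c C d)
    (o : V) (k : ℕ) (S : Finset V) (g : V → ℝ) (hS : bal G o k ⊆ S) :
    ex G o (k + 1) g = ∑ y ∈ S, dn G o k y * ∑ x ∈ G.neighborFinset y, g x := by
  classical
  rw [ex_eq G hG o (k + 1) (bal G o (k + 1)) g (Finset.Subset.refl _)]
  have key : ∀ y, dn G o k y ≠ 0 → y ∈ bal G o k := by
    intro y hy
    rw [hG.mem]
    apply law_supp G hG.conn o k y
    intro h
    apply hy
    unfold dn
    rw [h, zero_div]
  have h1 : ∀ x, law G o (k + 1) x = ∑ y ∈ S, if G.Adj x y then dn G o k y else 0 := by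
    intro x
    rw [law_succ, ← Finset.sum_filter]
    apply Finset.sum_congr_of_eq_on_inter
    · intro y hy hy2
      by_contra h
      apply hy2
      rw [Finset.mem_filter]
      exact ⟨hS (key y h), (SimpleGraph.mem_neighborFinset G x y).mp hy⟩
    · intro y hy hy2
      rw [Finset.mem_filter] at hy
      exact absurd ((SimpleGraph.mem_neighborFinset G x y).mpr hy.2) hy2
    · intro y _ _
      rfl
  calc ∑ x ∈ bal G o (k + 1), law G o (k + 1) x * g x
      = ∑ x ∈ bal G o (k + 1), ∑ y ∈ S, (if G.Adj x y then dn G o k y else 0) * g x := by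
        apply Finset.sum_congr rfl
        intro x _
        rw [h1, Finset.sum_mul]
    _ = ∑ y ∈ S, ∑ x ∈ bal G o (k + 1), (if G.Adj x y then dn G o k y else 0) * g x :=
        Finset.sum_comm
    _ = _ := by
        apply Finset.sum_congr rfl
        intro y _
        by_cases hy : dn G o k y = 0
        · rw [hy, zero_mul]
          apply Finset.sum_eq_zero
          intro x _
          split_ifs <;> simp
        · have hyb := key y hy
          rw [hG.mem] at hyb
          rw [Finset.mul_sum]
          have : ∀ x, (if G.Adj x y then dn G o k y else 0) * g x =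
              if G.Adj x y then dn G o k y * g x else 0 := by
            intro x
            split_ifs <;> simp
          simp_rw [this]
          rw [← Finset.sum_filter]
          apply Finset.sum_congr _ (fun _ _ => rfl)
          ext x
          rw [Finset.mem_filter, SimpleGraph.mem_neighborFinset, hG.mem]
          constructor
          · rintro ⟨_, h⟩
            exact h.symm
          · intro h
            refine ⟨?_, h.symm⟩
            have h3 : G.dist o x ≤ G.dist o y + G.dist y x := hG.conn.dist_triangle
            have h4 : G.dist y x = 1 := SimpleGraph.dist_eq_one_iff_adj.mpr h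
            omega

theorem law_sum {V : Type} (G : SimpleGraph V) [G.LocallyFinite] {c C d : ℝ} (hG : Gr G c C d)
    (o : V) : ∀ (k : ℕ) (S : Finset V), bal G o k ⊆ S → ∑ x ∈ S, law G o k x = 1 := by
  intro k
  induction k with
  | zero =>
    intro S hS
    classical
    have : o ∈ S := hS ((hG.mem o 0 o).mpr (by simp))
    simp_rw [law_zero]
    rw [Finset.sum_ite_eq' S o, if_pos this]
  | succ k ih =>
    intro S hS
    have h1 := ex_eq G hG o (k + 1) S (fun _ => 1) hS
    have h2 := ex_succ G hG o k (bal G o k) (fun _ => 1) (Finset.Subset.refl _)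
    simp only [mul_one] at h1
    rw [← h1, h2]
    refine Eq.trans ?_ (ih (bal G o k) (Finset.Subset.refl _))
    apply Finset.sum_congr rfl
    intro y _
    simp only [Finset.sum_const, SimpleGraph.card_neighborFinset_eq_degree, nsmul_eq_mul, mul_one]
    unfold dn
    have : (0 : ℝ) < G.degree y := by exact_mod_cast hG.deg0 y
    field_simp

theorem main : S_LAW := by
  intro V G _ c C d hG o k
  exact ⟨law_nonneg G o k, law_supp G hG.conn o k, law_sum G hG o k,
    fun S g hS => ex_eq G hG o k S g hS, fun S g hS => ex_succ G hG o k S g hS⟩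

end Pool.Agent.Q293.SD.LawJ
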