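import Pool.Agent.Q293.SD.Stm

/-!
Job SD-LIF: lifting of minors from the quotient.
-/

set_option autoImplicit false

namespace Pool.Agent.Q293.SD.LifJ

open Pool.Agent.Q293.SD Finset

theorem main : S_LIF := by
  classical
  intro hQLI V G _ c C d hG r Y a hVor h hh
  rintro ⟨A, B, hA, hB, hAA, hBB, hAB, hadj⟩
  -- the lift of a finite set of labels
  obtain ⟨lft, hl⟩ : ∃ lft : Finset V → Finset V, ∀ S v, v ∈ lft S ↔ a v ∈ S := by
    refine ⟨fun S => (S.biUnion (fun p => bal G p r)).filter (fun v => a v ∈ S), ?_⟩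
    intro S v
    rw [Finset.mem_filter, Finset.mem_biUnion]
    constructor
    · rintro ⟨-, hh⟩
      exact hh
    · intro hv
      refine ⟨⟨a v, hv, ?_⟩, hv⟩
      rw [hG.mem, SimpleGraph.dist_comm]
      exact hVor.near v
  have hcn : ∀ S : Finset V, Cn (quo G a) (S : Set V) → (∃ v, a v ∈ S) →
      Cn G (lft S : Set V) := by
    rintro S ⟨-, hS⟩ ⟨v, hv⟩
    refine ⟨⟨v, Finset.mem_coe.2 ((hl S v).2 hv)⟩, ?_⟩
    intro x hx y hy
    rw [Finset.mem_coe, hl] at hx hy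
    obtain ⟨p, hp⟩ := hS (a x) (Finset.mem_coe.2 hx) (a y) (Finset.mem_coe.2 hy)
    obtain ⟨q, hq⟩ := hQLI V G a hVor.cell _ _ p x y rfl rfl
    refine ⟨q, fun u hu => ?_⟩
    rw [Finset.mem_coe, hl]
    exact Finset.mem_coe.1 (hp _ (hq u hu))
  have hdj : ∀ S T : Finset V, Disjoint S T → Disjoint (lft S) (lft T) := by
    intro S T hST
    rw [Finset.disjoint_left]
    intro v hv hv'
    rw [hl] at hv hv'
    exact Finset.disjoint_left.1 hST hv hv'
  have hadj' : ∀ i j, ∃ u ∈ lft (A i), ∃ v ∈ lft (B j), G.Adj u v := by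
    intro i j
    obtain ⟨p, hp, q, hq, -, u, v, huv, hu, hv⟩ := hadj i j
    refine ⟨u, ?_, v, ?_, huv⟩
    · rw [hl, hu]; exact hp
    · rw [hl, hv]; exact hq
  refine ⟨fun i => lft (A i), fun j => lft (B j), ?_, ?_, ?_, ?_, ?_, hadj'⟩
  · intro i
    obtain ⟨u, hu, -⟩ := hadj' i ⟨0, hh⟩
    exact hcn _ (hA i) ⟨u, (hl _ _).1 hu⟩
  · intro j
    obtain ⟨-, -, v, hv, -⟩ := hadj' 0 j
    exact hcn _ (hB j) ⟨v, (hl _ _).1 hv⟩
  · exact fun i j hij => hdj _ _ (hAA i j hij)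
  · exact fun i j hij => hdj _ _ (hBB i j hij)
  · exact fun i j => hdj _ _ (hAB i j)

end Pool.Agent.Q293.SD.LifJ
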