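import Pool.Agent.Q293.SD.Stm

/-!
# Project SD, job MEN: Menger's theorem (helper223)
-/

set_option autoImplicit false

namespace Pool.Agent.Q293.SD.MenJ

open Pool.Agent.Q293.SD Finset

theorem cn_star {V : Type} {Q : SimpleGraph V} {S : Set V} {x0 : V} (h0 : x0 ∈ S)
    (h : ∀ x ∈ S, ∃ p : Q.Walk x0 x, ∀ u ∈ p.support, u ∈ S) : Cn Q S := by
  refine ⟨⟨x0, h0⟩, fun x hx y hy => ?_⟩
  obtain ⟨p, hp⟩ := h x hx
  obtain ⟨q, hq⟩ := h y hy
  refine ⟨p.reverse.append q, fun u hu => ?_⟩
  rw [SimpleGraph.Walk.mem_support_append_iff] at hu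
  rcases hu with hu | hu
  · rw [SimpleGraph.Walk.support_reverse, List.mem_reverse] at hu
    exact hp u hu
  · exact hq u hu

theorem main : S_MEN := by
  classical
  intro V Q F A B k hAB hna
  -- the interior vertices
  let W := {x : V // x ∈ F ∧ x ∉ A ∧ x ∉ B}
  have hfin : Finite W := Set.Finite.to_subtype (F.finite_toSet.subset fun x hx => hx.1)
  let _ : Fintype W := Fintype.ofFinite W
  let sA : W → Prop := fun w => ∃ a ∈ A, Q.Adj a w
  let sB : W → Prop := fun w => ∃ b ∈ B, Q.Adj w b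
  let t : W ⊕ Fin (k + 1) → Finset (W ⊕ Fin (k + 1)) := fun x => Finset.univ.filter fun y =>
    match x, y with
    | Sum.inl u, Sum.inl w => w = u ∨ Q.Adj u.1 w.1
    | Sum.inl u, Sum.inr _ => sB u
    | Sum.inr _, Sum.inl w => sA w
    | Sum.inr _, Sum.inr _ => False
  have t1 : ∀ u w : W, (Sum.inl w : W ⊕ Fin (k + 1)) ∈ t (Sum.inl u) ↔ (w = u ∨ Q.Adj u.1 w.1) :=
    fun u w => by simp [t]
  have t2 : ∀ (u : W) (j : Fin (k + 1)), (Sum.inr j : W ⊕ Fin (k + 1)) ∈ t (Sum.inl u) ↔ sB u :=
    fun u w => by simp [t]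
  have t3 : ∀ (i : Fin (k + 1)) (w : W), (Sum.inl w : W ⊕ Fin (k + 1)) ∈ t (Sum.inr i) ↔ sA w :=
    fun u w => by simp [t]
  have t4 : ∀ (i j : Fin (k + 1)), (Sum.inr j : W ⊕ Fin (k + 1)) ∉ t (Sum.inr i) :=
    fun u w => by simp [t]
  by_cases hall : ∀ Z : Finset (W ⊕ Fin (k + 1)), Z.card ≤ (Z.biUnion t).card
  swap
  · -- a separating set
    left
    push Not at hall
    obtain ⟨Z, hZ⟩ := hall
    let Z1 : Finset W := Finset.univ.filter fun u => (Sum.inl u : W ⊕ Fin (k + 1)) ∈ Z
    let Z2 : Finset (Fin (k + 1)) := Finset.univ.filter fun i => (Sum.inr i : W ⊕ Fin (k + 1)) ∈ Z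
    let N1 : Finset W := Finset.univ.filter fun u => (Sum.inl u : W ⊕ Fin (k + 1)) ∈ Z.biUnion t
    let N2 : Finset (Fin (k + 1)) :=
      Finset.univ.filter fun i => (Sum.inr i : W ⊕ Fin (k + 1)) ∈ Z.biUnion t
    have hcard : ∀ Y : Finset (W ⊕ Fin (k + 1)), Y.card =
        (Finset.univ.filter fun u : W => (Sum.inl u : W ⊕ Fin (k + 1)) ∈ Y).card +
        (Finset.univ.filter fun i : Fin (k + 1) => (Sum.inr i : W ⊕ Fin (k + 1)) ∈ Y).card := by
      intro Y
      rw [← Finset.card_disjSum]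
      congr 1
      ext z
      rcases z with z | z <;> simp
    have e1 : Z.card = Z1.card + Z2.card := hcard Z
    have e2 : (Z.biUnion t).card = N1.card + N2.card := hcard _
    have hsub : Z1 ⊆ N1 := by
      intro u hu
      simp only [Z1, N1, Finset.mem_filter, Finset.mem_univ, true_and, Finset.mem_biUnion] at hu ⊢
      exact ⟨_, hu, (t1 u u).2 (Or.inl rfl)⟩
    have hle := Finset.card_le_card hsub
    have hZ2 : Z2.card ≤ k + 1 := by
      have := Finset.card_le_univ Z2
      rwa [Fintype.card_fin] at this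
    have hnB : ∀ u ∈ Z1, ¬ sB u := by
      intro u hu hs
      have hN2 : N2 = Finset.univ := by
        ext j
        simp only [N2, Finset.mem_filter, Finset.mem_univ, true_and, Finset.mem_biUnion, iff_true]
        simp only [Z1, Finset.mem_filter, Finset.mem_univ, true_and] at hu
        exact ⟨_, hu, (t2 u j).2 hs⟩
      rw [hN2, Finset.card_univ, Fintype.card_fin] at e2
      omega
    have hne : Z2.Nonempty := by
      rw [← Finset.card_pos]
      omega
    obtain ⟨i0, hi0⟩ := hne
    have hi0 : (Sum.inr i0 : W ⊕ Fin (k + 1)) ∈ Z := by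
      simpa [Z2] using hi0
    refine ⟨(N1 \ Z1).map ⟨Subtype.val, Subtype.val_injective⟩, ?_, ?_⟩
    · rw [Finset.card_map, Finset.card_sdiff_of_subset hsub]
      omega
    · intro a b p ha hb hp
      by_contra hcon
      push Not at hcon
      -- all vertices of the walk are in `A` or in `Z1`
      have hS : ∀ w : W, w.1 ∈ p.support → w ∈ N1 → w ∈ Z1 := by
        intro w hw hw1
        by_contra hw2
        exact hcon _ hw (Finset.mem_map.2 ⟨w, Finset.mem_sdiff.2 ⟨hw1, hw2⟩, rfl⟩)
      have key : ∀ (x z : V) (q : Q.Walk x z), z ∈ B → (∀ y ∈ q.support, y ∈ p.support) →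
          (x ∈ A ∨ ∃ w ∈ Z1, w.1 = x) → False := by
        intro x z q hz
        induction q with
        | nil =>
          intro _ hx
          rcases hx with hx | ⟨w, -, hw⟩
          · exact Finset.disjoint_left.1 hAB hx hz
          · exact w.2.2.2 (hw ▸ hz)
        | @cons x y z hadj q ih =>
          intro hq hx
          have hyp : y ∈ p.support := hq y (by
            rw [SimpleGraph.Walk.support_cons]
            exact List.mem_cons_of_mem _ q.start_mem_support)
          refine ih hz (fun u hu => hq u (by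
            rw [SimpleGraph.Walk.support_cons]
            exact List.mem_cons_of_mem _ hu)) ?_
          by_cases hyA : y ∈ A
          · exact Or.inl hyA
          right
          have hyB : y ∉ B := by
            intro hyB
            rcases hx with hx | ⟨w, hw, rfl⟩
            · exact hna x hx y hyB hadj
            · exact hnB w hw ⟨y, hyB, hadj⟩
          let y' : W := ⟨y, hp y hyp, hyA, hyB⟩
          refine ⟨y', hS y' hyp ?_, rfl⟩
          simp only [N1, Finset.mem_filter, Finset.mem_univ, true_and, Finset.mem_biUnion]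
          rcases hx with hx | ⟨w, hw, rfl⟩
          · exact ⟨_, hi0, (t3 i0 y').2 ⟨x, hx, hadj⟩⟩
          · simp only [Z1, Finset.mem_filter, Finset.mem_univ, true_and] at hw
            exact ⟨_, hw, (t1 w y').2 (Or.inr hadj)⟩
      exact key a b p hb (fun _ h => h) (Or.inl ha)
  -- the paths
  right
  obtain ⟨f, hf, hft⟩ := (Finset.all_card_le_biUnion_card_iff_exists_injective t).1 hall
  -- the time of the first return to the sources
  have hret : ∀ i : Fin (k + 1), ∃ n, 1 ≤ n ∧ ∃ j, f^[n] (Sum.inr i) = Sum.inr j := by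
    intro i
    obtain ⟨n, hn, hn'⟩ := Function.Injective.mem_periodicPts hf (Sum.inr i)
    exact ⟨n, hn, i, hn'⟩
  let N : Fin (k + 1) → ℕ := fun i => Nat.find (hret i)
  have hN1 : ∀ i, 1 ≤ N i := fun i => (Nat.find_spec (hret i)).1
  have hN2 : ∀ i, ∃ j, f^[N i] (Sum.inr i) = Sum.inr j := fun i => (Nat.find_spec (hret i)).2
  have hN3 : ∀ i n, 1 ≤ n → n < N i → ∃ w, f^[n] (Sum.inr i) = Sum.inl w := by
    intro i n hn1 hn2
    have h1 := Nat.find_min (hret i) hn2
    push Not at h1
    have h2 := h1 hn1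
    rcases h3 : f^[n] (Sum.inr i) with w | j
    · exact ⟨w, rfl⟩
    · exact absurd h3 (h2 j)
  have hN4 : ∀ i, 1 < N i := by
    intro i
    rcases Nat.lt_or_ge 1 (N i) with h | h
    · exact h
    · exfalso
      have h1 : N i = 1 := le_antisymm h (hN1 i)
      obtain ⟨j, hj⟩ := hN2 i
      rw [h1, Function.iterate_one] at hj
      have h2 := hft (Sum.inr i)
      rw [hj] at h2
      exact t4 i j h2
  let P : Fin (k + 1) → Finset V := fun i =>
    (Finset.univ.filter fun w : W => ∃ l, 1 ≤ l ∧ l < N i ∧ f^[l] (Sum.inr i) = Sum.inl w).map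
      ⟨Subtype.val, Subtype.val_injective⟩
  have hP : ∀ i x, x ∈ P i ↔ ∃ w : W, w.1 = x ∧ ∃ l, 1 ≤ l ∧ l < N i ∧
      f^[l] (Sum.inr i) = Sum.inl w := by
    intro i x
    simp only [P, Finset.mem_map, Finset.mem_filter, Finset.mem_univ, true_and,
      Function.Embedding.coeFn_mk]
    constructor
    · rintro ⟨w, h1, h2⟩
      exact ⟨w, h2, h1⟩
    · rintro ⟨w, h1, h2⟩
      exact ⟨w, h2, h1⟩
  have hstep : ∀ i l w, f^[l] (Sum.inr i) = Sum.inl w → ∀ w', f^[l + 1] (Sum.inr i) = Sum.inl w' →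
      w' = w ∨ Q.Adj w.1 w'.1 := by
    intro i l w h1 w' h2
    rw [Function.iterate_succ_apply', h1] at h2
    have h3 := hft (Sum.inl w)
    rw [h2] at h3
    exact (t1 w w').1 h3
  refine ⟨P, ?_, ?_, ?_, ?_, ?_, ?_, ?_⟩
  · intro i x hx
    obtain ⟨w, rfl, -⟩ := (hP i x).1 hx
    exact w.2.1
  · intro i
    rw [Finset.disjoint_left]
    intro x hx
    obtain ⟨w, rfl, -⟩ := (hP i x).1 hx
    exact w.2.2.1
  · intro i
    rw [Finset.disjoint_left]
    intro x hx
    obtain ⟨w, rfl, -⟩ := (hP i x).1 hx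
    exact w.2.2.2
  · intro i
    obtain ⟨w1, hw1⟩ := hN3 i 1 le_rfl (hN4 i)
    have hm1 : w1.1 ∈ P i := (hP i _).2 ⟨w1, rfl, 1, le_rfl, hN4 i, hw1⟩
    refine cn_star (x0 := w1.1) hm1 ?_
    have key : ∀ l, ∀ w : W, l + 1 < N i → f^[l + 1] (Sum.inr i) = Sum.inl w →
        ∃ p : Q.Walk w1.1 w.1, ∀ u ∈ p.support, u ∈ (P i : Set V) := by
      intro l
      induction l with
      | zero =>
        intro w _ hw
        rw [zero_add, hw1] at hw
        cases Sum.inl_injective hw
        refine ⟨SimpleGraph.Walk.nil, fun u hu => ?_⟩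
        rw [SimpleGraph.Walk.support_nil, List.mem_singleton] at hu
        rw [hu]
        exact hm1
      | succ l ih =>
        intro w hl hw
        obtain ⟨w', hw'⟩ := hN3 i (l + 1) (by omega) (by omega)
        obtain ⟨p, hp⟩ := ih w' (by omega) hw'
        rcases hstep i (l + 1) w' hw' w hw with h | h
        · subst h
          exact ⟨p, hp⟩
        · refine ⟨p.concat h, fun u hu => ?_⟩
          rw [SimpleGraph.Walk.support_concat, List.mem_append,
            List.mem_singleton] at hu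
          rcases hu with hu | hu
          · exact hp u hu
          · rw [hu]
            exact (hP i _).2 ⟨w, rfl, l + 1 + 1, by omega, hl, hw⟩
    intro x hx
    obtain ⟨w, rfl, l, hl1, hl2, hl3⟩ := (hP i x).1 hx
    obtain ⟨l, rfl⟩ : ∃ l', l = l' + 1 := ⟨l - 1, by omega⟩
    exact key l w hl2 hl3
  · intro i
    obtain ⟨w1, hw1⟩ := hN3 i 1 le_rfl (hN4 i)
    refine ⟨w1.1, (hP i _).2 ⟨w1, rfl, 1, le_rfl, hN4 i, hw1⟩, ?_⟩
    rw [Function.iterate_one] at hw1
    have h2 := hft (Sum.inr i)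
    rw [hw1] at h2
    exact (t3 i w1).1 h2
  · intro i
    have h4 := hN4 i
    obtain ⟨w, hw⟩ := hN3 i (N i - 1) (by omega) (by omega)
    refine ⟨w.1, (hP i _).2 ⟨w, rfl, N i - 1, by omega, by omega, hw⟩, ?_⟩
    obtain ⟨j, hj⟩ := hN2 i
    have h5 : N i = N i - 1 + 1 := by omega
    rw [h5, Function.iterate_succ_apply', hw] at hj
    have h2 := hft (Sum.inl w)
    rw [hj] at h2
    exact (t2 w j).1 h2
  · -- disjointness
    have key : ∀ i j l l' w, 1 ≤ l → l ≤ l' → l' < N j → f^[l] (Sum.inr i) = Sum.inl w →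
        f^[l'] (Sum.inr j) = Sum.inl w → i = j := by
      intro i j l l' w h1 h2 h3 h4 h5
      have h6 : f^[l'] (Sum.inr j) = f^[l] (f^[l' - l] (Sum.inr j)) := by
        rw [← Function.iterate_add_apply]
        congr 2
        omega
      rw [h5, ← h4] at h6
      have h7 := (hf.iterate l) h6
      rcases Nat.eq_zero_or_pos (l' - l) with h8 | h8
      · rw [h8, Function.iterate_zero, id] at h7
        exact Sum.inr_injective h7
      · obtain ⟨w', hw'⟩ := hN3 j (l' - l) h8 (by omega)
        rw [hw'] at h7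
        exact absurd h7 Sum.inr_ne_inl
    intro i j hij
    rw [Finset.disjoint_left]
    intro x hx hx'
    obtain ⟨w, rfl, l, hl1, hl2, hl3⟩ := (hP i x).1 hx
    obtain ⟨w', hw', l', hl1', hl2', hl3'⟩ := (hP j _).1 hx'
    have hww : w' = w := Subtype.ext hw'
    subst hww
    rcases le_total l l' with h | h
    · exact hij (key i j l l' _ hl1 h hl2' hl3 hl3')
    · exact hij (key j i l' l _ hl1' h hl2 hl3' hl3).symm

end Pool.Agent.Q293.SD.MenJ
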