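import Pool.Agent.Q293.SD.Stm

/-!
# Project SD (helper293), job MUL: iteration (by helper224)
-/

set_option autoImplicit false
set_option linter.all false

namespace Pool.Agent.Q293.SD.MulJ

open Pool.Agent.Q293.SD Finset

/-- the choice of `M` -/
theorem exM (d : ℝ) (hd : 2 < d) (A : ℝ) (hA : 0 < A) : ∃ M : ℕ, 3 ≤ M ∧ A * (M : ℝ) ^ (2 - d) ≤ 1 := by
  have h1 : Filter.Tendsto (fun M : ℕ => (M : ℝ) ^ (-(d - 2))) Filter.atTop (nhds 0) :=
    (tendsto_rpow_neg_atTop (by linarith)).comp tendsto_natCast_atTop_atTop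
  have h2 := h1.eventually (gt_mem_nhds (show (0 : ℝ) < 1 / A by positivity))
  obtain ⟨M, hM, hM3⟩ := (h2.and (Filter.eventually_ge_atTop 3)).exists
  refine ⟨M, hM3, ?_⟩
  have e : -(d - 2) = 2 - d := by ring
  rw [e] at hM
  have h3 := mul_le_mul_of_nonneg_left hM.le hA.le
  rw [mul_one_div_cancel hA.ne'] at h3
  exact h3

theorem dist_le_cost {V : Type} {G : SimpleGraph V} {x y : V} (p : G.Walk x y) :
    cost G (fun _ => (1 : ℝ)) p = p.length := by
  unfold cost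
  rw [List.map_const', List.sum_replicate, nsmul_eq_mul, mul_one, SimpleGraph.Walk.length_darts]

/-- **JOB MUL** -/
theorem main : S_MUL := by
  intro hSTP hENG c C d L Z hc hC hd hL
  obtain ⟨M, hM3, hMA⟩ := exM d hd (6 * Z * (3 : ℝ) ^ d * (L + 1) + 1) (by positivity)
  have hM0 : (0 : ℝ) < M := by
    have : 0 < M := by omega
    exact_mod_cast this
  have hM3' : (3 : ℝ) ≤ M := by exact_mod_cast hM3
  have hρ0 : (0 : ℝ) < (L : ℝ) * M + 3 := by positivity
  obtain ⟨η, hη⟩ : ∃ η : ℝ, η = 1 / ((L : ℝ) * M + 3) := ⟨_, rfl⟩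
  have hη0 : 0 < η := by rw [hη]; exact one_div_pos.2 hρ0
  have hη1 : η ≤ 1 := by
    rw [hη, div_le_one hρ0]
    have : (0 : ℝ) ≤ (L : ℝ) * M := by positivity
    linarith
  have hchoice : 3 * ((Z : ℝ) * M * (3 / (M : ℝ)) ^ d) ≤ η / 2 := by
    have h1 : (3 / (M : ℝ)) ^ d = (3 : ℝ) ^ d * (M : ℝ) ^ (-d) := by
      rw [Real.div_rpow (by norm_num) hM0.le, Real.rpow_neg hM0.le]
      rfl
    have h2 : (M : ℝ) ^ (2 - d) = M * M * (M : ℝ) ^ (-d) := by
      have : (2 : ℝ) - d = 1 + 1 + -d := by ring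
      rw [this, Real.rpow_add hM0, Real.rpow_add hM0, Real.rpow_one]
    have h3 : (0 : ℝ) ≤ (M : ℝ) ^ (2 - d) := Real.rpow_nonneg hM0.le _
    have h4 : 6 * Z * (3 : ℝ) ^ d * (L + 1) * (M : ℝ) ^ (2 - d) ≤ 1 := by
      have : (6 * Z * (3 : ℝ) ^ d * (L + 1) + 1) * (M : ℝ) ^ (2 - d) =
          6 * Z * (3 : ℝ) ^ d * (L + 1) * (M : ℝ) ^ (2 - d) + (M : ℝ) ^ (2 - d) := by ring
      rw [this] at hMA
      linarith
    have h5 : (L : ℝ) * M + 3 ≤ (L + 1) * M := by linarith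
    have h6 : (0 : ℝ) ≤ 6 * Z * (3 : ℝ) ^ d * (M * (M : ℝ) ^ (-d)) := by positivity
    have h7 : 6 * Z * (3 : ℝ) ^ d * (M * (M : ℝ) ^ (-d)) * ((L : ℝ) * M + 3) ≤ 1 := by
      refine le_trans (mul_le_mul_of_nonneg_left h5 h6) ?_
      refine le_trans (le_of_eq ?_) h4
      rw [h2]
      ring
    rw [h1, hη]
    have h8 : 6 * Z * (3 : ℝ) ^ d * (M * (M : ℝ) ^ (-d)) ≤ 1 / ((L : ℝ) * M + 3) := by
      rw [le_div_iff₀ hρ0]
      exact h7
    have e : 3 * ((Z : ℝ) * M * ((3 : ℝ) ^ d * (M : ℝ) ^ (-d))) =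
        6 * Z * (3 : ℝ) ^ d * (M * (M : ℝ) ^ (-d)) / 2 := by ring
    rw [e]
    linarith
  refine ⟨M, 1 - η / 2, hM3, by linarith, by linarith, ?_⟩
  intro V G _ hG hS k
  induction k with
  | zero =>
    refine ⟨fun _ => 1, fun _ => zero_le_one, fun _ => by simp, ?_, ?_⟩
    · intro x y p
      rw [dist_le_cost, pow_zero]
      have h1 : (G.dist x y : ℝ) ≤ p.length := by exact_mod_cast SimpleGraph.dist_le p
      linarith
    · intro x R hR
      rw [pow_zero] at hR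
      have h1 := hG.up x R hR
      simp only [one_pow, sum_const, nsmul_eq_mul, mul_one, pow_zero]
      exact h1
  | succ k ih =>
    obtain ⟨w, w0, w1, w2, w3⟩ := ih
    have hr : 1 ≤ M ^ k := Nat.one_le_pow _ _ (by omega)
    obtain ⟨X, hX, hF⟩ := hS (M ^ k) hr
    have hcast : ((M ^ k : ℕ) : ℝ) = (M : ℝ) ^ k := by push_cast; rfl
    have hpos : (0 : ℝ) < (M : ℝ) ^ k := by positivity
    have hU : 0 ≤ C * (1 - η / 2) ^ k := mul_nonneg (by linarith) (pow_nonneg (by linarith) _)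
    refine ⟨nw G w X (M ^ k) η, ?_, ?_, ?_, ?_⟩
    · intro v
      unfold nw
      refine mul_nonneg (w0 v) ?_
      split_ifs <;> linarith
    · intro v
      unfold nw
      rw [pow_succ]
      refine mul_le_mul (w1 v) ?_ ?_ (by positivity)
      · split_ifs <;> linarith
      · split_ifs <;> linarith
    · have h1 := hSTP V G hG.conn w (M ^ k) L M X hr w0 (by rw [hcast]; exact w2) hX
      rw [← hη] at h1
      intro x y p
      have h2 := h1 x y p
      rw [hcast] at h2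
      have h3 : 2 * (M : ℝ) ^ k ≤ (M : ℝ) ^ (k + 1) := by
        rw [pow_succ]
        nlinarith
      linarith
    · intro x R hR
      have h1 := hENG V G c C d hG w (M ^ k) Z M X η (C * (1 - η / 2) ^ k) hr (by omega) hη0.le hη1
        hU w0 w3 hF x R (by rw [pow_succ, mul_comm] at hR; exact hR)
      refine h1.trans ?_
      have hRd : (0 : ℝ) ≤ (R : ℝ) ^ d := Real.rpow_nonneg (Nat.cast_nonneg _) _
      apply mul_le_mul_of_nonneg_right _ hRd
      have e2 : C * (1 - η / 2) ^ (k + 1) = C * (1 - η / 2) ^ k * (1 - η / 2) := by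
        rw [pow_succ]
        ring
      rw [e2]
      apply mul_le_mul_of_nonneg_left _ hU
      have e3 : η ^ 2 ≤ η := by nlinarith
      nlinarith

end Pool.Agent.Q293.SD.MulJ
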