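import Pool.Agent.Q293.SD.Stm

/-!
# Project SD, job OCC: the expected occupation
-/

set_option autoImplicit false

namespace Pool.Agent.Q293.SD.OccJ

open Finset Pool.Agent.Q293.SD

theorem main : S_OCC := by
  intro hLAW hENA hENT hCMP V G _ c C d hGr o s t W w A hs hW0 hWw hA
  classical
  have hG := hGr.conn
  have hC0 : 0 ≤ C := le_trans zero_le_one hGr.C1
  have hw0 : 0 ≤ w := (hW0 o).trans (hWw o)
  have hA0 : 0 ≤ A := (Finset.sum_nonneg fun y _ => hW0 y).trans (hA o)
  have hs0 : (0 : ℝ) < s := by exact_mod_cast hs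
  have hc0 := hGr.c0
  have hsd : (0 : ℝ) < (s : ℝ) ^ d := Real.rpow_pos_of_pos hs0 d
  have law0 : ∀ k x, 0 ≤ law G o k x := fun k x => (hLAW V G c C d hGr o k).1 x
  have deg1 : ∀ x, (1 : ℝ) ≤ G.degree x := fun x => by
    have := hGr.deg0 x
    exact_mod_cast this
  have dn0 : ∀ k x, 0 ≤ dn G o k x := fun k x =>
    div_nonneg (law0 k x) (le_trans zero_le_one (deg1 x))
  have dnle : ∀ k x, dn G o k x ≤ law G o k x := fun k x =>
    div_le_self (law0 k x) (deg1 x)
  have occ0 : ∀ u x, 0 ≤ occ G o u x := fun u x => Finset.sum_nonneg fun k _ => dn0 k x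
  have hel0 : ∀ k x, 0 ≤ hel G o k x := fun k x => Finset.sum_nonneg fun b _ => sq_nonneg _
  have balsub : ∀ i j, i ≤ j → bal G o i ⊆ bal G o j := by
    intro i j hij x hx
    rw [hGr.mem] at hx ⊢
    exact hx.trans hij
  set S : Finset V := bal G o t with hS
  set S' : Finset V := bal G o (t + s) with hS'
  -- Step 1
  have h1 : ∑ k ∈ range t, ex G o k W ≤ C * ∑ y ∈ S, W y * occ G o t y := by
    have h2 : ∀ k ∈ range t, ex G o k W = ∑ x ∈ S, law G o k x * W x := by
      intro k hk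
      exact (hLAW V G c C d hGr o k).2.2.2.1 S W
        (balsub k t (le_of_lt (Finset.mem_range.1 hk)))
    rw [Finset.sum_congr rfl h2, Finset.sum_comm, Finset.mul_sum]
    refine Finset.sum_le_sum fun y _ => ?_
    rw [occ, Finset.mul_sum, Finset.mul_sum]
    refine Finset.sum_le_sum fun k _ => ?_
    have h3 : law G o k y = dn G o k y * G.degree y := by
      rw [dn, div_mul_cancel₀]
      exact ne_of_gt (lt_of_lt_of_le zero_lt_one (deg1 y))
    rw [h3]
    have h4 := hGr.degC y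
    have h5 : 0 ≤ dn G o k y * W y := mul_nonneg (dn0 k y) (hW0 y)
    calc dn G o k y * (G.degree y : ℝ) * W y = (G.degree y : ℝ) * (dn G o k y * W y) := by ring
      _ ≤ C * (dn G o k y * W y) := mul_le_mul_of_nonneg_right h4 h5
      _ = C * (W y * dn G o k y) := by ring
  -- Step 2: the pointwise bound
  have h2 : ∀ y, occ G o t y ≤ 4 / (c * (s : ℝ) ^ d) * (∑ z ∈ bal G y s, occ G o (t + s) z) +
      4 * s * (∑ a ∈ bal G y s, ∑ k ∈ range (t + s), hel G o k a) := by
    intro y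
    have e1 : (∑ a ∈ bal G y s, ∑ k ∈ range (t + s), hel G o k a) =
        ∑ k ∈ range (t + s), ∑ a ∈ bal G y s, hel G o k a := Finset.sum_comm
    have p1 : 0 ≤ 4 / (c * (s : ℝ) ^ d) * (∑ z ∈ bal G y s, occ G o (t + s) z) :=
      mul_nonneg (by positivity) (Finset.sum_nonneg fun z _ => occ0 _ z)
    have p2 : 0 ≤ 4 * s * (∑ k ∈ range (t + s), ∑ a ∈ bal G y s, hel G o k a) :=
      mul_nonneg (by positivity)
        (Finset.sum_nonneg fun k _ => Finset.sum_nonneg fun a _ => hel0 k a)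
    rw [e1]
    by_cases hg : 4 * s * (∑ k ∈ range (t + s), ∑ a ∈ bal G y s, hel G o k a) ≤ occ G o t y
    · have h3 : ∀ z ∈ bal G y s, occ G o t y ≤ 4 * occ G o (t + s) z := fun z hz =>
        hCMP hLAW V G c C d hGr o y z s t ((hGr.mem y s z).1 hz) hg
      have h4 : ((bal G y s).card : ℝ) * occ G o t y ≤
          4 * ∑ z ∈ bal G y s, occ G o (t + s) z := by
        rw [← nsmul_eq_mul, ← Finset.sum_const, Finset.mul_sum]
        exact Finset.sum_le_sum h3
      have h5 : c * (s : ℝ) ^ d * occ G o t y ≤ 4 * ∑ z ∈ bal G y s, occ G o (t + s) z :=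
        (mul_le_mul_of_nonneg_right (hGr.low y s hs) (occ0 t y)).trans h4
      have h6 : occ G o t y ≤
          4 / (c * (s : ℝ) ^ d) * (∑ z ∈ bal G y s, occ G o (t + s) z) := by
        rw [div_mul_eq_mul_div, le_div_iff₀ (by positivity)]
        linarith
      linarith
    · push Not at hg
      linarith
  -- Step 3: sums over S
  have hmem : ∀ y z, (y ∈ S ∧ z ∈ bal G y s) ↔ (y ∈ (bal G z s).filter (· ∈ S) ∧ z ∈ S') := by
    intro y z
    rw [Finset.mem_filter, hS, hS', hGr.mem, hGr.mem, hGr.mem, hGr.mem,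
      SimpleGraph.dist_comm (u := z) (v := y)]
    have h3 := hG.dist_triangle (u := o) (v := y) (w := z)
    constructor
    · rintro ⟨h4, h5⟩
      exact ⟨⟨h5, h4⟩, by omega⟩
    · rintro ⟨⟨h4, h5⟩, -⟩
      exact ⟨h5, h4⟩
  have h3 : ∑ y ∈ S, W y * (∑ z ∈ bal G y s, occ G o (t + s) z) ≤ A * ((t : ℝ) + s) := by
    have e1 : ∑ y ∈ S, W y * (∑ z ∈ bal G y s, occ G o (t + s) z) =
        ∑ z ∈ S', ∑ y ∈ (bal G z s).filter (· ∈ S), W y * occ G o (t + s) z := by
      simp_rw [Finset.mul_sum]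
      exact Finset.sum_comm' hmem
    rw [e1]
    have e2 : ∀ z ∈ S', ∑ y ∈ (bal G z s).filter (· ∈ S), W y * occ G o (t + s) z ≤
        A * occ G o (t + s) z := by
      intro z _
      rw [← Finset.sum_mul]
      refine mul_le_mul_of_nonneg_right ?_ (occ0 _ z)
      exact (Finset.sum_le_sum_of_subset_of_nonneg (Finset.filter_subset _ _)
        (fun y _ _ => hW0 y)).trans (hA z)
    refine (Finset.sum_le_sum e2).trans ?_
    rw [← Finset.mul_sum]
    refine mul_le_mul_of_nonneg_left ?_ hA0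
    simp only [occ]
    rw [Finset.sum_comm]
    have e3 : ∀ k ∈ range (t + s), ∑ z ∈ S', dn G o k z ≤ 1 := by
      intro k hk
      rw [← (hLAW V G c C d hGr o k).2.2.1 S'
        (balsub k (t + s) (le_of_lt (Finset.mem_range.1 hk)))]
      exact Finset.sum_le_sum fun z _ => dnle k z
    refine (Finset.sum_le_sum e3).trans ?_
    rw [Finset.sum_const, Finset.card_range, nsmul_eq_mul, mul_one]
    push_cast
    exact le_refl _
  have h4 : ∑ y ∈ S, W y * (∑ a ∈ bal G y s, ∑ k ∈ range (t + s), hel G o k a) ≤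
      w * (C * (s : ℝ) ^ d) * ent G o (t + s) := by
    have e1 : ∑ y ∈ S, W y * (∑ a ∈ bal G y s, ∑ k ∈ range (t + s), hel G o k a) =
        ∑ a ∈ S', ∑ y ∈ (bal G a s).filter (· ∈ S),
          W y * ∑ k ∈ range (t + s), hel G o k a := by
      simp_rw [Finset.mul_sum (s := bal G _ s)]
      exact Finset.sum_comm' hmem
    rw [e1]
    have e2 : ∀ a ∈ S', ∑ y ∈ (bal G a s).filter (· ∈ S),
        W y * ∑ k ∈ range (t + s), hel G o k a ≤
        w * (C * (s : ℝ) ^ d) * ∑ k ∈ range (t + s), hel G o k a := by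
      intro a _
      rw [← Finset.sum_mul]
      refine mul_le_mul_of_nonneg_right ?_ (Finset.sum_nonneg fun k _ => hel0 k a)
      have e3 : ∑ y ∈ (bal G a s).filter (· ∈ S), W y ≤ ∑ y ∈ bal G a s, w :=
        (Finset.sum_le_sum_of_subset_of_nonneg (Finset.filter_subset _ _)
          (fun y _ _ => hW0 y)).trans (Finset.sum_le_sum fun y _ => hWw y)
      refine e3.trans ?_
      rw [Finset.sum_const, nsmul_eq_mul, mul_comm]
      exact mul_le_mul_of_nonneg_left (hGr.up a s hs) hw0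
    refine (Finset.sum_le_sum e2).trans ?_
    rw [← Finset.mul_sum]
    refine mul_le_mul_of_nonneg_left ?_ (by positivity)
    rw [Finset.sum_comm]
    exact hENT hLAW hENA V G c C d hGr o (t + s) S'
  refine h1.trans (mul_le_mul_of_nonneg_left ?_ hC0)
  have h5 : ∑ y ∈ S, W y * occ G o t y ≤
      4 / (c * (s : ℝ) ^ d) * (∑ y ∈ S, W y * (∑ z ∈ bal G y s, occ G o (t + s) z)) +
      4 * s * (∑ y ∈ S, W y * (∑ a ∈ bal G y s, ∑ k ∈ range (t + s), hel G o k a)) := by
    rw [Finset.mul_sum, Finset.mul_sum, ← Finset.sum_add_distrib]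
    refine Finset.sum_le_sum fun y _ => ?_
    have := mul_le_mul_of_nonneg_left (h2 y) (hW0 y)
    linarith
  have h6 : 4 / (c * (s : ℝ) ^ d) *
      (∑ y ∈ S, W y * (∑ z ∈ bal G y s, occ G o (t + s) z)) ≤
      4 / (c * (s : ℝ) ^ d) * (A * ((t : ℝ) + s)) :=
    mul_le_mul_of_nonneg_left h3 (by positivity)
  have h7 : 4 * s * (∑ y ∈ S, W y * (∑ a ∈ bal G y s, ∑ k ∈ range (t + s), hel G o k a)) ≤
      4 * s * (w * (C * (s : ℝ) ^ d) * ent G o (t + s)) :=
    mul_le_mul_of_nonneg_left h4 (by positivity)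
  calc ∑ y ∈ S, W y * occ G o t y ≤ _ := h5
    _ ≤ 4 / (c * (s : ℝ) ^ d) * (A * ((t : ℝ) + s)) +
        4 * s * (w * (C * (s : ℝ) ^ d) * ent G o (t + s)) := add_le_add h6 h7
    _ = _ := by ring

end Pool.Agent.Q293.SD.OccJ
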