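import Pool.Agent.Q293.SD.Stm
import Pool.Agent.Helper479.Bond.VK

/-!
# Project SD, job PLA: planar graphs have no `K_{3,3}` model
-/

set_option autoImplicit false

namespace Pool.Agent.Q293.SD.PlaJ

open Pool.Agent.Q293.SD

variable {V : Type}

/-- The part of the drawing inside a vertex set. -/
def Dr (G : SimpleGraph V) (arc : Sym2 V → Set ℂ) (X : Set V) : Set ℂ :=
  {z | ∃ u ∈ X, ∃ v ∈ X, G.Adj u v ∧ z ∈ arc s(u, v)}

theorem arc_joined {G : SimpleGraph V} {p : V → ℂ} {arc : Sym2 V → Set ℂ}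
    (ha : ∀ u v, G.Adj u v → ∃ γ : Path (p u) (p v), Function.Injective γ ∧
      Set.range γ = arc s(u, v)) {u v : V} {X : Set V} (hu : u ∈ X) (hv : v ∈ X)
    (h : G.Adj u v) : JoinedIn (Dr G arc X) (p u) (p v) := by
  obtain ⟨γ, _, hγ⟩ := ha u v h
  exact ⟨γ, fun t => ⟨u, hu, v, hv, h, by rw [← hγ]; exact ⟨t, rfl⟩⟩⟩

theorem walk_joined {G : SimpleGraph V} {p : V → ℂ} {arc : Sym2 V → Set ℂ}
    (ha : ∀ u v, G.Adj u v → ∃ γ : Path (p u) (p v), Function.Injective γ ∧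
      Set.range γ = arc s(u, v)) {X : Set V} {a b : V} (w : G.Walk a b) :
    (∀ u ∈ w.support, u ∈ X) → p a ∈ Dr G arc X → JoinedIn (Dr G arc X) (p a) (p b) := by
  induction w with
  | nil => intro _ h; exact JoinedIn.refl h
  | @cons a b c hab w ih =>
    intro hw h
    have h2 := arc_joined ha (X := X) (hw a (by simp)) (hw b (by simp)) hab
    exact h2.trans (ih (fun u hu => hw u (by simp [hu])) h2.target_mem)

theorem branch_joined {G : SimpleGraph V} {p : V → ℂ} {arc : Sym2 V → Set ℂ}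
    (ha : ∀ u v, G.Adj u v → ∃ γ : Path (p u) (p v), Function.Injective γ ∧
      Set.range γ = arc s(u, v)) {A B : Set V} (hA : Cn G A) (hB : Cn G B) {x y : V}
    (hx : x ∈ A) (hy : y ∈ B) (h : ∃ u ∈ A, ∃ v ∈ B, G.Adj u v) :
    JoinedIn (Dr G arc (A ∪ B)) (p x) (p y) := by
  obtain ⟨u, hu, v, hv, huv⟩ := h
  have h0 := arc_joined ha (X := A ∪ B) (Or.inl hu) (Or.inr hv) huv
  obtain ⟨w1, hw1⟩ := hA.2 u hu x hx
  obtain ⟨w2, hw2⟩ := hB.2 v hv y hy
  have h1 := walk_joined ha (X := A ∪ B) w1 (fun z hz => Or.inl (hw1 z hz)) h0.source_mem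
  have h2 := walk_joined ha (X := A ∪ B) w2 (fun z hz => Or.inr (hw2 z hz)) h0.target_mem
  exact (h1.symm.trans h0).trans h2

theorem Dr_disjoint {G : SimpleGraph V} {p : V → ℂ} {arc : Sym2 V → Set ℂ}
    (h4 : ∀ e ∈ G.edgeSet, ∀ e' ∈ G.edgeSet, e ≠ e' → ∀ z, z ∈ arc e → z ∈ arc e' →
      ∃ w, w ∈ e ∧ w ∈ e' ∧ z = p w) {X Y : Set V} (h : Disjoint X Y) :
    Disjoint (Dr G arc X) (Dr G arc Y) := by
  rw [Set.disjoint_left]
  rintro z ⟨u, hu, v, hv, ha, hz⟩ ⟨u', hu', v', hv', ha', hz'⟩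
  have hne : ∀ a ∈ X, ∀ b ∈ Y, a ≠ b := fun a ha b hb hab => Set.disjoint_left.mp h ha (hab ▸ hb)
  have hin : ∀ w, w ∈ s(u, v) → w ∈ X := by
    intro w hw
    rcases Sym2.mem_iff.1 hw with rfl | rfl
    · exact hu
    · exact hv
  have hin' : ∀ w, w ∈ s(u', v') → w ∈ Y := by
    intro w hw
    rcases Sym2.mem_iff.1 hw with rfl | rfl
    · exact hu'
    · exact hv'
  have he : s(u, v) ≠ s(u', v') := by
    intro he
    have h5 : u ∈ s(u', v') := by
      rw [← he]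
      exact Sym2.mem_mk_left u v
    exact hne u hu u (hin' u h5) rfl
  obtain ⟨w, hw, hw', _⟩ := h4 _ ((SimpleGraph.mem_edgeSet G).2 ha) _
    ((SimpleGraph.mem_edgeSet G).2 ha') he z hz hz'
  exact hne w (hin w hw) w (hin' w hw') rfl

theorem main : S_PLA := by
  classical
  rintro V G ⟨p, arc, _, h2, _, h4⟩ ⟨A, B, hA, hB, hAA, hBB, hAB, hadj⟩
  let g : Fin 6 → Finset V := fun i =>
    if h : i.1 < 3 then A ⟨i.1, h⟩ else B ⟨i.1 - 3, by omega⟩
  have g1 : ∀ (i : Fin 6) (h : i.1 < 3), g i = A ⟨i.1, h⟩ := fun i h => dif_pos h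
  have g2 : ∀ (i : Fin 6) (h : ¬ i.1 < 3), g i = B ⟨i.1 - 3, by omega⟩ := fun i h => dif_neg h
  have hcon : ∀ i, Cn G (g i : Set V) := by
    intro i
    by_cases h : i.1 < 3
    · rw [g1 i h]
      exact hA _
    · rw [g2 i h]
      exact hB _
  have hdisj : ∀ i j, i ≠ j → Disjoint (g i : Set V) (g j : Set V) := by
    intro i j hij
    have hij' : i.1 ≠ j.1 := fun h => hij (Fin.ext h)
    rw [Finset.disjoint_coe]
    by_cases hi : i.1 < 3 <;> by_cases hj : j.1 < 3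
    · rw [g1 i hi, g1 j hj]
      refine hAA _ _ (fun h => hij' ?_)
      have h5 := congrArg Fin.val h
      exact h5
    · rw [g1 i hi, g2 j hj]
      exact hAB _ _
    · rw [g2 i hi, g1 j hj]
      exact (hAB _ _).symm
    · rw [g2 i hi, g2 j hj]
      refine hBB _ _ (fun h => hij' ?_)
      have h5 : i.1 - 3 = j.1 - 3 := congrArg Fin.val h
      omega
  choose x hx using fun i => (hcon i).1
  refine Pool.Agent.Helper479.Bond.VK.k33_joined (fun i => p (x i))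
    (fun a b => Dr G arc ((g a : Set V) ∪ (g b : Set V))) ?_ ?_
  · intro a b ha hb
    apply branch_joined h2 (hcon a) (hcon b) (hx a) (hx b)
    have hb' : ¬ b.1 < 3 := by omega
    obtain ⟨u, hu, v, hv, huv⟩ := hadj ⟨a.1, ha⟩ ⟨b.1 - 3, by omega⟩
    refine ⟨u, ?_, v, ?_, huv⟩
    · rw [g1 a ha]
      exact hu
    · rw [g2 b hb']
      exact hv
  · intro a b c d ha hb hc hd hac hbd
    apply Dr_disjoint h4
    rw [Set.disjoint_union_left, Set.disjoint_union_right, Set.disjoint_union_right]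
    refine ⟨⟨hdisj _ _ hac, hdisj _ _ ?_⟩, ⟨hdisj _ _ ?_, hdisj _ _ hbd⟩⟩
    · intro h
      rw [h] at ha
      omega
    · intro h
      rw [h] at hb
      omega

end Pool.Agent.Q293.SD.PlaJ
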