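import Pool.Agent.Q293.SD.Stm

/-!
Job SD-QLI: walks of the quotient lift to walks of the graph when the cells are connected.
-/

set_option autoImplicit false

namespace Pool.Agent.Q293.SD.QliJ

open Pool.Agent.Q293.SD

theorem cellw {V : Type} (G : SimpleGraph V) (a : V → V)
    (hc : ∀ v, ∃ p : G.Walk v (a v), ∀ u ∈ p.support, a u = a v) (u v : V) (h : a u = a v) :
    ∃ q : G.Walk u v, ∀ x ∈ q.support, a x = a u := by
  obtain ⟨p, hp⟩ := hc u
  obtain ⟨p', hp'⟩ := hc v
  have p'' : ∃ q : G.Walk (a u) v, ∀ x ∈ q.support, a x = a u := by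
    rw [h]
    refine ⟨p'.reverse, fun x hx => ?_⟩
    rw [SimpleGraph.Walk.support_reverse, List.mem_reverse] at hx
    exact hp' x hx
  obtain ⟨q, hq⟩ := p''
  refine ⟨p.append q, fun x hx => ?_⟩
  rw [SimpleGraph.Walk.mem_support_append_iff] at hx
  rcases hx with hx | hx
  · exact hp x hx
  · exact hq x hx

theorem main : S_QLI := by
  intro V G a hc α β p
  induction p with
  | nil =>
    intro u v hu hv
    obtain ⟨q, hq⟩ := cellw G a hc u v (hu.trans hv.symm)
    refine ⟨q, fun x hx => ?_⟩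
    rw [SimpleGraph.Walk.support_nil, List.mem_singleton, hq x hx, hu]
  | cons h p' ih =>
    intro u v hu hv
    have h' := h
    obtain ⟨hne, u1, v1, hadj, hu1, hv1⟩ := h'
    obtain ⟨q1, hq1⟩ := cellw G a hc u u1 (hu.trans hu1.symm)
    obtain ⟨q2, hq2⟩ := ih v1 v hv1 hv
    refine ⟨q1.append (SimpleGraph.Walk.cons hadj q2), fun x hx => ?_⟩
    rw [SimpleGraph.Walk.mem_support_append_iff, SimpleGraph.Walk.support_cons,
      List.mem_cons] at hx
    rw [SimpleGraph.Walk.support_cons, List.mem_cons]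
    rcases hx with hx | hx | hx
    · left
      rw [hq1 x hx, hu]
    · left
      rw [hx, hu1]
    · right
      exact hq2 x hx

end Pool.Agent.Q293.SD.QliJ
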