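import Pool.Agent.Q293.SD.Stm

set_option autoImplicit false

namespace Pool.Agent.Q293.SD.QwkJ

open Pool.Agent.Q293.SD

theorem main : S_QWK := by
  intro V G a u v p
  induction p with
  | nil =>
    refine ⟨SimpleGraph.Walk.nil, ?_⟩
    intro x hx
    rw [SimpleGraph.Walk.support_nil, List.mem_singleton] at hx
    exact ⟨_, SimpleGraph.Walk.start_mem_support _, hx.symm⟩
  | @cons u v w h p ih =>
    obtain ⟨q, hq⟩ := ih
    by_cases he : a u = a v
    · refine ⟨q.copy he.symm rfl, ?_⟩
      intro x hx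
      rw [SimpleGraph.Walk.support_copy] at hx
      obtain ⟨y, hy, hyx⟩ := hq x hx
      exact ⟨y, by rw [SimpleGraph.Walk.support_cons]; exact List.mem_cons_of_mem _ hy, hyx⟩
    · have hadj : (quo G a).Adj (a u) (a v) := ⟨he, u, v, h, rfl, rfl⟩
      refine ⟨SimpleGraph.Walk.cons hadj q, ?_⟩
      intro x hx
      rw [SimpleGraph.Walk.support_cons, List.mem_cons] at hx
      rcases hx with rfl | hx
      · exact ⟨u, SimpleGraph.Walk.start_mem_support _, rfl⟩
      · obtain ⟨y, hy, hyx⟩ := hq x hx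
        exact ⟨y, by rw [SimpleGraph.Walk.support_cons]; exact List.mem_cons_of_mem _ hy, hyx⟩

end Pool.Agent.Q293.SD.QwkJ
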