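import Pool.Agent.Q293.SD.Stm

set_option autoImplicit false

namespace Pool.Agent.Q293.SD.ResJ

open Finset Pool.Agent.Q293.SD

theorem K3.mono {V : Type} {G : SimpleGraph V} {h h' : ℕ} (hh : h ≤ h') (H : K3 G h') : K3 G h := by
  obtain ⟨A, B, h1, h2, h3, h4, h5, h6⟩ := H
  refine ⟨A, fun j => B (Fin.castLE hh j), h1, fun j => h2 _, h3, ?_, fun i j => h5 _ _,
    fun i j => h6 _ _⟩
  intro i j hij
  exact h4 _ _ (fun h => hij ((Fin.castLE_injective hh) h))

/-- The conclusion of MUL. -/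
def S_MULC : Prop := ∀ (c C d : ℝ) (L Z : ℕ), 0 < c → 1 ≤ C → 2 < d → 1 ≤ L →
  ∃ (M : ℕ) (θ : ℝ), 3 ≤ M ∧ 0 < θ ∧ θ < 1 ∧ ∀ (V : Type) (G : SimpleGraph V) [G.LocallyFinite],
    Gr G c C d → Skel G d L Z M → WF G C d M θ

theorem gr_of {V : Type} (G : SimpleGraph V) [G.LocallyFinite] (c C d : ℝ) (hc : 0 < c)
    (hd : 2 < d) (hinf : Infinite V) (hconn : G.Connected)
    (hg : ∀ (v : V) (n : ℕ), 1 ≤ n → c * (n : ℝ) ^ d < (({u | G.dist v u ≤ n} : Set V).ncard : ℝ) ∧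
      (({u | G.dist v u ≤ n} : Set V).ncard : ℝ) < C * (n : ℝ) ^ d) : Gr G c (max C 1) d := by
  have hfin1 : ∀ (v : V) (n : ℕ), 1 ≤ n → ({u | G.dist v u ≤ n} : Set V).Finite := by
    intro v n hn
    apply Set.finite_of_ncard_pos
    have h1 := (hg v n hn).1
    have h2 : 0 < c * (n : ℝ) ^ d := mul_pos hc (Real.rpow_pos_of_pos (by exact_mod_cast hn) _)
    have h3 : (0 : ℝ) < (({u | G.dist v u ≤ n} : Set V).ncard : ℝ) := h2.trans h1
    exact_mod_cast h3
  have hfin : ∀ (v : V) (n : ℕ), ({u | G.dist v u ≤ n} : Set V).Finite := by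
    intro v n
    refine (hfin1 v (n + 1) (by omega)).subset ?_
    intro u hu
    simp only [Set.mem_setOf_eq] at hu ⊢
    omega
  have hmem : ∀ (v : V) (n : ℕ) (u : V), u ∈ bal G v n ↔ G.dist v u ≤ n := by
    intro v n u
    unfold bal
    rw [dif_pos (hfin v n)]
    simp
  have hcard : ∀ (v : V) (n : ℕ), ((bal G v n).card : ℝ) =
      (({u | G.dist v u ≤ n} : Set V).ncard : ℝ) := by
    intro v n
    rw [Set.ncard_eq_toFinset_card _ (hfin v n)]
    congr 2
    ext u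
    rw [hmem]; simp
  refine ⟨hconn, hmem, hc, le_max_right _ _, hd, ?_, ?_, ?_, ?_⟩
  · intro v
    rw [SimpleGraph.degree_pos_iff_exists_adj]
    obtain ⟨w, hw⟩ := exists_ne v
    have hr := hconn.preconnected v w
    obtain ⟨p⟩ := hr
    cases p with
    | nil => exact absurd rfl hw
    | cons h _ => exact ⟨_, h⟩
  · intro v
    have h1 : (G.degree v : ℝ) ≤ (bal G v 1).card := by
      rw [← SimpleGraph.card_neighborFinset_eq_degree]
      norm_cast
      apply Finset.card_le_card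
      intro u hu
      rw [SimpleGraph.mem_neighborFinset] at hu
      rw [hmem, SimpleGraph.dist_eq_one_iff_adj.mpr hu]
    rw [hcard] at h1
    have h2 := (hg v 1 le_rfl).2
    simp only [Nat.cast_one, Real.one_rpow, mul_one] at h2
    exact (h1.trans h2.le).trans (le_max_left _ _)
  · intro v n hn
    rw [hcard]; exact (hg v n hn).1.le
  · intro v n hn
    rw [hcard]
    refine (hg v n hn).2.le.trans ?_
    exact mul_le_mul_of_nonneg_right (le_max_left _ _) (by positivity)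

theorem main (h1 : S_SKEC) (h2 : S_MULC) (h3 : S_FINC) (h4 : S_PLA) :
    ∀ (c C d : ℝ) (h : ℕ), 0 < c → 2 < d → ∃ α K : ℝ, α < 1 / 2 ∧
      ∀ (V : Type) (G : SimpleGraph V) [G.LocallyFinite], Infinite V → G.Connected →
      (∀ (v : V) (n : ℕ), 1 ≤ n →
        c * (n : ℝ) ^ d < (({u | G.dist v u ≤ n} : Set V).ncard : ℝ) ∧
        (({u | G.dist v u ≤ n} : Set V).ncard : ℝ) < C * (n : ℝ) ^ d) →
      (IsPlanar G ∨ ¬ K3 G h) →
      ∀ (o : V) (t : ℕ), 1 ≤ t → ex G o t (fun x => (G.dist o x : ℝ)) ≤ K * (t : ℝ) ^ α := by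
  intro c C d h hc hd
  obtain ⟨Z, hZ⟩ := h1 c (max C 1) d (max h 3) hc (le_max_right _ _) hd (by omega)
  obtain ⟨M, θ, hM, hθ0, hθ1, hMul⟩ := h2 c (max C 1) d 9 Z hc (le_max_right _ _) hd (by norm_num)
  obtain ⟨α, K, hα, hK⟩ := h3 c (max C 1) d θ M hc (le_max_right _ _) hd hθ0 hθ1 hM
  refine ⟨α, K, hα, ?_⟩
  intro V G _ hinf hconn hg hpl o t ht
  have hGr := gr_of G c C d hc hd hinf hconn hg
  have hno : ¬ K3 G (max h 3) := by
    rcases hpl with hpl | hpl
    · exact fun H => h4 V G hpl (K3.mono (le_max_right _ _) H)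
    · exact fun H => hpl (K3.mono (le_max_left _ _) H)
  exact hK V G hGr (hMul V G hGr (hZ V G hGr hno M hM)) o t ht

end Pool.Agent.Q293.SD.ResJ
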