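import Pool.Agent.Q293.SD.Stm

/-!
# Project SD, job SKE: the skeleton
-/

set_option autoImplicit false

namespace Pool.Agent.Q293.SD.SkeJ

open Finset Pool.Agent.Q293.SD

/-- The initial piece of a walk up to the first vertex at distance `n` from `y`. -/
theorem first {V : Type} (G : SimpleGraph V) (hG : G.Connected) (y : V) (n : ℕ) :
    ∀ {x x' : V} (p : G.Walk x x'), G.dist y x ≤ n → n ≤ G.dist y x' →
    ∃ (x'' : V) (q : G.Walk x x''), (∀ u ∈ q.support, u ∈ p.support) ∧
      (∀ u ∈ q.support, G.dist y u ≤ n) ∧ G.dist y x'' = n := by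
  intro x x' p
  induction p with
  | nil =>
    intro h1 h2
    refine ⟨_, SimpleGraph.Walk.nil, fun u hu => hu, fun u hu => ?_, le_antisymm h1 h2⟩
    rw [SimpleGraph.Walk.support_nil, List.mem_singleton] at hu
    rw [hu]; exact h1
  | @cons a b c hab p ih =>
    intro h1 h2
    rcases Nat.lt_or_ge (G.dist y a) n with h | h
    · have h3 : G.dist y b ≤ n := by
        have h4 := hG.dist_triangle (u := y) (v := a) (w := b)
        rw [SimpleGraph.dist_eq_one_iff_adj.2 hab] at h4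
        omega
      obtain ⟨x'', q, hq1, hq2, hq3⟩ := ih h3 h2
      refine ⟨x'', SimpleGraph.Walk.cons hab q, fun u hu => ?_, fun u hu => ?_, hq3⟩
      · rw [SimpleGraph.Walk.support_cons, List.mem_cons] at hu ⊢
        rcases hu with rfl | hu
        · exact Or.inl rfl
        · exact Or.inr (hq1 u hu)
      · rw [SimpleGraph.Walk.support_cons, List.mem_cons] at hu
        rcases hu with rfl | hu
        · exact h1
        · exact hq2 u hu
    · refine ⟨a, SimpleGraph.Walk.nil, fun u hu => ?_, fun u hu => ?_, le_antisymm h1 h⟩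
      · rw [SimpleGraph.Walk.support_nil, List.mem_singleton] at hu
        rw [hu, SimpleGraph.Walk.support_cons]
        exact List.mem_cons_self
      · rw [SimpleGraph.Walk.support_nil, List.mem_singleton] at hu
        rw [hu]; exact h1

theorem main : S_SKE := by
  intro hCUT hCNT hVOR
  intro c C d h hc hC hd hh
  obtain ⟨K, hK⟩ := hCUT c C d h hc hC hd hh
  obtain ⟨Kc, hKc1, hKc⟩ := hCNT c C d hc hC hd
  refine ⟨⌈Kc * Kc * ((10 : ℝ) ^ d * (9 : ℝ) ^ d) * K⌉₊, ?_⟩
  intro V G _ hGr hK3 M hM r hr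
  classical
  have hG := hGr.conn
  set s : ℕ := M * r with hs
  have hrs : 3 * r ≤ s := Nat.mul_le_mul_right r hM
  have hs1 : 1 ≤ s := by omega
  obtain ⟨Y, a, hVor⟩ := hVOR V G hG r
  obtain ⟨Y', a', hVor'⟩ := hVOR V G hG s
  have tri : ∀ x y z : V, G.dist x z ≤ G.dist x y + G.dist y z := fun x y z =>
    hG.dist_triangle
  have com : ∀ x y : V, G.dist x y = G.dist y x := fun x y => SimpleGraph.dist_comm
  have hcut : ∀ y v : V, ∃ S : Finset V, S.card ≤ K * M ∧ (7 * s ≤ G.dist y v →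
      G.dist y v ≤ 9 * s → ∀ (x x' : V) (p : G.Walk x x'), G.dist y x ≤ s →
      G.dist v x' ≤ s → (∀ u ∈ p.support, G.dist y u ≤ 10 * s) →
      ∃ u ∈ p.support, a u ∈ S) := by
    intro y v
    by_cases h1 : 7 * s ≤ G.dist y v
    · by_cases h2 : G.dist y v ≤ 9 * s
      · obtain ⟨S, hS1, hS2⟩ := hK V G hGr hK3 r M Y a hr hM hVor y v h1 h2
        exact ⟨S, hS1, fun _ _ => hS2⟩
      · exact ⟨∅, by simp, fun _ h3 => absurd h3 h2⟩
    · exact ⟨∅, by simp, fun h3 => absurd h3 h1⟩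
  choose S hS1 hS2 using hcut
  refine ⟨{u | ∃ y ∈ Y', ∃ v ∈ Y', 7 * s ≤ G.dist y v ∧ G.dist y v ≤ 9 * s ∧
    G.dist y u ≤ 8 * s ∧ a u ∈ S y v}, ?_, ?_⟩
  · intro x x' p hxx
    have hxx' : 9 * s < G.dist x x' := by
      rw [hs, ← mul_assoc]; exact hxx
    have h1 := hVor'.near x
    have h2 := tri x (a' x) x'
    obtain ⟨x'', q, hq1, hq2, hq3⟩ := first G hG (a' x) (8 * s) p
      (by rw [com]; omega) (by omega)
    have h3 := hVor'.near x''
    have h4 := tri (a' x) x'' (a' x'')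
    have h5 := tri (a' x) (a' x'') x''
    have h6 := com x'' (a' x'')
    obtain ⟨u, hu1, hu2⟩ := hS2 (a' x) (a' x'') (by omega) (by omega) x x'' q
      (by rw [com]; exact h1) (by rw [com]; exact h3)
      (fun u hu => (hq2 u hu).trans (by omega))
    exact ⟨u, hq1 u hu1, a' x, hVor'.inY x, a' x'', hVor'.inY x'', by omega, by omega,
      hq2 u hu1, hu2⟩
  · intro x R hR
    have hR1 : s ≤ R := hR
    set Q : Finset V := (bal G x (10 * R)).filter (· ∈ Y') with hQ
    set Q2 : V → Finset V := fun y => (bal G y (9 * s)).filter (· ∈ Y') with hQ2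
    have hsR : (s : ℝ) = (M : ℝ) * r := by rw [hs]; push_cast; ring
    have hs0 : (0 : ℝ) < s := by exact_mod_cast hs1
    have hR0 : (0 : ℝ) < R := by exact_mod_cast (lt_of_lt_of_le hs1 hR1)
    have hQc : (Q.card : ℝ) ≤ Kc * ((10 : ℝ) ^ d * ((R : ℝ) / s) ^ d) := by
      have h1 := hKc V G hGr s Y' hs1 hVor'.sep x (10 * R) (by omega) Q (by
        intro y hy
        rw [hQ, Finset.mem_filter, hGr.mem] at hy
        exact ⟨hy.2, hy.1⟩)
      refine h1.trans (le_of_eq ?_)
      rw [← Real.mul_rpow (by norm_num) (by positivity)]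
      congr 2
      push_cast
      ring
    have hQ2c : ∀ y, ((Q2 y).card : ℝ) ≤ Kc * (9 : ℝ) ^ d := by
      intro y
      have h1 := hKc V G hGr s Y' hs1 hVor'.sep y (9 * s) (by omega) (Q2 y) (by
        intro z hz
        rw [hQ2, Finset.mem_filter, hGr.mem] at hz
        exact ⟨hz.2, hz.1⟩)
      refine h1.trans (le_of_eq ?_)
      congr 2
      push_cast
      field_simp
    refine ⟨Q.biUnion (fun y => (Q2 y).biUnion (fun v => S y v)), ?_, ?_⟩
    · have h1 : ∀ y, ((((Q2 y).biUnion (fun v => S y v)).card : ℕ) : ℝ) ≤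
          Kc * (9 : ℝ) ^ d * (K * M) := by
        intro y
        have h2 : ((Q2 y).biUnion (fun v => S y v)).card ≤ (Q2 y).card * (K * M) :=
          Finset.card_biUnion_le_card_mul _ _ _ (fun v _ => hS1 y v)
        calc ((((Q2 y).biUnion (fun v => S y v)).card : ℕ) : ℝ)
            ≤ (((Q2 y).card * (K * M) : ℕ) : ℝ) := by exact_mod_cast h2
          _ = ((Q2 y).card : ℝ) * (K * M) := by push_cast; ring
          _ ≤ Kc * (9 : ℝ) ^ d * (K * M) := by
              apply mul_le_mul_of_nonneg_right (hQ2c y); positivity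
      have h2 : ((Q.biUnion (fun y => (Q2 y).biUnion (fun v => S y v))).card : ℝ) ≤
          ∑ y ∈ Q, ((((Q2 y).biUnion (fun v => S y v)).card : ℕ) : ℝ) := by
        exact_mod_cast Finset.card_biUnion_le
      have h3 : ∑ y ∈ Q, ((((Q2 y).biUnion (fun v => S y v)).card : ℕ) : ℝ) ≤
          (Q.card : ℝ) * (Kc * (9 : ℝ) ^ d * (K * M)) := by
        calc ∑ y ∈ Q, ((((Q2 y).biUnion (fun v => S y v)).card : ℕ) : ℝ)
            ≤ ∑ _y ∈ Q, (Kc * (9 : ℝ) ^ d * (K * M)) := Finset.sum_le_sum (fun y _ => h1 y)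
          _ = _ := by rw [Finset.sum_const, nsmul_eq_mul]
      have h4 : (0 : ℝ) ≤ Kc * (9 : ℝ) ^ d * (K * M) := by positivity
      calc ((Q.biUnion (fun y => (Q2 y).biUnion (fun v => S y v))).card : ℝ)
          ≤ (Q.card : ℝ) * (Kc * (9 : ℝ) ^ d * (K * M)) := h2.trans h3
        _ ≤ (Kc * ((10 : ℝ) ^ d * ((R : ℝ) / s) ^ d)) * (Kc * (9 : ℝ) ^ d * (K * M)) :=
            mul_le_mul_of_nonneg_right hQc h4
        _ = (Kc * Kc * ((10 : ℝ) ^ d * (9 : ℝ) ^ d) * K) * (M * ((R : ℝ) / s) ^ d) := by ring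
        _ ≤ (⌈Kc * Kc * ((10 : ℝ) ^ d * (9 : ℝ) ^ d) * K⌉₊ : ℝ) * (M * ((R : ℝ) / s) ^ d) := by
            apply mul_le_mul_of_nonneg_right (Nat.le_ceil _); positivity
        _ = (⌈Kc * Kc * ((10 : ℝ) ^ d * (9 : ℝ) ^ d) * K⌉₊ : ℝ) * M *
              ((R : ℝ) / (M * r)) ^ d := by
            rw [← hsR]; ring
    · rintro v hv ⟨q, ⟨y, hy, z, hz, h7, h9, h8, hq⟩, hqv⟩
      refine ⟨a q, ?_, ?_⟩
      · simp only [Finset.mem_biUnion]
        refine ⟨y, ?_, z, ?_, hq⟩
        · rw [hQ, Finset.mem_filter, hGr.mem]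
          refine ⟨?_, hy⟩
          have h1 := tri x v y
          have h2 := tri v q y
          have h3 := com q v
          have h4 := com y q
          omega
        · rw [hQ2, Finset.mem_filter, hGr.mem]
          exact ⟨h9, hz⟩
      · have h1 := hVor.near q
        have h2 := tri (a q) q v
        have h3 := com q (a q)
        omega

end Pool.Agent.Q293.SD.SkeJ
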