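import Mathlib

/-!
# Project SD: subdiffusivity of the random walk on planar graphs of uniform polynomial growth

Definitions and statements of the lemma jobs.
-/

set_option autoImplicit false

namespace Pool.Agent.Q293.SD

open Finset

/-! ## The graph -/

/-- The ball as a finite set (empty if it is infinite, which never happens here). -/
noncomputable def bal {V : Type} (G : SimpleGraph V) (v : V) (n : ℕ) : Finset V := by
  classical exact if h : {u | G.dist v u ≤ n}.Finite then h.toFinset else ∅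

/-- The standing assumptions on the graph. -/
structure Gr {V : Type} (G : SimpleGraph V) [G.LocallyFinite] (c C d : ℝ) : Prop where
  conn : G.Connected
  mem : ∀ (v : V) (n : ℕ) (u : V), u ∈ bal G v n ↔ G.dist v u ≤ n
  c0 : 0 < c
  C1 : 1 ≤ C
  d2 : 2 < d
  deg0 : ∀ v, 0 < G.degree v
  degC : ∀ v, (G.degree v : ℝ) ≤ C
  low : ∀ (v : V) (n : ℕ), 1 ≤ n → c * (n : ℝ) ^ d ≤ (bal G v n).card
  up : ∀ (v : V) (n : ℕ), 1 ≤ n → ((bal G v n).card : ℝ) ≤ C * (n : ℝ) ^ d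

/-- `S` is non-empty and connected in `G`. -/
def Cn {V : Type} (G : SimpleGraph V) (S : Set V) : Prop :=
  S.Nonempty ∧ ∀ x ∈ S, ∀ y ∈ S, ∃ p : G.Walk x y, ∀ u ∈ p.support, u ∈ S

/-- `G` has a (finite) model of `K_{3,h}`. -/
def K3 {V : Type} (G : SimpleGraph V) (h : ℕ) : Prop :=
  ∃ (A : Fin 3 → Finset V) (B : Fin h → Finset V),
    (∀ i, Cn G (A i : Set V)) ∧ (∀ j, Cn G (B j : Set V)) ∧
    (∀ i j, i ≠ j → Disjoint (A i) (A j)) ∧ (∀ i j, i ≠ j → Disjoint (B i) (B j)) ∧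
    (∀ i j, Disjoint (A i) (B j)) ∧ ∀ i j, ∃ a ∈ A i, ∃ b ∈ B j, G.Adj a b

/-! ## The random walk -/

open Classical in
/-- The law of simple random walk from `o` at time `t`. -/
noncomputable def law {V : Type} (G : SimpleGraph V) [G.LocallyFinite] (o : V) : ℕ → V → ℝ
  | 0 => fun x => if x = o then 1 else 0
  | t + 1 => fun x => ∑ y ∈ G.neighborFinset x, law G o t y / G.degree y

/-- Expectation of `g (X_t)`. -/
noncomputable def ex {V : Type} (G : SimpleGraph V) [G.LocallyFinite] (o : V) (t : ℕ)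
    (g : V → ℝ) : ℝ := ∑' x, law G o t x * g x

/-- The density of the law with respect to the degree. -/
noncomputable def dn {V : Type} (G : SimpleGraph V) [G.LocallyFinite] (o : V) (t : ℕ)
    (x : V) : ℝ := law G o t x / G.degree x

/-- The Hellinger energy of the edges at `a` between times `k` and `k + 1`. -/
noncomputable def hel {V : Type} (G : SimpleGraph V) [G.LocallyFinite] (o : V) (k : ℕ)
    (a : V) : ℝ := ∑ b ∈ G.neighborFinset a, (√(dn G o k a) - √(dn G o (k + 1) b)) ^ 2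

/-- The entropy bound. -/
noncomputable def ent {V : Type} (G : SimpleGraph V) [G.LocallyFinite] (o : V) (T : ℕ) : ℝ :=
  Real.log (∑ x ∈ bal G o T, (G.degree x : ℝ))

/-- The occupation density up to time `t`. -/
noncomputable def occ {V : Type} (G : SimpleGraph V) [G.LocallyFinite] (o : V) (t : ℕ)
    (y : V) : ℝ := ∑ k ∈ range t, dn G o k y

/-- JOB LAW: basic facts.  (i) and (ii) by induction; (iii) by induction, exchanging sums and
using `x ∈ N(y) ↔ y ∈ N(x)` and `∑_{x ∈ N(y)} 1 / deg y = 1`; (iv) `tsum_eq_sum`;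
(v) exchange of sums. -/
def S_LAW : Prop := ∀ (V : Type) (G : SimpleGraph V) [G.LocallyFinite] (c C d : ℝ),
  Gr G c C d → ∀ (o : V) (k : ℕ),
  (∀ x, 0 ≤ law G o k x) ∧
  (∀ x, law G o k x ≠ 0 → G.dist o x ≤ k) ∧
  (∀ S : Finset V, bal G o k ⊆ S → ∑ x ∈ S, law G o k x = 1) ∧
  (∀ (S : Finset V) (g : V → ℝ), bal G o k ⊆ S → ex G o k g = ∑ x ∈ S, law G o k x * g x) ∧
  (∀ (S : Finset V) (g : V → ℝ), bal G o k ⊆ S →
    ex G o (k + 1) g = ∑ y ∈ S, dn G o k y * ∑ x ∈ G.neighborFinset y, g x)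

/-- JOB ENA: one step of the entropy.  With `a = dn k y`, `b = dn (k+1) x` for adjacent `y, x`
(then `b = 0` implies `a = 0`): `a log a - a log b ≥ a - b + (√a - √b)²`, because
`a log (a / b) = -2 a log √(b / a) ≥ -2 a (√(b / a) - 1)`.  Sum over `y ∈ S`, `x ∈ N(y)` with
`S = bal G o (k + 2)`: the terms `a - b` sum to `1 - 1 = 0`, `∑ a log a = ex k (log dn_k)`,
`∑ a log b = ex (k+1) (log dn_(k+1))`.  Terms with `y ∉ bal G o (k+2)` vanish. -/
def S_ENA : Prop := S_LAW → ∀ (V : Type) (G : SimpleGraph V) [G.LocallyFinite] (c C d : ℝ),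
  Gr G c C d → ∀ (o : V) (k : ℕ) (S : Finset V),
  ∑ a ∈ S, hel G o k a ≤ ex G o k (fun x => Real.log (dn G o k x)) -
    ex G o (k + 1) (fun x => Real.log (dn G o (k + 1) x))

/-- JOB ENT: telescoping.  `ex 0 (log dn_0) = - log (deg o) ≤ 0`, and Jensen:
`- ex T (log dn_T) = ∑ p log (deg / p) ≤ log (∑_{bal o T} deg)` (`p = law T`, sum over the `x` with
`p x > 0`; concavity of `log` or `log z ≤ z / m - 1 + log m`). -/
def S_ENT : Prop := S_LAW → S_ENA → ∀ (V : Type) (G : SimpleGraph V) [G.LocallyFinite]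
  (c C d : ℝ), Gr G c C d → ∀ (o : V) (T : ℕ) (S : Finset V),
  ∑ k ∈ range T, ∑ a ∈ S, hel G o k a ≤ ent G o T

/-- JOB DIS: displacement.  For `k` of the parity of `t` and `k + 2 ≤ t`:
`ex (k+2) f - ex k f = ∑_{y, x ∈ N(y)} (dn_(k+1) x - dn_k y) (f y - f x)`, so by Cauchy-Schwarz
and `(√a + √b)² ≤ 2 a + 2 b` its square is at most `2 h_k (e_k + e_(k+1))`, where
`h_k = ∑_a hel k a` and `e_k = ∑_{y, x ∈ N(y)} dn_k y (f y - f x)² ≤ ex k W + ex (k+1) W`
(as `∑_{y, x ∈ N(y)} dn_k y g x = ex (k+1) g` and `∑_{y, x ∈ N(y)} dn_k y g y = ex k g`).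
Sum over `k` and use Cauchy-Schwarz again. -/
def S_DIS : Prop := S_LAW → S_ENA → S_ENT → ∀ (V : Type) (G : SimpleGraph V) [G.LocallyFinite]
  (c C d : ℝ), Gr G c C d → ∀ (o : V) (f W : V → ℝ), (∀ x, 0 ≤ W x) →
  (∀ a b, G.Adj a b → (f a - f b) ^ 2 ≤ W a + W b) → ∀ t : ℕ,
  ex G o t f ≤ ex G o (t % 2) f + √(8 * ent G o t * ∑ k ∈ range (t + 1), ex G o k W)

/-- JOB CMP: comparison of occupation densities.  Take a shortest path `y = x_0, ..., x_j = z`
(`j ≤ s`, distinct vertices, all in `bal y s`).  Let `U_i = (√(dn (k+i) (x_i)))_{k < t}`;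
`‖U_(i+1) - U_i‖² ≤ ∑_{m < t + s} (√(dn m x_i) - √(dn (m+1) x_(i+1)))² =: I_i` and
`∑ I_i ≤ I := ∑_{m < t + s} ∑_{a ∈ bal y s} hel m a`, so
`‖U_j‖ ≥ ‖U_0‖ - ∑ √I_i ≥ ‖U_0‖ - √(s I) ≥ ‖U_0‖ / 2`. -/
def S_CMP : Prop := S_LAW → ∀ (V : Type) (G : SimpleGraph V) [G.LocallyFinite]
  (c C d : ℝ), Gr G c C d → ∀ (o y z : V) (s t : ℕ), G.dist y z ≤ s →
  4 * s * (∑ k ∈ range (t + s), ∑ a ∈ bal G y s, hel G o k a) ≤ occ G o t y →
  occ G o t y ≤ 4 * occ G o (t + s) z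

/-- JOB OCC: expected occupation.  `∑_{k < t} ex k W = ∑_y deg y * W y * occ t y`.  For good `y`
(hypothesis of CMP) `c s^d occ t y ≤ 4 ∑_{z ∈ bal y s} occ (t+s) z`, so that
`∑_good W y occ t y ≤ 4 / (c s^d) ∑_z occ (t+s) z ∑_{y ∈ bal z s} W y ≤ 4 A / (c s^d) (t + s)`.
For bad `y`: `occ t y ≤ 4 s ∑_{k < t+s} ∑_{a ∈ bal y s} hel k a`; exchange the sums,
`#(bal a s) ≤ C s^d`, and use ENT. -/
def S_OCC : Prop := S_LAW → S_ENA → S_ENT → S_CMP → ∀ (V : Type) (G : SimpleGraph V)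
  [G.LocallyFinite] (c C d : ℝ), Gr G c C d → ∀ (o : V) (s t : ℕ) (W : V → ℝ) (w A : ℝ),
  1 ≤ s → (∀ x, 0 ≤ W x) → (∀ x, W x ≤ w) → (∀ z, ∑ y ∈ bal G z s, W y ≤ A) →
  ∑ k ∈ range t, ex G o k W ≤
    C * (4 * A / (c * (s : ℝ) ^ d) * (t + s) + 4 * w * s * (C * (s : ℝ) ^ d) * ent G o (t + s))

/-! ## Weights -/

/-- The weighted length of a walk: the sum of the weights of the starting points of its steps. -/
def cost {V : Type} (G : SimpleGraph V) (w : V → ℝ) {x y : V} (p : G.Walk x y) : ℝ :=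
  (p.darts.map fun e => w e.fst).sum

/-- The weighted length of a walk is at least the distance of its end points minus `r`. -/
def Met {V : Type} (G : SimpleGraph V) (w : V → ℝ) (r : ℝ) : Prop :=
  ∀ (x y : V) (p : G.Walk x y), (G.dist x y : ℝ) - r ≤ cost G w p

/-- JOB WDF: the weighted distance from `o`, that is the infimum of the costs of the walks. -/
def S_WDF : Prop := ∀ (V : Type) (G : SimpleGraph V), G.Connected → ∀ (w : V → ℝ) (r : ℝ) (o : V),
  (∀ v, 0 ≤ w v) → Met G w r → ∃ f : V → ℝ, f o ≤ 0 ∧ (∀ x, (G.dist o x : ℝ) - r ≤ f x) ∧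
    ∀ a b, G.Adj a b → f b ≤ f a + w a

/-- The new weights: `w` is multiplied by `1 - η` and, near `X`, by `2 - η`. -/
noncomputable def nw {V : Type} (G : SimpleGraph V) (w : V → ℝ) (X : Set V) (r : ℕ) (η : ℝ)
    (v : V) : ℝ := by
  classical exact w v * ((1 - η) + if ∃ q ∈ X, G.dist q v ≤ 2 * r then 1 else 0)

/-- JOB STP: the metric step.  Let `η = 1 / (L M + 3)` and `ρ = (L M + 3) r`.  The extra cost
(sum of `w (e.fst)` over the steps with `e.fst` within distance `2 r` of `X`) of a walk from `x` to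
`y` is at least `r (dist x y / ρ - 1)`, by strong induction on the length of the walk: if
`dist x y > ρ` then the walk meets a point `q` of `X` at distance at most `L M r + 1` from `x`
(apply the hypothesis to the initial piece up to the first vertex at distance `L M r + 1`), and
then a first point `z` at distance `2 r` from `q`; the piece from `q` to `z` stays within distance
`2 r` of `q` and costs at least `2 r - r`.  Total: `(1-η) (D - r) + r (D / ρ - 1) ≥ D - 2 r`. -/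
def S_STP : Prop := ∀ (V : Type) (G : SimpleGraph V), G.Connected →
  ∀ (w : V → ℝ) (r L M : ℕ) (X : Set V), 1 ≤ r → (∀ v, 0 ≤ w v) → Met G w r →
  (∀ (x y : V) (p : G.Walk x y), L * M * r < G.dist x y → ∃ q ∈ p.support, q ∈ X) →
  Met G (nw G w X r (1 / ((L : ℝ) * M + 3))) (2 * r)

/-- The set `X` is covered by few balls of radius `3 r`, also after adding a collar. -/
def Few {V : Type} (G : SimpleGraph V) (d : ℝ) (Z M r : ℕ) (X : Set V) : Prop :=
  ∀ (x : V) (R : ℕ), M * r ≤ R → ∃ F : Finset V,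
    (F.card : ℝ) ≤ Z * M * ((R : ℝ) / (M * r)) ^ d ∧
    ∀ v, G.dist x v ≤ R → (∃ q ∈ X, G.dist q v ≤ 2 * r) → ∃ z ∈ F, G.dist z v ≤ 3 * r

/-- JOB ENG: the energy step.  On the collar the square of the multiplier is
`(2-η)² ≤ (1-η)² + 3`; the collar inside `bal x R` is covered by the balls of radius `3 r` around
`F`, each of energy at most `U (3 r)^d`. -/
def S_ENG : Prop := ∀ (V : Type) (G : SimpleGraph V) [G.LocallyFinite] (c C d : ℝ),
  Gr G c C d → ∀ (w : V → ℝ) (r Z M : ℕ) (X : Set V) (η U : ℝ), 1 ≤ r → 1 ≤ M → 0 ≤ η → η ≤ 1 →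
  0 ≤ U → (∀ v, 0 ≤ w v) → (∀ (x : V) (R : ℕ), r ≤ R → ∑ y ∈ bal G x R, w y ^ 2 ≤ U * (R : ℝ) ^ d) →
  Few G d Z M r X → ∀ (x : V) (R : ℕ), M * r ≤ R →
  ∑ y ∈ bal G x R, nw G w X r η y ^ 2 ≤
    U * ((1 - η) ^ 2 + 3 * (Z * M * (3 / (M : ℝ)) ^ d)) * (R : ℝ) ^ d

/-- Skeletons of the scale `M r`, for all `r`. -/
def Skel {V : Type} (G : SimpleGraph V) (d : ℝ) (L Z M : ℕ) : Prop :=
  ∀ r : ℕ, 1 ≤ r → ∃ X : Set V,
    (∀ (x y : V) (p : G.Walk x y), L * M * r < G.dist x y → ∃ q ∈ p.support, q ∈ X) ∧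
    Few G d Z M r X

/-- The weights at all scales. -/
def WF {V : Type} (G : SimpleGraph V) (C d : ℝ) (M : ℕ) (θ : ℝ) : Prop :=
  ∀ k : ℕ, ∃ w : V → ℝ, (∀ v, 0 ≤ w v) ∧ (∀ v, w v ≤ 2 ^ k) ∧ Met G w ((M : ℝ) ^ k) ∧
    ∀ (x : V) (R : ℕ), M ^ k ≤ R → ∑ y ∈ bal G x R, w y ^ 2 ≤ C * θ ^ k * (R : ℝ) ^ d

/-- JOB MUL: iteration.  `w_0 = 1`, `w_(k+1) = nw w_k X_k (M^k) η` with `η = 1 / (L M + 3)`;
choose `M` so large that `3 Z M (3 / M)^d ≤ η / 2` (possible because `d > 2`); then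
`(1-η)² + η / 2 ≤ 1 - η / 2 =: θ`. -/
def S_MUL : Prop := S_STP → S_ENG → ∀ (c C d : ℝ) (L Z : ℕ), 0 < c → 1 ≤ C → 2 < d → 1 ≤ L →
  ∃ (M : ℕ) (θ : ℝ), 3 ≤ M ∧ 0 < θ ∧ θ < 1 ∧ ∀ (V : Type) (G : SimpleGraph V) [G.LocallyFinite],
    Gr G c C d → Skel G d L Z M → WF G C d M θ

/-! ## Nets, Voronoi cells and the quotient graph -/

/-- A separated net `Y` with connected Voronoi cells. -/
structure Vor {V : Type} (G : SimpleGraph V) (r : ℕ) (Y : Set V) (a : V → V) : Prop where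
  sep : ∀ x ∈ Y, ∀ y ∈ Y, x ≠ y → r < G.dist x y
  inY : ∀ v, a v ∈ Y
  near : ∀ v, G.dist v (a v) ≤ r
  cell : ∀ v, ∃ p : G.Walk v (a v), ∀ u ∈ p.support, a u = a v

/-- JOB VOR: existence.  `Y` is a maximal `r`-separated set (Zorn); `a v = v` for `v ∈ Y`,
otherwise `a v = a v'` for a neighbour `v'` of `v` closer to `Y`. -/
def S_VOR : Prop := ∀ (V : Type) (G : SimpleGraph V), G.Connected → ∀ r : ℕ,
  ∃ (Y : Set V) (a : V → V), Vor G r Y a

/-- JOB CNT: the number of the points of a separated set in a ball.  The balls of radius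
`⌊r/2⌋` around the points are pairwise disjoint and contained in `bal x (2 R)`. -/
def S_CNT : Prop := ∀ (c C d : ℝ), 0 < c → 1 ≤ C → 2 < d → ∃ K : ℝ, 1 ≤ K ∧
  ∀ (V : Type) (G : SimpleGraph V) [G.LocallyFinite], Gr G c C d → ∀ (r : ℕ) (Y : Set V), 1 ≤ r →
  (∀ x ∈ Y, ∀ y ∈ Y, x ≠ y → r < G.dist x y) → ∀ (x : V) (R : ℕ), r ≤ R → ∀ F : Finset V,
  (∀ y ∈ F, y ∈ Y ∧ G.dist x y ≤ R) → (F.card : ℝ) ≤ K * ((R : ℝ) / r) ^ d

/-- The quotient graph on the labels. -/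
def quo {V : Type} (G : SimpleGraph V) (a : V → V) : SimpleGraph V where
  Adj p q := p ≠ q ∧ ∃ u v, G.Adj u v ∧ a u = p ∧ a v = q
  symm := ⟨fun _ _ ⟨h, u, v, h1, h2, h3⟩ => ⟨h.symm, v, u, h1.symm, h3, h2⟩⟩
  loopless := ⟨fun _ h => h.1 rfl⟩

/-- JOB QWK: walks of `G` give walks of the quotient. -/
def S_QWK : Prop := ∀ (V : Type) (G : SimpleGraph V) (a : V → V) (u v : V) (p : G.Walk u v),
  ∃ q : (quo G a).Walk (a u) (a v), ∀ x ∈ q.support, ∃ y ∈ p.support, a y = x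

/-- JOB QLI: walks of the quotient lift to walks of `G` when the cells are connected. -/
def S_QLI : Prop := ∀ (V : Type) (G : SimpleGraph V) (a : V → V),
  (∀ v, ∃ p : G.Walk v (a v), ∀ u ∈ p.support, a u = a v) →
  ∀ (α β : V) (p : (quo G a).Walk α β) (u v : V), a u = α → a v = β →
  ∃ q : G.Walk u v, ∀ x ∈ q.support, a x ∈ p.support

/-- JOB LIF: lifting of minors (replace a branch set by the union of its cells; a label which is
not in the range of `a` is isolated in the quotient, so it is in no branch set as `1 ≤ h`). -/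
def S_LIF : Prop := S_QLI → ∀ (V : Type) (G : SimpleGraph V) [G.LocallyFinite] (c C d : ℝ),
  Gr G c C d → ∀ (r : ℕ) (Y : Set V) (a : V → V), Vor G r Y a → ∀ h : ℕ, 1 ≤ h →
  K3 (quo G a) h → K3 G h

/-- JOB MEN: Menger's theorem.  (One may use `Pool.Agent.H135R2.Menger.menger_sep`, or Goering's
proof.)  The sets `P i` are the interiors of disjoint `A`-`B` paths. -/
def S_MEN : Prop := ∀ (V : Type) (Q : SimpleGraph V) (F A B : Finset V) (k : ℕ), Disjoint A B →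
  (∀ a ∈ A, ∀ b ∈ B, ¬ Q.Adj a b) →
  (∃ S : Finset V, S.card ≤ k ∧ ∀ (a b : V) (p : Q.Walk a b), a ∈ A → b ∈ B →
    (∀ x ∈ p.support, x ∈ F) → ∃ x ∈ p.support, x ∈ S) ∨
  ∃ P : Fin (k + 1) → Finset V, (∀ i, P i ⊆ F) ∧ (∀ i, Disjoint (P i) A) ∧
    (∀ i, Disjoint (P i) B) ∧ (∀ i, Cn Q (P i : Set V)) ∧
    (∀ i, ∃ x ∈ P i, ∃ a ∈ A, Q.Adj a x) ∧ (∀ i, ∃ x ∈ P i, ∃ b ∈ B, Q.Adj x b) ∧
    ∀ i j, i ≠ j → Disjoint (P i) (P j)

/-- JOB IND: a digraph of out-degree at most `m` on at least `h (2 m + 1)` vertices has an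
independent set of size `h` (greedy: some vertex has in-degree at most `m`). -/
def S_IND : Prop := ∀ (ι : Type) (J : Finset ι) (R : ι → ι → Prop) (m h : ℕ),
  (∀ j ∈ J, ∀ T : Finset ι, T ⊆ J → (∀ i ∈ T, i ≠ j ∧ R j i) → T.card ≤ m) →
  h * (2 * m + 1) ≤ J.card →
  ∃ H : Finset ι, H ⊆ J ∧ H.card = h ∧ ∀ i ∈ H, ∀ j ∈ H, i ≠ j → ¬ R j i

/-- JOB HUB: many disjoint connected sets `P i`, each adjacent to `I` and to `U` and each joined to
the hub `z` by a walk avoiding `I` and `U` and with at most `m` vertices, give a `K_{3,h}` model.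
Remove the index with `z ∈ P i`; apply IND to the relation `the walk of j meets P i`; the third
big branch set is the union over `j ∈ H` of the vertices of the `j`-th walk before it meets
`P j` for the first time. -/
def S_HUB : Prop := S_IND → ∀ (V : Type) (Q : SimpleGraph V) (I U : Finset V) (ι : Type)
  (J : Finset ι) (P : ι → Finset V) (z : V) (m h : ℕ), 1 ≤ h → Cn Q (I : Set V) →
  Cn Q (U : Set V) → Disjoint I U →
  (∀ i ∈ J, Cn Q (P i : Set V) ∧ Disjoint (P i) I ∧ Disjoint (P i) U ∧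
    (∃ x ∈ P i, ∃ a ∈ I, Q.Adj a x) ∧ ∃ x ∈ P i, ∃ b ∈ U, Q.Adj x b) →
  (∀ i ∈ J, ∀ j ∈ J, i ≠ j → Disjoint (P i) (P j)) →
  (∀ i ∈ J, ∃ y ∈ P i, ∃ p : Q.Walk z y, (∀ x ∈ p.support, x ∉ I ∧ x ∉ U) ∧
    ∃ T : Finset V, T.card ≤ m ∧ ∀ x ∈ p.support, x ∈ T) →
  h * (2 * m + 1) + 1 ≤ J.card → K3 Q h

/-- JOB CRO: a connected set of labels adjacent to a label of `bal y s` and to a label of
`bal v s` (`s = M r`, `dist y v ≥ 7 s`) has a vertex `u` at distance exactly `3 s` from `y`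
in its cells.  (Lift a walk of the quotient; it starts within distance `s + 2 r + 1 ≤ 3 s` of `y`
and ends at distance at least `7 s - s - 2 r - 1 ≥ 3 s`; use that the distance to `y` changes by at
most one in each step.) -/
def S_CRO : Prop := S_QLI → ∀ (V : Type) (G : SimpleGraph V), G.Connected → ∀ (r M : ℕ)
  (Y : Set V) (a : V → V), 1 ≤ r → 3 ≤ M → Vor G r Y a → ∀ (y v : V) (P : Finset V),
  7 * (M * r) ≤ G.dist y v → Cn (quo G a) (P : Set V) →
  (∃ x ∈ P, ∃ u, G.dist y u ≤ M * r ∧ (quo G a).Adj (a u) x) →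
  (∃ x ∈ P, ∃ u, G.dist v u ≤ M * r ∧ (quo G a).Adj x (a u)) →
  ∃ u, a u ∈ P ∧ G.dist y u = 3 * (M * r)

/-- JOB GEO: a geodesic of length at most `M r` meets at most `Z M` cells.  (Cut it into `M + 1`
pieces of length at most `r`; the labels on a piece are points of `Y` within distance `2 r` of its
first vertex; use CNT with `R = 2 r`.) -/
def S_GEO : Prop := S_CNT → ∀ (c C d : ℝ), 0 < c → 1 ≤ C → 2 < d → ∃ Z : ℕ, 1 ≤ Z ∧
  ∀ (V : Type) (G : SimpleGraph V) [G.LocallyFinite], Gr G c C d → ∀ (r M : ℕ) (Y : Set V)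
  (a : V → V), 1 ≤ r → 1 ≤ M → Vor G r Y a → ∀ z x : V, G.dist z x ≤ M * r →
  ∃ p : G.Walk z x, (∀ u ∈ p.support, G.dist x u ≤ M * r) ∧
    ∃ T : Finset V, T.card ≤ Z * M ∧ ∀ u ∈ p.support, a u ∈ T

/-- The conclusion of CUT. -/
def S_CUTC : Prop := ∀ (c C d : ℝ) (h : ℕ), 0 < c → 1 ≤ C → 2 < d → 1 ≤ h → ∃ K : ℕ,
  ∀ (V : Type) (G : SimpleGraph V) [G.LocallyFinite], Gr G c C d → ¬ K3 G h →
  ∀ (r M : ℕ) (Y : Set V) (a : V → V), 1 ≤ r → 3 ≤ M → Vor G r Y a → ∀ y v : V,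
  7 * (M * r) ≤ G.dist y v → G.dist y v ≤ 9 * (M * r) →
  ∃ S : Finset V, S.card ≤ K * M ∧ ∀ (x x' : V) (p : G.Walk x x'), G.dist y x ≤ M * r →
    G.dist v x' ≤ M * r → (∀ u ∈ p.support, G.dist y u ≤ 10 * (M * r)) →
    ∃ u ∈ p.support, a u ∈ S

/-- JOB CUT: the cut bound.  Let `s = M r`, `A = a (bal y s)`, `B = a (bal v s)`,
`F = a (bal y (10 s))` (images under `a`; they are connected in the quotient, disjoint and not
adjacent, because vertices with equal labels have distance at most `2 r < s`).  Apply MEN in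
`quo G a` with `k = N (h (2 Z M + 1) + 1)`, where `Z` is from GEO and `N` bounds the number of the
points of an `s`-separated set (VOR with `s` instead of `r`) in a ball of radius `4 s` (CNT).  If
there is no cut, each of the `k + 1` sets `P i` contains the label of some `x_i` with
`dist y x_i = 3 s` (CRO); `x_i` is within distance `s` of a point `z_i` of the `s`-net, and
`dist y z_i ≤ 4 s`; by the pigeonhole principle some `z` serves at least `h (2 Z M + 1) + 1`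
indices.  The labels of the walk of GEO from `z` to `x_i` give a walk of the quotient (QWK), its
vertices have distance between `2 s` and `4 s` from `y`, so the labels are in neither `A` nor `B`.
HUB gives a `K_{3,h}` model in the quotient, LIF one in `G`. -/
def S_CUT : Prop := S_IND → S_QLI → S_CNT → S_MEN → S_HUB → S_LIF → S_CRO → S_GEO → S_VOR →
  S_QWK → S_CUTC

/-- The conclusion of SKE. -/
def S_SKEC : Prop := ∀ (c C d : ℝ) (h : ℕ), 0 < c → 1 ≤ C → 2 < d → 1 ≤ h → ∃ Z : ℕ,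
  ∀ (V : Type) (G : SimpleGraph V) [G.LocallyFinite], Gr G c C d → ¬ K3 G h →
  ∀ M : ℕ, 3 ≤ M → Skel G d 9 Z M

/-- JOB SKE: the skeleton.  Let `s = M r`, `(Y, a)` from VOR for `r`, `(Y', a')` from VOR for `s`.
`X` is the set of the `u` such that for some `y, v ∈ Y'` with `7 s ≤ dist y v ≤ 9 s` we have
`dist y u ≤ 8 s` and `a u ∈ S(y, v)`.  A walk from `x` to `x'` with `dist x x' > 9 s`: let
`y = a' x`; `dist y x' > 8 s`; take the initial piece up to the first vertex `x''` with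
`dist y x'' = 8 s` and `v = a' x''`.  FEW: the collar points in `bal x R` are within `3 r` of a
label in `S(y, v)` with `dist x y ≤ R + 2 r + 8 s ≤ 10 R`; count with CNT. -/
def S_SKE : Prop := S_CUTC → S_CNT → S_VOR → S_SKEC

/-! ## Analysis and conclusion -/

/-- The bound of the logarithm. -/
noncomputable def ell (C d : ℝ) (T : ℝ) : ℝ := 2 * Real.log C + d * Real.log T

/-- JOB ANA: choose `k` with `M^k ≤ t^(1/(2d+6)) < M^(k+1)`; then `θ^k ≤ θ⁻¹ t^(-δ)` with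
`δ = log (1/θ) / ((2 d + 6) log M)`; `4^k ≤ (M^k)²`; `(M^k)^(d+3) ≤ t^(1/2)`, `M^k ≤ t`. -/
def S_ANA : Prop := ∀ (c C d θ : ℝ) (M : ℕ), 0 < c → 1 ≤ C → 2 < d → 0 < θ → θ < 1 → 3 ≤ M →
  ∃ α K : ℝ, α < 1 / 2 ∧ ∀ t : ℕ, 1 ≤ t → ∃ k : ℕ,
    (2 : ℝ) ^ k + (M : ℝ) ^ k + √(8 * ell C d t *
      (C * (4 * (C * θ ^ k * ((M : ℝ) ^ k) ^ d) / (c * ((M : ℝ) ^ k) ^ d) * (t + 1 + (M : ℝ) ^ k) +
        4 * 4 ^ k * (M : ℝ) ^ k * (C * ((M : ℝ) ^ k) ^ d) * ell C d (t + 1 + (M : ℝ) ^ k))))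
      ≤ K * (t : ℝ) ^ α

/-- The walk is subdiffusive when there are weights at all scales. -/
def S_FINC : Prop := ∀ (c C d θ : ℝ) (M : ℕ), 0 < c → 1 ≤ C → 2 < d → 0 < θ → θ < 1 → 3 ≤ M →
  ∃ α K : ℝ, α < 1 / 2 ∧ ∀ (V : Type) (G : SimpleGraph V) [G.LocallyFinite], Gr G c C d →
    WF G C d M θ → ∀ (o : V) (t : ℕ), 1 ≤ t → ex G o t (fun x => (G.dist o x : ℝ)) ≤ K * (t : ℝ) ^ α

/-- The conclusion of OCC. -/
def S_OCCC : Prop := ∀ (V : Type) (G : SimpleGraph V)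
  [G.LocallyFinite] (c C d : ℝ), Gr G c C d → ∀ (o : V) (s t : ℕ) (W : V → ℝ) (w A : ℝ),
  1 ≤ s → (∀ x, 0 ≤ W x) → (∀ x, W x ≤ w) → (∀ z, ∑ y ∈ bal G z s, W y ≤ A) →
  ∑ k ∈ range t, ex G o k W ≤
    C * (4 * A / (c * (s : ℝ) ^ d) * (t + s) + 4 * w * s * (C * (s : ℝ) ^ d) * ent G o (t + s))

/-- The conclusion of DIS. -/
def S_DISC : Prop := ∀ (V : Type) (G : SimpleGraph V) [G.LocallyFinite]
  (c C d : ℝ), Gr G c C d → ∀ (o : V) (f W : V → ℝ), (∀ x, 0 ≤ W x) →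
  (∀ a b, G.Adj a b → (f a - f b) ^ 2 ≤ W a + W b) → ∀ t : ℕ,
  ex G o t f ≤ ex G o (t % 2) f + √(8 * ent G o t * ∑ k ∈ range (t + 1), ex G o k W)

/-- JOB FIN: take `k` from ANA, `w` from WF, `f` from WDF, `W = w²` (then
`(f a - f b)² ≤ W a + W b`), `s = M^k`.  `ex (t % 2) f ≤ 2^k`, since `f o ≤ 0` and
`f x ≤ w o ≤ 2^k` for neighbours `x` of `o`; `dist o x ≤ f x + M^k`; OCC with `t + 1`, `w = 4^k`,
`A = C θ^k s^d`; `ent G o T ≤ ell C d T` for `T ≥ 1`. -/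
def S_FIN : Prop := S_LAW → S_OCCC → S_DISC → S_WDF → S_ANA → S_FINC

/-! ## Planar graphs -/

/-- `G` is planar: it can be drawn in the plane without crossings.  The vertices are placed at
distinct points, every edge `e` is drawn as a simple arc `arc e` joining its two ends, no arc passes
through a vertex other than its ends, and two different arcs meet at most in common ends. -/
def IsPlanar {V : Type} (G : SimpleGraph V) : Prop :=
  ∃ (p : V → ℂ) (arc : Sym2 V → Set ℂ), Function.Injective p ∧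
    (∀ u v, G.Adj u v → ∃ γ : Path (p u) (p v), Function.Injective γ ∧
      Set.range γ = arc s(u, v)) ∧
    (∀ e ∈ G.edgeSet, ∀ w, p w ∈ arc e → w ∈ e) ∧
    ∀ e ∈ G.edgeSet, ∀ e' ∈ G.edgeSet, e ≠ e' → ∀ z, z ∈ arc e → z ∈ arc e' →
      ∃ w, w ∈ e ∧ w ∈ e' ∧ z = p w

/-- JOB PLA: planar graphs have no `K_{3,3}` model.  Use
`Pool.Agent.Helper479.Bond.VK.k33_joined` as in `Pool/Agent/Helper479/Bond/Minor.lean` (there for
straight-line drawings), with the sets `⋃ {arc s(u, v) | u, v ∈ A i ∪ B j adjacent}`. -/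
def S_PLA : Prop := ∀ (V : Type) (G : SimpleGraph V), IsPlanar G → ¬ K3 G 3

end Pool.Agent.Q293.SD
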