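import Pool.Agent.Q293.SD.Stm

/-!
# Project SD (helper293), job STP: the metric step (by helper224)
-/

set_option autoImplicit false
set_option linter.all false

namespace Pool.Agent.Q293.SD.StpJ

open Pool.Agent.Q293.SD Finset

variable {V : Type} {G : SimpleGraph V}

theorem cost_append (w : V → ℝ) {x y z : V} (p : G.Walk x y) (q : G.Walk y z) :
    cost G w (p.append q) = cost G w p + cost G w q := by
  unfold cost
  rw [SimpleGraph.Walk.darts_append, List.map_append, List.sum_append]

theorem cost_nonneg {w : V → ℝ} (hw : ∀ v, 0 ≤ w v) {x y : V} (p : G.Walk x y) :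
    0 ≤ cost G w p := by
  unfold cost
  refine List.sum_nonneg fun a ha => ?_
  obtain ⟨e, -, rfl⟩ := List.mem_map.1 ha
  exact hw _

theorem cost_congr {w w' : V → ℝ} {x y : V} (p : G.Walk x y)
    (h : ∀ e ∈ p.darts, w e.fst = w' e.fst) : cost G w p = cost G w' p := by
  unfold cost
  rw [List.map_congr_left h]

theorem cost_comb (w w' : V → ℝ) (c : ℝ) {x y : V} (p : G.Walk x y) :
    cost G (fun v => c * w v + w' v) p = c * cost G w p + cost G w' p := by
  unfold cost
  induction p.darts with
  | nil => simp
  | cons a l ih =>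
    rw [List.map_cons, List.map_cons, List.map_cons, List.sum_cons, List.sum_cons, List.sum_cons, ih]
    ring

/-- the first vertex with a property -/
theorem split (P : V → Prop) {x y : V} (p : G.Walk x y) (hy : P y) :
    ∃ (z : V) (p1 : G.Walk x z) (p2 : G.Walk z y), p = p1.append p2 ∧ P z ∧
      (∀ e ∈ p1.darts, ¬ P e.fst) ∧ (z = x ∨ ∃ e ∈ p1.darts, e.snd = z) := by
  induction p with
  | nil => exact ⟨_, .nil, .nil, rfl, hy, by simp, Or.inl rfl⟩
  | @cons u v w h p ih =>
    by_cases hu : P u
    · exact ⟨u, .nil, .cons h p, rfl, hu, by simp, Or.inl rfl⟩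
    · obtain ⟨z, p1, p2, h1, h2, h3, h4⟩ := ih hy
      refine ⟨z, .cons h p1, p2, by rw [h1]; rfl, h2, ?_, ?_⟩
      · intro e he
        rw [SimpleGraph.Walk.darts_cons, List.mem_cons] at he
        rcases he with rfl | he
        · exact hu
        · exact h3 e he
      · right
        rcases h4 with rfl | ⟨e, he, hz⟩
        · refine ⟨⟨(u, z), h⟩, ?_, rfl⟩
          rw [SimpleGraph.Walk.darts_cons]
          exact List.mem_cons_self
        · refine ⟨e, ?_, hz⟩
          rw [SimpleGraph.Walk.darts_cons]
          exact List.mem_cons_of_mem _ he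

theorem dist_succ (hG : G.Connected) (q : V) (e : G.Dart) : G.dist q e.snd ≤ G.dist q e.fst + 1 := by
  have h1 := hG.dist_triangle (u := q) (v := e.fst) (w := e.snd)
  rw [SimpleGraph.dist_eq_one_iff_adj.2 e.adj] at h1
  exact h1

/-- the extra cost -/
noncomputable def ew (G : SimpleGraph V) (w : V → ℝ) (X : Set V) (r : ℕ) (v : V) : ℝ := by
  classical exact w v * (if ∃ q ∈ X, G.dist q v ≤ 2 * r then 1 else 0)

theorem ew_nonneg {w : V → ℝ} (hw : ∀ v, 0 ≤ w v) (X : Set V) (r : ℕ) (v : V) : 0 ≤ ew G w X r v := by
  unfold ew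
  split_ifs
  · rw [mul_one]; exact hw v
  · rw [mul_zero]

theorem extra (hG : G.Connected) {w : V → ℝ} {r L M : ℕ} {X : Set V} (hr : 1 ≤ r)
    (hw : ∀ v, 0 ≤ w v) (hM : Met G w r)
    (hX : ∀ (x y : V) (p : G.Walk x y), L * M * r < G.dist x y → ∃ q ∈ p.support, q ∈ X) :
    ∀ (n : ℕ) (x y : V) (p : G.Walk x y), p.length ≤ n →
      (1 / ((L : ℝ) * M + 3)) * (G.dist x y : ℝ) - r ≤ cost G (ew G w X r) p := by
  intro n
  induction n with
  | zero =>
    intro x y p hp
    have h0 := cost_nonneg (ew_nonneg (G := G) hw X r) p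
    have h1 : G.dist x y = 0 := Nat.le_zero.1 ((SimpleGraph.dist_le p).trans hp)
    rw [h1]
    have : (0 : ℝ) ≤ r := Nat.cast_nonneg _
    simp only [Nat.cast_zero, mul_zero, zero_sub]
    linarith
  | succ n ih =>
    intro x y p hp
    have h0 := cost_nonneg (ew_nonneg (G := G) hw X r) p
    have hρ0 : (0 : ℝ) < (L : ℝ) * M + 3 := by positivity
    by_cases hD : G.dist x y ≤ (L * M + 3) * r
    · have h1 : (G.dist x y : ℝ) ≤ ((L : ℝ) * M + 3) * r := by exact_mod_cast hD
      have h2 : (1 / ((L : ℝ) * M + 3)) * (G.dist x y : ℝ) ≤ r := by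
        rw [one_div, inv_mul_le_iff₀ hρ0]
        exact h1
      linarith
    · push Not at hD
      -- first piece
      obtain ⟨z1, p1, p2, hp12, hz1, hd1, he1⟩ := split (fun u => L * M * r < G.dist x u) p
        (by show L * M * r < G.dist x y; nlinarith)
      obtain ⟨q, hq, hqX⟩ := hX x z1 p1 hz1
      have hz1d : G.dist x z1 ≤ L * M * r + 1 := by
        rcases he1 with h | ⟨e, he, hz⟩
        · rw [h, SimpleGraph.dist_self]
          omega
        · have h1 := dist_succ hG x e
          have h2 := not_lt.1 (hd1 e he)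
          rw [hz] at h1
          omega
      have hqd : G.dist x q ≤ L * M * r + 1 := by
        have hq' := hq
        rw [← SimpleGraph.Walk.map_fst_darts_append, List.mem_append, List.mem_map,
          List.mem_singleton] at hq'
        rcases hq' with ⟨e, he, hz⟩ | hz
        · have h2 := not_lt.1 (hd1 e he)
          rw [← hz]
          omega
        · rw [hz]
          exact hz1d
      obtain ⟨pa, pb, hpab⟩ := SimpleGraph.Walk.mem_support_iff_exists_append.1 hq
      -- second piece
      have hqy : 2 * r ≤ G.dist q y := by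
        have h1 := hG.dist_triangle (u := x) (v := q) (w := y)
        nlinarith
      obtain ⟨z, p3, p4, hp34, hz3, hd3, he3⟩ := split (fun u => 2 * r ≤ G.dist q u) (pb.append p2) hqy
      have hzd : G.dist q z ≤ 2 * r := by
        rcases he3 with h | ⟨e, he, hz⟩
        · rw [h, SimpleGraph.dist_self]
          omega
        · have h1 := dist_succ hG q e
          have h2 := not_le.1 (hd3 e he)
          rw [hz] at h1
          omega
      have hpp : p = (pa.append p3).append p4 := by
        rw [hp12, hpab, ← SimpleGraph.Walk.append_assoc, hp34, SimpleGraph.Walk.append_assoc]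
      have h3 : cost G (ew G w X r) p3 = cost G w p3 := by
        apply cost_congr
        intro e he
        unfold ew
        rw [if_pos ⟨q, hqX, (not_le.1 (hd3 e he)).le⟩, mul_one]
      have h4 : (r : ℝ) ≤ cost G w p3 := by
        have h5 := hM q z p3
        have h6 : ((2 * r : ℕ) : ℝ) ≤ (G.dist q z : ℝ) := by exact_mod_cast hz3
        push_cast at h6
        linarith
      have hl3 : 1 ≤ p3.length := by
        have h5 := SimpleGraph.dist_le p3
        omega
      have hl4 : p4.length ≤ n := by
        have h5 : p.length = pa.length + p3.length + p4.length := by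
          rw [hpp, SimpleGraph.Walk.length_append, SimpleGraph.Walk.length_append]
        omega
      have h6 := ih z y p4 hl4
      have h7 := cost_nonneg (ew_nonneg (G := G) hw X r) pa
      have h8 : cost G (ew G w X r) p = cost G (ew G w X r) pa + cost G w p3 +
          cost G (ew G w X r) p4 := by
        rw [hpp, cost_append, cost_append, h3]
      have h9 : (G.dist x y : ℝ) ≤ ((L : ℝ) * M + 3) * r + G.dist z y := by
        have e1 := hG.dist_triangle (u := x) (v := q) (w := y)
        have e2 := hG.dist_triangle (u := q) (v := z) (w := y)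
        have e3 : G.dist x y ≤ (L * M + 3) * r + G.dist z y := by nlinarith
        exact_mod_cast e3
      have h10 : (1 / ((L : ℝ) * M + 3)) * (G.dist x y : ℝ) ≤
          r + (1 / ((L : ℝ) * M + 3)) * G.dist z y := by
        have e1 := mul_le_mul_of_nonneg_left h9 (one_div_pos.2 hρ0).le
        have e2 : (1 / ((L : ℝ) * M + 3)) * (((L : ℝ) * M + 3) * r + G.dist z y) =
            r + (1 / ((L : ℝ) * M + 3)) * G.dist z y := by
          field_simp
        rw [e2] at e1
        exact e1
      rw [h8]
      linarith

/-- **JOB STP** -/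
theorem main : S_STP := by
  intro V G hG w r L M X hr hw hM hX x y p
  have hρ0 : (0 : ℝ) < (L : ℝ) * M + 3 := by positivity
  set η : ℝ := 1 / ((L : ℝ) * M + 3) with hη
  have hη0 : 0 < η := one_div_pos.2 hρ0
  have hη1 : η ≤ 1 := by
    rw [hη, div_le_one hρ0]
    have : (0 : ℝ) ≤ (L : ℝ) * M := by positivity
    linarith
  have h1 : cost G (nw G w X r η) p = (1 - η) * cost G w p + cost G (ew G w X r) p := by
    rw [← cost_comb]
    apply cost_congr
    intro e _
    unfold nw ew
    ring
  have h2 := extra hG hr hw hM hX p.length x y p le_rfl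
  have h3 := hM x y p
  have h4 := mul_le_mul_of_nonneg_left h3 (sub_nonneg.2 hη1)
  rw [← hη] at h2
  rw [h1]
  have h5 : (0 : ℝ) ≤ η * r := by positivity
  linarith

end Pool.Agent.Q293.SD.StpJ
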