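import Pool.Agent.Q293.SD.Stm

/-!
Job SD-VOR: existence of separated nets with connected Voronoi cells.
-/

set_option autoImplicit false

namespace Pool.Agent.Q293.SD.VorJ

open Pool.Agent.Q293.SD

/-- A maximal `r`-separated set. -/
theorem net {V : Type} (G : SimpleGraph V) (r : ℕ) :
    ∃ Y : Set V, (∀ x ∈ Y, ∀ y ∈ Y, x ≠ y → r < G.dist x y) ∧
      ∀ v, ∃ y ∈ Y, G.dist v y ≤ r := by
  obtain ⟨Y, hY⟩ := zorn_subset {Y : Set V | ∀ x ∈ Y, ∀ y ∈ Y, x ≠ y → r < G.dist x y} (by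
    intro c hc hchain
    refine ⟨⋃₀ c, ?_, fun s hs => Set.subset_sUnion_of_mem hs⟩
    rintro x ⟨s, hs, hxs⟩ y ⟨t, ht, hyt⟩ hxy
    rcases hchain.total hs ht with h | h
    · exact hc ht x (h hxs) y hyt hxy
    · exact hc hs x hxs y (h hyt) hxy)
  refine ⟨Y, hY.prop, fun v => ?_⟩
  by_contra hcon
  push Not at hcon
  have hins : insert v Y ∈ {Y : Set V | ∀ x ∈ Y, ∀ y ∈ Y, x ≠ y → r < G.dist x y} := by
    rintro x hx y hy hxy
    rcases hx with rfl | hx
    · rcases hy with rfl | hy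
      · exact absurd rfl hxy
      · exact hcon y hy
    · rcases hy with rfl | hy
      · rw [SimpleGraph.dist_comm]
        exact hcon x hx
      · exact hY.prop x hx y hy hxy
  have hv : v ∈ Y := hY.le_of_ge hins (Set.subset_insert _ _) (Set.mem_insert _ _)
  have := hcon v hv
  rw [SimpleGraph.dist_self] at this
  omega

/-- The cells up to level `n`. -/
theorem cells {V : Type} (G : SimpleGraph V) (hG : G.Connected) (Y : Set V) (D : V → ℕ)
    (hD1 : ∀ v, ∃ y ∈ Y, G.dist v y = D v) (hD2 : ∀ v, ∀ y ∈ Y, D v ≤ G.dist v y) (n : ℕ) :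
    ∃ a : V → V, ∀ v, D v ≤ n → a v ∈ Y ∧ G.dist v (a v) ≤ D v ∧
      ∃ p : G.Walk v (a v), ∀ u ∈ p.support, D u ≤ n ∧ a u = a v := by
  classical
  induction n with
  | zero =>
    refine ⟨id, fun v hv => ?_⟩
    obtain ⟨y, hy, hvy⟩ := hD1 v
    have h0 : G.dist v y = 0 := by omega
    have hvy' : v = y := (hG.dist_eq_zero_iff).1 h0
    refine ⟨by rw [id, hvy']; exact hy, by simp, ?_⟩
    refine ⟨SimpleGraph.Walk.nil, fun u hu => ?_⟩
    rw [SimpleGraph.Walk.support_nil, List.mem_singleton] at hu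
    subst hu
    exact ⟨hv, rfl⟩
  | succ n ih =>
    obtain ⟨a, ha⟩ := ih
    have hnb : ∀ v, ∃ v', D v = n + 1 → G.Adj v v' ∧ D v' ≤ n := by
      intro v
      by_cases hv : D v = n + 1
      · obtain ⟨y, hy, hvy⟩ := hD1 v
        obtain ⟨p, hp⟩ := hG.exists_walk_length_eq_dist v y
        rw [hvy, hv] at hp
        cases p with
        | nil => simp at hp
        | @cons _ v' _ h p' =>
          refine ⟨v', fun _ => ⟨h, ?_⟩⟩
          rw [SimpleGraph.Walk.length_cons] at hp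
          have h1 := SimpleGraph.dist_le p'
          have h2 := hD2 v' y hy
          omega
      · exact ⟨v, fun h => absurd h hv⟩
    choose nb hnb using hnb
    obtain ⟨a', ha1, ha2⟩ : ∃ a' : V → V, (∀ v, D v ≤ n → a' v = a v) ∧
        ∀ v, ¬ D v ≤ n → a' v = a (nb v) :=
      ⟨fun v => if D v ≤ n then a v else a (nb v), fun v hv => if_pos hv, fun v hv => if_neg hv⟩
    refine ⟨a', fun v hv => ?_⟩
    by_cases hvn : D v ≤ n
    · obtain ⟨h1, h2, p, hp⟩ := ha v hvn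
      rw [ha1 v hvn]
      refine ⟨h1, h2, p, fun u hu => ?_⟩
      obtain ⟨h3, h4⟩ := hp u hu
      exact ⟨by omega, by rw [ha1 u h3]; exact h4⟩
    · have hvn' : D v = n + 1 := by omega
      obtain ⟨hadj, hDn⟩ := hnb v hvn'
      obtain ⟨h1, h2, p, hp⟩ := ha (nb v) hDn
      rw [ha2 v hvn]
      refine ⟨h1, ?_, SimpleGraph.Walk.cons hadj p, fun u hu => ?_⟩
      · have h3 := hG.dist_triangle (u := v) (v := nb v) (w := a (nb v))
        have h4 : G.dist v (nb v) = 1 := SimpleGraph.dist_eq_one_iff_adj.2 hadj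
        omega
      · rw [SimpleGraph.Walk.support_cons, List.mem_cons] at hu
        rcases hu with hu | hu
        · subst hu
          exact ⟨hv, ha2 _ hvn⟩
        · obtain ⟨h3, h4⟩ := hp u hu
          exact ⟨by omega, by rw [ha1 u h3]; exact h4⟩

theorem main : S_VOR := by
  classical
  intro V G hG r
  obtain ⟨Y, hsep, hnear⟩ := net G r
  have hex : ∀ v, ∃ n, ∃ y ∈ Y, G.dist v y = n := by
    intro v
    obtain ⟨y, hy, -⟩ := hnear v
    exact ⟨_, y, hy, rfl⟩
  obtain ⟨a, ha⟩ := cells G hG Y (fun v => Nat.find (hex v)) (fun v => Nat.find_spec (hex v))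
    (fun v y hy => Nat.find_min' (hex v) ⟨y, hy, rfl⟩) r
  have hDr : ∀ v, Nat.find (hex v) ≤ r := by
    intro v
    obtain ⟨y, hy, hvy⟩ := hnear v
    exact (Nat.find_min' (hex v) ⟨y, hy, rfl⟩).trans hvy
  refine ⟨Y, a, hsep, fun v => (ha v (hDr v)).1, fun v => (ha v (hDr v)).2.1.trans (hDr v),
    fun v => ?_⟩
  obtain ⟨-, -, p, hp⟩ := ha v (hDr v)
  exact ⟨p, fun u hu => (hp u hu).2⟩

end Pool.Agent.Q293.SD.VorJ
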