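import Pool.Agent.Q293.SD.Stm

set_option autoImplicit false

namespace Pool.Agent.Q293.SD.WdfJ

open Pool.Agent.Q293.SD
open Finset

theorem cost_nonneg {V : Type} (G : SimpleGraph V) (w : V → ℝ) (hw : ∀ v, 0 ≤ w v) {x y : V}
    (p : G.Walk x y) : 0 ≤ cost G w p := by
  unfold cost
  apply List.sum_nonneg
  intro a ha
  rw [List.mem_map] at ha
  obtain ⟨e, _, rfl⟩ := ha
  exact hw _

theorem cost_concat {V : Type} (G : SimpleGraph V) (w : V → ℝ) {x y z : V}
    (p : G.Walk x y) (h : G.Adj y z) : cost G w (p.concat h) = cost G w p + w y := by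
  unfold cost
  rw [SimpleGraph.Walk.darts_concat]
  simp

theorem main : S_WDF := by
  intro V G hc w r o hw hM
  have hne : ∀ x, Nonempty (G.Walk o x) := fun x => hc.preconnected o x
  have hbdd : ∀ x, BddBelow (Set.range (fun p : G.Walk o x => cost G w p)) := by
    intro x
    refine ⟨0, ?_⟩
    rintro _ ⟨p, rfl⟩
    exact cost_nonneg G w hw p
  refine ⟨fun x => ⨅ p : G.Walk o x, cost G w p, ?_, ?_, ?_⟩
  · have := ciInf_le (hbdd o) (SimpleGraph.Walk.nil : G.Walk o o)
    refine this.trans ?_
    simp [cost]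
  · intro x
    have := hne x
    exact le_ciInf fun p => hM o x p
  · intro a b hab
    have := hne a
    have h1 : (⨅ p : G.Walk o b, cost G w p) - w a ≤ ⨅ p : G.Walk o a, cost G w p := by
      apply le_ciInf
      intro p
      have h2 := ciInf_le (hbdd b) (p.concat hab)
      rw [cost_concat] at h2
      linarith
    simp only
    linarith

end Pool.Agent.Q293.SD.WdfJ
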